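import Pool.Agent.Q59.S6.GenR
import Pool.Agent.Q59.PL.Odds

/-!
# All dimensions
-/

namespace Pool.Agent.Q59.S6

open Finset Pool.Agent.H916R2 Pool.Agent.Q59.FS Pool.Agent.Q59.PL Pool.Agent.Y2.Cv

/-- the excluded divisors of even degrees for the characters with at most `k` entries -/
def BadEven (k l : ℕ) : Prop :=
  l = 420 ∨ (∃ q : ℕ, q.Prime ∧ 17 ≤ q ∧ q ≤ 2 * k + 1 ∧ l = 4 * q) ∨
    (∃ q : ℕ, q.Prime ∧ 23 ≤ q ∧ q ≤ 4 * k + 1 ∧ l = 6 * q) ∨
    (∃ q : ℕ, q.Prime ∧ 11 ≤ q ∧ q ≤ 2 * k + 1 ∧ l = 10 * q) ∨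
    (∃ p q : ℕ, p.Prime ∧ q.Prime ∧ 7 ≤ p ∧ p < q ∧ q ≤ k + 1 ∧ l = 2 * p * q)

/-- the excluded divisors of odd degrees for the characters with at most `k` entries -/
def BadOdd (k l : ℕ) : Prop :=
  (∃ q : ℕ, q.Prime ∧ 23 ≤ q ∧ q ≤ 2 * k + 1 ∧ l = 3 * q) ∨
    (∃ p q : ℕ, p.Prime ∧ q.Prime ∧ 5 ≤ p ∧ p < q ∧ 11 ≤ q ∧ q ≤ k + 1 ∧ l = p * q)

section Six

variable {m : ℕ} [NeZero m] {Q : Type} [AddCommGroup Q] {C : ZMod m → Q} {k : ℕ}

/-- one prime, at most `2 * k` letters -/
theorem peel_all (hm2 : 2 ∣ m) (hm : ∀ l, BadEven k l → ¬ l ∣ m) (hC : OddDist C)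
    (hb : ∀ s, SurfaceOrCurveProduct m s → (s.map C).sum = 0) {q : ℕ} (hq : q.Prime) (hq11 : 11 ≤ q)
    (hqk : k + 1 < q)
    (hqm : q ∣ m) {x0 : ZMod m → ℤ} (hrel : Rel x0) (hU : ud q x0 ≤ 2 * k) (hN : nd q x0 ≤ 4 * k) :
    ∃ y, Rel y ∧ ∑ a, x0 a • C a = ∑ a, y a • C a ∧
      (∀ a, q ∣ addOrderOf a → od y a = 0) ∧ Dom5 y x0 := by
  have hqZ : (k : ℤ) + 1 < q := by exact_mod_cast hqk
  have h4bd : ∀ d, 4 ∣ d → q ∣ d → nd d x0 ≤ 2 * k := by
    intro d h4 hqd
    rw [nd_eq_ud h4]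
    exact (ud_mono hqd x0).trans hU
  have hdiv : ∀ c : ℕ, c ∣ m → c.Coprime q → c * q ∣ m := fun c hc hcop =>
    hcop.mul_dvd_of_dvd_of_dvd hc hqm
  refine peel_q hm2 hC hb hq (by omega) hrel (fun d hd _ R x h => ?_) ?_ ?_
  · by_cases hd2 : d % 4 = 2
    · exact h.step_two hd2
    by_cases hd4 : 4 ∣ d
    · refine step_four_gen h (by omega) hd4 (by omega) ?_
      have := h4bd d hd4 h.hqd
      linarith
    have hodd : d % 2 = 1 := by omega
    by_cases h2k : 2 * k + 1 < q
    · have : 2 * (k : ℤ) + 1 < q := by exact_mod_cast h2k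
      exact h.step_odd (by rw [nq_eq_nd]; linarith) hodd (by omega) (by omega)
    refine step_ref' h (Nat.odd_iff.mpr hodd) ?_ hq11 (by omega) ?_
    · have := (ud_mono h.hqd x0).trans hU
      linarith
    · intro h5
      have h5m : 5 ∣ m := h5.trans (Dvd.intro_left R h.hR)
      have h10 : 2 * 5 ∣ m := (show Nat.Coprime 2 5 by norm_num).mul_dvd_of_dvd_of_dvd hm2 h5m
      refine hm (10 * q) (Or.inr (Or.inr (Or.inr (Or.inl ⟨q, hq, hq11, by omega, rfl⟩))))
        (hdiv 10 h10 ?_)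
      refine Nat.Coprime.symm ((Nat.Prime.coprime_iff_not_dvd hq).mpr fun h1 => ?_)
      have := Nat.le_of_dvd (by norm_num) h1
      omega
  · by_cases h2k : 2 * k + 1 < q
    · left
      have h1 := h4bd (4 * q) (Dvd.intro _ rfl) (Dvd.intro_left _ rfl)
      have : 2 * (k : ℤ) + 1 < q := by exact_mod_cast h2k
      linarith
    · by_cases h17 : 17 ≤ q
      · right; left
        intro h4
        exact hm (4 * q) (Or.inr (Or.inl ⟨q, hq, h17, by omega, rfl⟩)) h4
      · right; right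
        interval_cases q <;> first | (simp; done) | exact absurd hq (by norm_num)
  · by_cases h4k : 4 * k + 1 < q
    · left
      have h1 := (nd_mono (show q ∣ 3 * q from Dvd.intro_left _ rfl) x0).trans hN
      have : 4 * (k : ℤ) + 1 < q := by exact_mod_cast h4k
      linarith
    · by_cases h23 : 23 ≤ q
      · right; left
        intro h3
        have h2 : ¬ 2 ∣ 3 * q := by
          intro h2
          rcases Nat.prime_two.dvd_mul.mp h2 with h1 | h1
          · exact absurd h1 (by norm_num)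
          · have := (Nat.prime_dvd_prime_iff_eq Nat.prime_two hq).mp h1
            omega
        have h4 := Nat.Coprime.mul_dvd_of_dvd_of_dvd
          ((Nat.Prime.coprime_iff_not_dvd Nat.prime_two).mpr h2) hm2 h3
        rw [← mul_assoc] at h4
        exact hm (6 * q) (Or.inr (Or.inr (Or.inl ⟨q, hq, h23, by omega, rfl⟩))) h4
      · right; right
        interval_cases q <;> first | (simp; done) | exact absurd hq (by norm_num)

/-- several primes -/
theorem peel_all_list (hm2 : 2 ∣ m) (hm : ∀ l, BadEven k l → ¬ l ∣ m) (hC : OddDist C)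
    (hb : ∀ s, SurfaceOrCurveProduct m s → (s.map C).sum = 0) :
    ∀ L : List ℕ, (∀ q ∈ L, q.Prime ∧ 11 ≤ q ∧ k + 1 < q ∧ q ∣ m) → ∀ x : ZMod m → ℤ, Rel x →
      (∀ q, ud q x ≤ 2 * k ∨ q ∉ L) → (∀ q, nd q x ≤ 4 * k ∨ q ∉ L) →
      ∃ y, Rel y ∧ ∑ a, x a • C a = ∑ a, y a • C a ∧
        (∀ q ∈ L, ∀ a, q ∣ addOrderOf a → od y a = 0) ∧ Dom5 y x := by
  intro L
  induction L with
  | nil => exact fun _ x hx _ _ => ⟨x, hx, rfl, fun q hq => absurd hq List.not_mem_nil,
      fun _ _ _ _ _ => le_rfl⟩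
  | cons q L ih =>
    intro hL x hx hU hN
    obtain ⟨hq, hq11, hqk, hqm⟩ := hL q (List.mem_cons_self ..)
    obtain ⟨y, hy, hxy, hy0, hd⟩ := peel_all hm2 hm hC hb hq hq11 hqk hqm hx
      ((hU q).resolve_right (fun h => h (List.mem_cons_self ..)))
      ((hN q).resolve_right (fun h => h (List.mem_cons_self ..)))
    obtain ⟨z, hz, hyz, hz0, hd'⟩ := ih (fun p hp => hL p (List.mem_cons_of_mem _ hp)) y hy
      (fun p => by
        by_cases hp : p ∈ L
        · obtain ⟨h1, h2, -, -⟩ := hL p (List.mem_cons_of_mem _ hp)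
          left
          exact (hd.ud_le h1 (by omega) dvd_rfl).trans
            ((hU p).resolve_right (fun h => h (List.mem_cons_of_mem _ hp)))
        · exact Or.inr hp) (fun p => by
        by_cases hp : p ∈ L
        · obtain ⟨h1, h2, -, -⟩ := hL p (List.mem_cons_of_mem _ hp)
          left
          exact (hd.nd_le h1 (by omega) dvd_rfl).trans
            ((hN p).resolve_right (fun h => h (List.mem_cons_of_mem _ hp)))
        · exact Or.inr hp)
    refine ⟨z, hz, hxy.trans hyz, fun p hp a ha => ?_, hd'.trans hd⟩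
    rcases List.mem_cons.mp hp with rfl | hp
    · have h1 := hd' p hq (by omega) a ha
      rw [hy0 a ha, abs_zero] at h1
      exact abs_nonpos_iff.mp h1
    · exact hz0 p hp a ha

end Six

section Split

/-- the part of a number with the primes at most `B` -/
lemma exists_split {m : ℕ} (hm : m ≠ 0) (B : ℕ) : ∃ m1 m2 : ℕ, m1 * m2 = m ∧
    (∀ p : ℕ, p.Prime → p ∣ m1 → p ≤ B) ∧ (∀ p : ℕ, p.Prime → p ∣ m2 → B < p) := by
  induction B with
  | zero =>
    refine ⟨1, m, one_mul m, fun p hp hp1 => ?_, fun p hp _ => hp.pos⟩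
    exact absurd (Nat.dvd_one.mp hp1) hp.ne_one
  | succ B ih =>
    obtain ⟨m1, m2, h12, h1, h2⟩ := ih
    have hm2 : m2 ≠ 0 := by rintro rfl; rw [mul_zero] at h12; exact hm h12.symm
    by_cases hB : (B + 1).Prime
    · obtain ⟨a, u, hu, e1⟩ := Nat.exists_eq_pow_mul_and_not_dvd hm2 (B + 1) hB.ne_one
      refine ⟨m1 * (B + 1) ^ a, u, by rw [mul_assoc, ← e1, h12], fun p hp hpd => ?_,
        fun p hp hpu => ?_⟩
      · rcases hp.dvd_mul.mp hpd with h | h
        · exact (h1 p hp h).trans (Nat.le_succ B)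
        · exact ((Nat.prime_dvd_prime_iff_eq hp hB).mp (hp.dvd_of_dvd_pow h)).le
      · have h3 := h2 p hp (by rw [e1]; exact Dvd.dvd.mul_left hpu _)
        have h4 : p ≠ B + 1 := by rintro rfl; exact hu hpu
        omega
    · refine ⟨m1, m2, h12, fun p hp hpd => (h1 p hp hpd).trans (Nat.le_succ B),
        fun p hp hpd => ?_⟩
      have h3 := h2 p hp hpd
      have h4 : p ≠ B + 1 := by rintro rfl; exact hB hp
      omega

/-- the even level of the small primes is good -/
lemma good_even {k M : ℕ} (hM2 : 2 ∣ M) (hM0 : M ≠ 0)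
    (hM : ∀ p : ℕ, p.Prime → p ∣ M → p ≤ max 10 (k + 1))
    (hbad : ∀ l, BadEven k l → ¬ l ∣ M) : GoodDegree2 M := by
  by_cases hex : ∃ q : ℕ, q.Prime ∧ 11 ≤ q ∧ q ∣ M
  swap
  · push Not at hex
    refine good_smooth (fun p hp hpM => ?_) (hbad 420 (Or.inl rfl))
    have h1 : p < 11 := by
      by_contra hcon
      exact hex p hp (by omega) hpM
    have h2 := hp.two_le
    interval_cases p <;> first | omega | exact absurd hp (by norm_num)
  obtain ⟨q, hq, hq11, hqM⟩ := hex
  have hqk : q ≤ k + 1 := by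
    have := hM q hq hqM
    rcases le_max_iff.mp this with h | h
    · omega
    · exact h
  have hcop : ∀ c : ℕ, 0 < c → c < 11 → c ∣ M → c * q ∣ M := by
    intro c hc0 hc hcM
    refine Nat.Coprime.mul_dvd_of_dvd_of_dvd (Nat.Coprime.symm
      ((Nat.Prime.coprime_iff_not_dvd hq).mpr fun h1 => ?_)) hcM hqM
    have := Nat.le_of_dvd hc0 h1
    omega
  have h2q : 2 * q ∣ M := hcop 2 (by norm_num) (by norm_num) hM2
  -- the other primes are two and three
  have key : ∀ p : ℕ, p.Prime → p ∣ M → p = 2 ∨ p = 3 ∨ p = q := by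
    intro p hp hpM
    by_cases hpq : p = q
    · exact Or.inr (Or.inr hpq)
    by_contra hcon
    push Not at hcon
    have h2 := hp.two_le
    have h4 : p ≠ 4 := by rintro rfl; exact absurd hp (by norm_num)
    have h6 : p ≠ 6 := by rintro rfl; exact absurd hp (by norm_num)
    have h2p : (2 : ℕ).Coprime p := (Nat.coprime_primes Nat.prime_two hp).mpr (by omega)
    have hpq' : p.Coprime q := (Nat.coprime_primes hp hq).mpr hpq
    have h2q' : (2 : ℕ).Coprime q := (Nat.coprime_primes Nat.prime_two hq).mpr (by omega)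
    have h1 : 2 * p * q ∣ M := Nat.Coprime.mul_dvd_of_dvd_of_dvd
      (Nat.Coprime.mul_left h2q' hpq') (h2p.mul_dvd_of_dvd_of_dvd hM2 hpM) hqM
    by_cases h5 : p = 5
    · subst h5
      exact hbad (10 * q) (Or.inr (Or.inr (Or.inr (Or.inl ⟨q, hq, hq11, by omega, rfl⟩)))) h1
    · rcases lt_or_gt_of_ne hpq with h3 | h3
      · exact hbad _ (Or.inr (Or.inr (Or.inr (Or.inr ⟨p, q, hp, hq, by omega, h3, hqk, rfl⟩)))) h1
      · have hpk : p ≤ k + 1 := by
          have := hM p hp hpM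
          rcases le_max_iff.mp this with h | h
          · omega
          · exact h
        exact hbad (2 * q * p) (Or.inr (Or.inr (Or.inr (Or.inr
          ⟨q, p, hq, hp, by omega, h3, hpk, rfl⟩)))) (by
            rw [mul_assoc, mul_comm q p, ← mul_assoc]; exact h1)
  by_cases hq13 : q ≤ 13
  · interval_cases q
    · exact Or.inr (Or.inr (Or.inr (Or.inl key)))
    · exact absurd hq (by norm_num)
    · exact Or.inr (Or.inr (Or.inr (Or.inr (Or.inl key))))
  have h17 : 17 ≤ q := by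
    have h14 : q ≠ 14 := by rintro rfl; exact absurd hq (by norm_num)
    have h15 : q ≠ 15 := by rintro rfl; exact absurd hq (by norm_num)
    have h16 : q ≠ 16 := by rintro rfl; exact absurd hq (by norm_num)
    omega
  have h4 : ¬ 4 ∣ M := fun h4 => hbad (4 * q)
    (Or.inr (Or.inl ⟨q, hq, h17, by omega, rfl⟩)) (hcop 4 (by norm_num) (by norm_num) h4)
  by_cases hq19 : q ≤ 19
  · refine Or.inr (Or.inr (Or.inr (Or.inr (Or.inr (Or.inl ⟨h4, ?_⟩)))))
    interval_cases q
    · exact Or.inr (Or.inl key)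
    · exact absurd hq (by norm_num)
    · exact Or.inr (Or.inr key)
  have h23 : 23 ≤ q := by
    have h20 : q ≠ 20 := by rintro rfl; exact absurd hq (by norm_num)
    have h21 : q ≠ 21 := by rintro rfl; exact absurd hq (by norm_num)
    have h22 : q ≠ 22 := by rintro rfl; exact absurd hq (by norm_num)
    omega
  have h3 : ¬ 3 ∣ M := fun h3 => hbad (6 * q)
    (Or.inr (Or.inr (Or.inl ⟨q, hq, h23, by omega, rfl⟩)))
    (hcop 6 (by norm_num) (by norm_num) ((show Nat.Coprime 2 3 by norm_num).mul_dvd_of_dvd_of_dvd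
      hM2 h3))
  refine Or.inr (Or.inr (Or.inr (Or.inr (Or.inr (Or.inr ?_)))))
  obtain ⟨e, he⟩ := hM2
  have he0 : e ≠ 0 := by rintro rfl; exact hM0 (by rw [he])
  have hpe : e = q ^ e.primeFactorsList.length := by
    refine Nat.eq_prime_pow_of_unique_prime_dvd he0 fun {p} hp hpe => ?_
    rcases key p hp (by rw [he]; exact Dvd.dvd.mul_left hpe 2) with h | h | h
    · exfalso
      subst h
      obtain ⟨f, hf⟩ := hpe
      exact h4 ⟨f, by rw [he, hf]; ring⟩
    · exfalso
      subst h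
      exact h3 (by rw [he]; exact Dvd.dvd.mul_left hpe 2)
    · exact h
  exact ⟨q, _, hq, Or.inr (by rw [← hpe]; exact he)⟩

/-- the odd level of the small primes is good -/
lemma good_odd {k M : ℕ} (hM2 : ¬ 2 ∣ M) (hM0 : M ≠ 0)
    (hM : ∀ p : ℕ, p.Prime → p ∣ M → p ≤ max 10 (k + 1))
    (hbad : ∀ l, BadOdd k l → ¬ l ∣ M) : GoodDegree2 M := by
  have h4 : ¬ 4 ∣ M := fun h => hM2 ((show 2 ∣ 4 by norm_num).trans h)
  by_cases hex : ∃ q : ℕ, q.Prime ∧ 11 ≤ q ∧ q ∣ M
  swap
  · push Not at hex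
    refine Or.inr (Or.inr (Or.inr (Or.inr (Or.inr (Or.inl ⟨h4, Or.inl fun p hp hpM => ?_⟩)))))
    have h1 : p < 11 := by
      by_contra hcon
      exact hex p hp (by omega) hpM
    have h2 := hp.two_le
    interval_cases p <;> first | omega | exact absurd hp (by norm_num)
  obtain ⟨q, hq, hq11, hqM⟩ := hex
  have hqk : q ≤ k + 1 := by
    have := hM q hq hqM
    rcases le_max_iff.mp this with h | h
    · omega
    · exact h
  have key : ∀ p : ℕ, p.Prime → p ∣ M → p = 3 ∨ p = q := by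
    intro p hp hpM
    by_cases hpq : p = q
    · exact Or.inr hpq
    by_contra hcon
    push Not at hcon
    have h2 := hp.two_le
    have h2' : p ≠ 2 := by rintro rfl; exact hM2 hpM
    have h4 : p ≠ 4 := by rintro rfl; exact absurd hp (by norm_num)
    have hpq' : p.Coprime q := (Nat.coprime_primes hp hq).mpr hpq
    have h1 : p * q ∣ M := hpq'.mul_dvd_of_dvd_of_dvd hpM hqM
    rcases lt_or_gt_of_ne hpq with h3 | h3
    · exact hbad _ (Or.inr ⟨p, q, hp, hq, by omega, h3, hq11, hqk, rfl⟩) h1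
    · have hpk : p ≤ k + 1 := by
        have := hM p hp hpM
        rcases le_max_iff.mp this with h | h
        · omega
        · exact h
      exact hbad (q * p) (Or.inr ⟨q, p, hq, hp, by omega, h3, by omega, hpk, rfl⟩) (by
        rw [mul_comm]; exact h1)
  by_cases hq19 : q ≤ 19
  · interval_cases q
    · exact Or.inr (Or.inr (Or.inr (Or.inl fun p hp hpM => Or.inr (key p hp hpM))))
    · exact absurd hq (by norm_num)
    · exact Or.inr (Or.inr (Or.inr (Or.inr (Or.inl fun p hp hpM => Or.inr (key p hp hpM)))))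
    · exact absurd hq (by norm_num)
    · exact absurd hq (by norm_num)
    · exact absurd hq (by norm_num)
    · exact Or.inr (Or.inr (Or.inr (Or.inr (Or.inr (Or.inl ⟨h4, Or.inr (Or.inl
        fun p hp hpM => Or.inr (key p hp hpM))⟩)))))
    · exact absurd hq (by norm_num)
    · exact Or.inr (Or.inr (Or.inr (Or.inr (Or.inr (Or.inl ⟨h4, Or.inr (Or.inr
        fun p hp hpM => Or.inr (key p hp hpM))⟩)))))
  have h23 : 23 ≤ q := by
    have h20 : q ≠ 20 := by rintro rfl; exact absurd hq (by norm_num)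
    have h21 : q ≠ 21 := by rintro rfl; exact absurd hq (by norm_num)
    have h22 : q ≠ 22 := by rintro rfl; exact absurd hq (by norm_num)
    omega
  have h3 : ¬ 3 ∣ M := fun h3 => hbad (3 * q)
    (Or.inl ⟨q, hq, h23, by omega, rfl⟩) (Nat.Coprime.mul_dvd_of_dvd_of_dvd
      ((Nat.coprime_primes Nat.prime_three hq).mpr (by omega)) h3 hqM)
  refine Or.inr (Or.inr (Or.inr (Or.inr (Or.inr (Or.inr ?_)))))
  have hpe : M = q ^ M.primeFactorsList.length := by
    refine Nat.eq_prime_pow_of_unique_prime_dvd hM0 fun {p} hp hpe => ?_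
    rcases key p hp hpe with h | h
    · exact absurd (h ▸ hpe) h3
    · exact h
  exact ⟨q, _, hq, Or.inl hpe⟩

end Split

section Main

variable {m : ℕ} [NeZero m] {k : ℕ}

/-- **Even degrees.** -/
theorem main_all_even (hm2 : 2 ∣ m) (hm : ∀ l, BadEven k l → ¬ l ∣ m)
    {s : Multiset (ZMod m)} (hs : IsHodge m s) (hne : s ≠ 0) (hcard : Multiset.card s ≤ k) :
    Generated m (SurfaceOrCurveProduct m) s := by
  have hm0 := NeZero.ne m
  have hc : (Multiset.card s : ℤ) ≤ k := by exact_mod_cast hcard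
  obtain ⟨m1, m2, h12, hp1, hp2⟩ := exists_split hm0 (max 10 (k + 1))
  have hm20 : m2 ≠ 0 := by rintro rfl; rw [mul_zero] at h12; exact hm0 h12.symm
  have hm10 : m1 ≠ 0 := by rintro rfl; rw [zero_mul] at h12; exact hm0 h12.symm
  have : NeZero m1 := ⟨hm10⟩
  have h2m1 : 2 ∣ m1 := by
    have h1 : 2 ∣ m1 * m2 := by rw [h12]; exact hm2
    rcases Nat.prime_two.dvd_mul.mp h1 with h | h
    · exact h
    · have h3 := hp2 2 Nat.prime_two h
      have := (le_max_left 10 (k + 1)).trans_lt h3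
      omega
  have hgood : GoodDegree2 m1 := good_even h2m1 hm10 hp1
    (fun l hl h => hm l hl (h.trans (Dvd.intro _ h12)))
  have hb : ∀ u, SurfaceOrCurveProduct m u → (u.map (cQ m (SurfaceOrCurveProduct m))).sum = 0 :=
    fun u hu => cQ_sum_eq_zero (Generated.ofBase u hu)
  have hL : ∀ q ∈ m2.primeFactorsList, q.Prime ∧ 11 ≤ q ∧ k + 1 < q ∧ q ∣ m := by
    intro q hq
    have h1 := (Nat.mem_primeFactorsList hm20).mp hq
    have h3 := hp2 q h1.1 h1.2
    rw [max_lt_iff] at h3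
    exact ⟨h1.1, by omega, h3.2, h1.2.trans (Dvd.intro_left _ h12)⟩
  obtain ⟨y, hy, hxy, hy0, -⟩ := peel_all_list (k := k) hm2 hm
    (cQ_oddDist (base := SurfaceOrCurveProduct m)) hb m2.primeFactorsList hL _ hs.rel
    (fun q => Or.inl ((ud_count_le q s).trans (by linarith)))
    (fun q => Or.inl ((nd_count_le q s).trans (by have := wq_le_two q s; linarith)))
  have h1 : ∑ a, ((s.count a : ℕ) : ℤ) • cQ m (SurfaceOrCurveProduct m) a = 0 := by
    rw [hxy]
    refine kill_good_od (M := m1) (k := m2) (by rw [mul_comm]; exact h12) h2m1 hgood cQ_oddDist hb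
      ?_ hy
    intro a ha
    have h1 : addOrderOf a ∣ m1 * m2 := by rw [h12]; exact order_dvd a
    refine Nat.Coprime.dvd_of_dvd_mul_right ?_ h1
    refine Nat.coprime_of_dvd fun p hp hpa hp2 => ?_
    exact ha (hy0 p ((Nat.mem_primeFactorsList hm20).mpr ⟨hp, hp2⟩) a hpa)
  rw [sum_count] at h1
  rw [cQ_sum, QuotientAddGroup.eq_zero_iff] at h1
  exact generated_of_mem_LL base_good base_neg hs.1 hs.2.1 hne h1

/-- **Odd degrees.** -/
theorem main_all_odd (hodd : m % 2 = 1) (hm : ∀ l, BadOdd k l → ¬ l ∣ m)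
    {s : Multiset (ZMod m)} (hs : IsHodge m s) (hne : s ≠ 0) (hcard : Multiset.card s ≤ k) :
    Generated (2 * m) (SurfaceOrCurveProduct (2 * m))
      (s.map fun a => ((2 * a.val : ℕ) : ZMod (2 * m))) := by
  have hm0 := NeZero.ne m
  have hc : (Multiset.card s : ℤ) ≤ k := by exact_mod_cast hcard
  obtain ⟨m1, m2, h12, hp1, hp2⟩ := exists_split hm0 (max 10 (k + 1))
  have hm10 : m1 ≠ 0 := by rintro rfl; rw [zero_mul] at h12; exact hm0 h12.symm
  have h2m1 : ¬ 2 ∣ m1 := by
    intro h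
    have h1 : 2 ∣ m := by rw [← h12]; exact Dvd.dvd.mul_right h m2
    omega
  refine main_odd hodd h12 (good_odd h2m1 hm10 hp1
    (fun l hl h => hm l hl (h.trans (Dvd.intro _ h12)))) hs hne fun q hq hqm => ?_
  have h3 := hp2 q hq hqm
  rw [max_lt_iff] at h3
  have hw := wq_le hodd q s
  refine ⟨by omega, ?_⟩
  have hqk : (k : ℤ) + 1 < q := by exact_mod_cast h3.2
  by_cases h2k : 2 * k + 1 < q
  · left
    have : 2 * (k : ℤ) + 1 < q := by exact_mod_cast h2k
    linarith
  · refine Or.inr ⟨by omega, by linarith, ?_⟩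
    by_cases h23 : 23 ≤ q
    · left
      intro h3m
      refine hm (3 * q) (Or.inl ⟨q, hq, h23, by omega, rfl⟩) (Nat.Coprime.mul_dvd_of_dvd_of_dvd
        ((Nat.coprime_primes Nat.prime_three hq).mpr (by omega)) h3m
        (hqm.trans (Dvd.intro_left _ h12)))
    · right
      have h11 : 11 ≤ q := by omega
      interval_cases q <;> first | omega | exact absurd hq (by norm_num)

end Main

end Pool.Agent.Q59.S6
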