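import Pool.Agent.Q59.S6.Ext2

/-!
# Pairings with the orders divisible by `d`
-/

namespace Pool.Agent.Q59.S6

open Finset Pool.Agent.H916R2 Pool.Agent.Q59.FS Pool.Agent.Q59.PL

section Norms

variable {m : ℕ} [NeZero m]

/-- the weighted norm of the part of `x` in the orders divisible by `d` -/
noncomputable def nd (d : ℕ) (x : ZMod m → ℤ) : ℤ :=
  ∑ a ∈ univ.filter (fun a : ZMod m => d ∣ addOrderOf a), wo (addOrderOf a) * |od x a|

/-- the norm of the part of `x` in the orders divisible by `d` -/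
noncomputable def ud (d : ℕ) (x : ZMod m → ℤ) : ℤ :=
  ∑ a ∈ univ.filter (fun a : ZMod m => d ∣ addOrderOf a), |od x a|

lemma nd_mono {d d' : ℕ} (h : d' ∣ d) (x : ZMod m → ℤ) : nd d x ≤ nd d' x := by
  unfold nd
  refine sum_le_sum_of_subset_of_nonneg ?_ fun a _ _ => mul_nonneg (wo_pos _).le (abs_nonneg _)
  intro a ha
  rw [mem_filter] at ha ⊢
  exact ⟨ha.1, h.trans ha.2⟩

lemma ud_mono {d d' : ℕ} (h : d' ∣ d) (x : ZMod m → ℤ) : ud d x ≤ ud d' x := by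
  unfold ud
  refine sum_le_sum_of_subset_of_nonneg ?_ fun a _ _ => abs_nonneg _
  intro a ha
  rw [mem_filter] at ha ⊢
  exact ⟨ha.1, h.trans ha.2⟩

lemma nd_eq_ud {d : ℕ} (h : 4 ∣ d) (x : ZMod m → ℤ) : nd d x = ud d x := by
  unfold nd ud
  refine sum_congr rfl fun a ha => ?_
  have h1 : 4 ∣ addOrderOf a := h.trans (mem_filter.mp ha).2
  unfold wo
  rw [if_neg (by omega), one_mul]

lemma nq_eq_nd (q : ℕ) (x : ZMod m → ℤ) : nq q x = nd q x := rfl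

end Norms

section Base

variable {m R d : ℕ} [NeZero m] [NeZero d]

/-- the unit two -/
noncomputable def u2 {d : ℕ} (h : Odd d) : (ZMod d)ˣ := ZMod.unitOfCoprime 2 (Nat.coprime_two_left.mpr h)

lemma u2_coe {d : ℕ} (h : Odd d) : ((u2 h : (ZMod d)ˣ) : ZMod d) = 2 := by
  unfold u2
  rw [ZMod.coe_unitOfCoprime]
  norm_cast

lemma iota_two (hR : R * d = m) (z : ZMod d) : (iota R (2 * z) : ZMod m) = 2 * iota R z := by
  rw [two_mul, iota_add hR, two_mul]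

/-- the base distribution, refined -/
theorem base_PC (hR : R * d = m) {q : ℕ} (hd : Odd d) {b : (ZMod d)ˣ → ℚ}
    (hodd : ∀ u, b (-u) = - b u) (hb1 : ∀ u, |b u| ≤ 1) (hb2 : ∀ u, |b (u2 hd * u) - b u| ≤ 1)
    (hb : ∀ ℓ : ℕ, ℓ.Prime → ℓ ≠ q → ℓ ∣ d → ∀ u, ∑ κ ∈ KF (KL d ℓ), b (u * κ) = 0) :
    ∃ φ : ZMod m → ℚ, PC q d d φ ∧ ∀ u : (ZMod d)ˣ, φ (iota R (u : ZMod d)) = b u := by
  obtain ⟨φ, h, hφ⟩ := base_PB hR hodd hb1 hb
  have hex : ∀ a, addOrderOf a = d → ∃ u : (ZMod d)ˣ, (iota R (u : ZMod d) : ZMod m) = a :=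
    fun a ha => exists_unit hR ha
  have hord : ∀ a, φ a ≠ 0 → addOrderOf a = d := by
    intro a ha
    refine Nat.dvd_antisymm ?_ (h.ord a ha)
    rw [addOrderOf_dvd_iff_nsmul_eq_zero, nsmul_eq_mul]
    exact h.supp a ha
  refine ⟨φ, ⟨h.neg, h.supp, h.ord, ?_, ?_, h.dist⟩, hφ⟩
  · intro a
    by_cases h0 : φ a = 0
    · rw [h0, abs_zero]; norm_num
    · obtain ⟨u, rfl⟩ := hex a (hord a h0)
      rw [hφ]; exact hb1 u
  · intro a hoa
    have key : ∀ u : (ZMod d)ˣ, |φ (2 * iota R (u : ZMod d)) - φ (iota R (u : ZMod d))| ≤ 1 := by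
      intro u
      have e : (2 : ZMod m) * iota R (u : ZMod d) = iota R ((u2 hd * u : (ZMod d)ˣ) : ZMod d) := by
        rw [Units.val_mul, u2_coe, iota_two hR]
      rw [e, hφ, hφ]
      exact hb2 u
    by_cases h0 : φ a = 0
    · by_cases h1 : φ (2 * a) = 0
      · rw [h0, h1, sub_zero, abs_zero]; norm_num
      · have h2 := hord _ h1
        have h3 : addOrderOf a = addOrderOf (2 * a) := by
          refine Nat.dvd_antisymm ?_ ?_
          · rw [addOrderOf_dvd_iff_nsmul_eq_zero, nsmul_eq_mul, ← odd_mul hoa, ← nsmul_eq_mul]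
            exact addOrderOf_nsmul_eq_zero _
          · rw [addOrderOf_dvd_iff_nsmul_eq_zero, nsmul_eq_mul, odd_mul hoa, ← nsmul_eq_mul]
            exact addOrderOf_nsmul_eq_zero _
        obtain ⟨u, rfl⟩ := hex a (h3.trans h2)
        exact key u
    · obtain ⟨u, rfl⟩ := hex a (hord a h0)
      exact key u

/-- the general pairing inequality -/
theorem pairing_gen {q : ℕ} {R d : ℕ} [NeZero d] (hR : R * d = m)
    {x x0 : ZMod m → ℤ} (hE : Eqv q x x0)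
    (htop : ∀ a, od x a ≠ 0 → d ∣ addOrderOf a → addOrderOf a = d)
    {b : (ZMod d)ˣ → ℚ} {φ : ZMod m → ℚ} (hpart : Part q φ) (hord : ∀ a, φ a ≠ 0 → d ∣ addOrderOf a)
    (hval : ∀ u : (ZMod d)ˣ, φ (iota R (u : ZMod d)) = b u) {w : ZMod m → ℤ}
    (hw : ∀ a, d ∣ addOrderOf a → |φ a| ≤ w a) :
    |∑ u : (ZMod d)ˣ, (od x (iota R (u : ZMod d)) : ℚ) * b u| ≤
      ((∑ a ∈ univ.filter (fun a : ZMod m => d ∣ addOrderOf a), w a * |od x0 a| : ℤ) : ℚ) := by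
  classical
  have h2 : ∑ a, (od x a : ℚ) * φ a = ∑ a, (od x0 a : ℚ) * φ a := by
    rw [two_pair x hpart.neg, two_pair x0 hpart.neg, hE ℚ φ hpart]
  have h4 : ∑ a, ((od x a : ℤ) : ℚ) * φ a =
      ∑ a ∈ univ.filter (fun a : ZMod m => addOrderOf a = d), ((od x a : ℤ) : ℚ) * φ a := by
    symm
    apply sum_subset (subset_univ _)
    intro a _ ha
    have hne : addOrderOf a ≠ d := fun h => ha (mem_filter.mpr ⟨mem_univ _, h⟩)
    by_cases h5 : φ a = 0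
    · rw [h5, mul_zero]
    · by_cases h6 : od x a = 0
      · rw [h6]; simp
      · exact absurd (htop a h6 (hord a h5)) hne
  have h5 : ∑ u : (ZMod d)ˣ, (od x (iota R (u : ZMod d)) : ℚ) * b u =
      ∑ a, (od x0 a : ℚ) * φ a := by
    rw [← h2, h4, sum_order hR]
    exact sum_congr rfl fun u _ => by rw [hval]
  rw [h5]
  have h6 : ∑ a, (od x0 a : ℚ) * φ a =
      ∑ a ∈ univ.filter (fun a : ZMod m => d ∣ addOrderOf a), (od x0 a : ℚ) * φ a := by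
    symm
    apply sum_subset (subset_univ _)
    intro a _ ha
    have h7 : φ a = 0 := by
      by_contra h8
      exact ha (mem_filter.mpr ⟨mem_univ _, hord a h8⟩)
    rw [h7, mul_zero]
  rw [h6]
  push_cast
  refine (abs_sum_le_sum_abs _ _).trans (sum_le_sum fun a ha => ?_)
  rw [abs_mul, mul_comm]
  exact mul_le_mul_of_nonneg_right (hw a (mem_filter.mp ha).2) (abs_nonneg _)

/-- **The pairing inequality**, with the orders divisible by `d`. -/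
theorem pairing_d {q : ℕ} (hq : q.Prime) {R d : ℕ} [NeZero d] (hR : R * d = m)
    {x x0 : ZMod m → ℤ} (hE : Eqv q x x0)
    (htop : ∀ a, od x a ≠ 0 → d ∣ addOrderOf a → addOrderOf a = d)
    {b : (ZMod d)ˣ → ℚ} (hodd : ∀ u, b (-u) = - b u) (hb1 : ∀ u, |b u| ≤ 1)
    (hb : ∀ ℓ : ℕ, ℓ.Prime → ℓ ≠ q → ℓ ∣ d → ∀ u, ∑ κ ∈ KF (KL d ℓ), b (u * κ) = 0) :
    |∑ u : (ZMod d)ˣ, (od x (iota R (u : ZMod d)) : ℚ) * b u| ≤ (nd d x0 : ℤ) := by
  obtain ⟨φ0, h0, h0'⟩ := base_PB hR hodd hb1 hb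
  obtain ⟨φ, h1, h1'⟩ := h0.extend hq (Dvd.intro_left R hR)
  refine pairing_gen hR hE htop h1.part h1.ord (fun u => ?_) (w := fun a => wo (addOrderOf a))
    fun a _ => h1.bd a
  rw [h1' _ ?_, h0']
  have := addOrderOf_nsmul_eq_zero (iota R (u : ZMod d) : ZMod m)
  rw [addOrderOf_iota_unit hR u, nsmul_eq_mul] at this
  exact this

/-- **The refined pairing inequality.** -/
theorem pairing_two {q : ℕ} (hq : q.Prime) {R d : ℕ} [NeZero d] (hR : R * d = m)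
    (hd : Odd d) {x x0 : ZMod m → ℤ} (hE : Eqv q x x0)
    (htop : ∀ a, od x a ≠ 0 → d ∣ addOrderOf a → addOrderOf a = d)
    {b : (ZMod d)ˣ → ℚ} (hodd : ∀ u, b (-u) = - b u) (hb1 : ∀ u, |b u| ≤ 1)
    (hb2 : ∀ u, |b (u2 hd * u) - b u| ≤ 1)
    (hb : ∀ ℓ : ℕ, ℓ.Prime → ℓ ≠ q → ℓ ∣ d → ∀ u, ∑ κ ∈ KF (KL d ℓ), b (u * κ) = 0) :
    |∑ u : (ZMod d)ˣ, (od x (iota R (u : ZMod d)) : ℚ) * b u| ≤ (ud d x0 : ℤ) := by
  obtain ⟨φ0, h0, h0'⟩ := base_PC hR hd hodd hb1 hb2 hb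
  obtain ⟨φ, h1, h1'⟩ := h0.extend hq (Dvd.intro_left R hR)
  have h2 := pairing_gen hR hE htop h1.part h1.ord (b := b) (fun u => ?_) (w := fun _ => 1)
    (fun a _ => by simpa using h1.bd a)
  · unfold ud
    simpa using h2
  · rw [h1' _ ?_, h0']
    have := addOrderOf_nsmul_eq_zero (iota R (u : ZMod d) : ZMod m)
    rw [addOrderOf_iota_unit hR u, nsmul_eq_mul] at this
    exact this

end Base

section TopP

variable {m R d : ℕ} [NeZero m] [NeZero d] {q : ℕ} {x0 x : ZMod m → ℤ}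

/-- the bound `n` for the pairings with bounded functions -/
def HP (q R d : ℕ) [NeZero d] (x : ZMod m → ℤ) (n : ℤ) : Prop :=
  ∀ L : List ℕ, (∀ ℓ : ℕ, ℓ.Prime → ℓ ∣ d → ℓ = q ∨ ℓ ∈ L) →
    ∀ b : (ZMod d)ˣ → ℚ, (∀ w, b (-1 * w) = - b w) → (∀ w, |b w| ≤ 1) →
    (∀ K' ∈ L.map (KL d), ∀ u, ∑ κ ∈ KF K', b (u * κ) = 0) →
    |∑ w, (FF R d x w : ℚ) * b w| ≤ n

/-- the bound `n` for the pairings with bounded functions whose differences in the direction two are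
bounded -/
def HP2 (q R d : ℕ) [NeZero d] (hd : Odd d) (x : ZMod m → ℤ) (n : ℤ) : Prop :=
  ∀ L : List ℕ, (∀ ℓ : ℕ, ℓ.Prime → ℓ ∣ d → ℓ = q ∨ ℓ ∈ L) →
    ∀ b : (ZMod d)ˣ → ℚ, (∀ w, b (-1 * w) = - b w) → (∀ w, |b w| ≤ 1) →
    (∀ w, |b (u2 hd * w) - b w| ≤ 1) →
    (∀ K' ∈ L.map (KL d), ∀ u, ∑ κ ∈ KF K', b (u * κ) = 0) →
    |∑ w, (FF R d x w : ℚ) * b w| ≤ n

lemma hp_nd (h : Top q x0 R d x) : HP q R d x (nd d x0) := by
  intro L hL b hodd hb1 hb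
  refine pairing_d h.hq h.hR h.st.eqv h.htop (fun u => ?_) hb1 fun ℓ hℓ hℓq hℓd u => ?_
  · have := hodd u
    rwa [neg_one_mul] at this
  · rcases hL ℓ hℓ hℓd with h1 | h1
    · exact absurd h1 hℓq
    · exact hb _ (List.mem_map.mpr ⟨ℓ, h1, rfl⟩) u

lemma hp_ud (h : Top q x0 R d x) (hd : Odd d) : HP2 q R d hd x (ud d x0) := by
  intro L hL b hodd hb1 hb2 hb
  refine pairing_two h.hq h.hR hd h.st.eqv h.htop (fun u => ?_) hb1 hb2
    fun ℓ hℓ hℓq hℓd u => ?_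
  · have := hodd u
    rwa [neg_one_mul] at this
  · rcases hL ℓ hℓ hℓd with h1 | h1
    · exact absurd h1 hℓq
    · exact hb _ (List.mem_map.mpr ⟨ℓ, h1, rfl⟩) u

lemma HP.mono {n n' : ℤ} (h : HP q R d x n) (hn : n ≤ n') : HP q R d x n' := by
  intro L hL b h1 h2 h3
  refine (h L hL b h1 h2 h3).trans ?_
  exact_mod_cast hn

end TopP

end Pool.Agent.Q59.S6
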