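import Pool.Agent.Q59.S6.Base2
import Pool.Agent.Q59.RL.Coh

/-!
# Boxes with bounded differences in the direction two
-/

namespace Pool.Agent.Q59.S6

open Finset Pool.Agent.H916R2 Pool.Agent.Q59.FS Pool.Agent.Q59.PL

variable {G : Type*} [CommGroup G] [Fintype G]

omit [Fintype G] in
lemma LB_add {P : List (Subgroup G)} {A B : G → ℤ} (hA : LB P A) (hB : LB P B) :
    LB P (fun v => A v + B v) := by
  have h1 := hA.sub ((Pool.Agent.Q59.RL.LB_zero P).sub hB)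
  have e : (fun v => A v + B v) = fun v => A v - (0 - B v) := by
    funext v; ring
  rw [e]
  exact h1

/-- the conditions on the support of a box -/
structure PM (K : Subgroup G) (z t : G) (b : G → ℤ) : Prop where
  one : ∀ w, ∀ κ ∈ K, b w ≠ 0 → b (z * w * κ) = 0
  two : ∀ w, ∀ κ ∈ K, b w ≠ 0 → b (t * w * κ) = 0
  thr : ∀ w, ∀ κ ∈ K, b w ≠ 0 → b (z * t * w * κ) ≠ 0 → b (z * t * w * κ) = - b w

section Key

variable {K : Subgroup G} {P : List (Subgroup G)} {z t u : G} {F b : G → ℤ}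

lemma bb_eq (hI : K ⊓ jn P = ⊥) (hb : IsBox P u F b) {w κ : G} (hκ : κ ∈ K) (h1 : b (w * κ) ≠ 0) :
    bb K b w = b (w * κ) := by
  unfold bb
  refine sum_eq_single κ ?_ (fun h3 => absurd (mem_KF.mpr hκ) h3)
  intro κ' hκ' hne
  by_contra h3
  apply hne
  have h4 := hb.supp _ h1
  have h5 := hb.supp _ h3
  have h6 : κ' * κ⁻¹ ∈ K ⊓ jn P := by
    refine ⟨K.mul_mem (mem_KF.mp hκ') (K.inv_mem hκ), ?_⟩
    have h7 := (jn P).mul_mem h5 ((jn P).inv_mem h4)
    have e : u⁻¹ * (w * κ') * (u⁻¹ * (w * κ))⁻¹ = κ' * κ⁻¹ := by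
      rw [mul_inv_eq_iff_eq_mul]
      calc u⁻¹ * (w * κ') = u⁻¹ * (w * κ') * (κ * κ⁻¹) := by rw [mul_inv_cancel, mul_one]
        _ = _ := by simp only [mul_comm, mul_left_comm, mul_assoc]
    rwa [e] at h7
  rw [hI, Subgroup.mem_bot] at h6
  exact mul_inv_eq_one.mp h6

lemma PM.bb_one (h : PM K z t b) {w : G} (hw : bb K b w ≠ 0) : bb K b (z * w) = 0 := by
  by_contra h1
  obtain ⟨κ, hκ, h2⟩ := bb_exists hw
  obtain ⟨κ', hκ', h3⟩ := bb_exists h1
  apply h3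
  have h4 := h.one (w * κ) (κ⁻¹ * κ') (K.mul_mem (K.inv_mem hκ) hκ') h2
  have e : z * (w * κ) * (κ⁻¹ * κ') = z * w * κ' := by
    rw [← mul_assoc z, mul_assoc (z * w), mul_inv_cancel_left]
  rwa [e] at h4

lemma PM.bb_two (h : PM K z t b) {w : G} (hw : bb K b w ≠ 0) : bb K b (t * w) = 0 := by
  by_contra h1
  obtain ⟨κ, hκ, h2⟩ := bb_exists hw
  obtain ⟨κ', hκ', h3⟩ := bb_exists h1
  apply h3
  have h4 := h.two (w * κ) (κ⁻¹ * κ') (K.mul_mem (K.inv_mem hκ) hκ') h2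
  have e : t * (w * κ) * (κ⁻¹ * κ') = t * w * κ' := by
    rw [← mul_assoc t, mul_assoc (t * w), mul_inv_cancel_left]
  rwa [e] at h4

lemma PM.bb_thr (hI : K ⊓ jn P = ⊥) (hb : IsBox P u F b) (h : PM K z t b) {w : G}
    (hw : bb K b w ≠ 0) (hw' : bb K b (z * t * w) ≠ 0) : bb K b (z * t * w) = - bb K b w := by
  obtain ⟨κ, hκ, h2⟩ := bb_exists hw
  obtain ⟨κ', hκ', h3⟩ := bb_exists hw'
  rw [bb_eq hI hb hκ h2, bb_eq hI hb hκ' h3]
  have e : z * t * (w * κ) * (κ⁻¹ * κ') = z * t * w * κ' := by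
    rw [← mul_assoc (z * t), mul_assoc (z * t * w), mul_inv_cancel_left]
  have h4 := h.thr (w * κ) (κ⁻¹ * κ') (K.mul_mem (K.inv_mem hκ) hκ') h2 (by rw [e]; exact h3)
  rwa [e] at h4

/-- **The refined key lemma.** -/
theorem key_two (hI : Ind (K :: P)) (hz : z * z = 1) (hF : ∀ w, F (z * w) = - F w)
    (hrel : ∀ b : G → ℤ, Z0 (K :: P) b → ∑ w, F w * b w = 0) {n : ℤ}
    (hpair : ∀ b : G → ℚ, (∀ w, b (z * w) = - b w) → (∀ w, |b w| ≤ 1) →
      (∀ w, |b (t * w) - b w| ≤ 1) →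
      (∀ K' ∈ P, ∀ u, ∑ κ ∈ KF K', b (u * κ) = 0) → |∑ w, (F w : ℚ) * b w| ≤ n)
    (hb : IsBox P u F b) (hpm : PM K z t b) :
    2 * (Nat.card K : ℤ) ≤ n := by
  have hI1 : K ⊓ jn P = ⊥ := hI.1
  have h1 := bb_sum hb.zero hrel
  have h2 := bb_odd hF (bb K b)
  have hle : ∀ w, |bb K b w - bb K b (z * w)| ≤ 1 := by
    intro w
    by_cases h3 : bb K b w = 0
    · rw [h3, zero_sub, abs_neg]; exact bb_le hI1 hb _
    · rw [hpm.bb_one h3, sub_zero]; exact bb_le hI1 hb _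
  have hzz : ∀ w, z * (z * w) = w := fun w => by rw [← mul_assoc, hz, one_mul]
  have hle2 : ∀ w, |(bb K b (t * w) - bb K b (z * (t * w))) - (bb K b w - bb K b (z * w))| ≤ 1 := by
    intro w
    by_cases h3 : bb K b w = 0
    · by_cases h4 : bb K b (z * w) = 0
      · rw [h3, h4, sub_self, sub_zero]; exact hle _
      · have e1 : bb K b (z * (t * w)) = 0 := by
          have := hpm.bb_two h4
          rwa [mul_left_comm] at this
        have e2 : z * t * (z * w) = t * w := by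
          calc z * t * (z * w) = z * z * (t * w) := by
                simp only [mul_comm, mul_left_comm, mul_assoc]
            _ = _ := by rw [hz, one_mul]
        by_cases h5 : bb K b (t * w) = 0
        · rw [h3, e1, h5]
          simpa using bb_le hI1 hb (z * w)
        · have h6 := PM.bb_thr hI1 hb hpm h4 (by rw [e2]; exact h5)
          rw [e2] at h6
          rw [h3, e1, h6]
          simp
    · have e1 := hpm.bb_one h3
      have e2 := hpm.bb_two h3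
      by_cases h5 : bb K b (z * (t * w)) = 0
      · rw [e1, e2, h5]
        simpa using bb_le hI1 hb w
      · have h6 := PM.bb_thr hI1 hb hpm h3 (by rw [mul_assoc]; exact h5)
        rw [mul_assoc] at h6
        rw [e1, e2, h6]
        simp
  have h3 := hpair (fun w => ((bb K b w - bb K b (z * w) : ℤ) : ℚ)) (by
    intro w
    rw [hzz]
    push_cast; ring) (by
    intro w
    rw [← Int.cast_abs]
    exact_mod_cast hle w) (by
    intro w
    rw [← Int.cast_sub, ← Int.cast_abs]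
    exact_mod_cast hle2 w) (by
    intro K' hK' v
    rw [← Int.cast_sum, sum_sub_distrib, bb_zero hb.zero K' hK' v]
    have : ∑ κ ∈ KF K', bb K b (z * (v * κ)) = 0 := by
      have := bb_zero (K := K) hb.zero K' hK' (z * v)
      rw [← this]
      exact sum_congr rfl fun κ _ => by rw [mul_assoc]
    rw [this]; simp)
  have h4 : ∑ w, (F w : ℚ) * ((bb K b w - bb K b (z * w) : ℤ) : ℚ) =
      ((2 * (Nat.card K * ∑ w, F w * b w) : ℤ) : ℚ) := by
    rw [← h1, ← h2]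
    push_cast
    rfl
  rw [h4, ← Int.cast_abs, abs_mul, abs_mul] at h3
  have h5 : |(2 : ℤ)| * (|(Nat.card K : ℤ)| * |∑ w, F w * b w|) ≤ n := by exact_mod_cast h3
  have h6 : 1 ≤ |∑ w, F w * b w| := Int.one_le_abs hb.ne
  rw [Nat.abs_cast, abs_of_pos (by norm_num : (0 : ℤ) < 2)] at h5
  have h7 : (0 : ℤ) ≤ Nat.card K := by positivity
  nlinarith

end Key

section Select

variable {K K0 : Subgroup G} {P : List (Subgroup G)} {z t u : G} {F b : G → ℤ}

lemma ratio_mem {u w x a b κ : G} {S T : Subgroup G} (hST : T ≤ S) (hκ : κ ∈ S)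
    (h3 : u⁻¹ * (w * a⁻¹) ∈ T) (h4 : u⁻¹ * (x * w * κ * b⁻¹) ∈ T) : x * (a * b⁻¹) ∈ S := by
  have h5 := S.mul_mem (S.mul_mem (hST h4) (S.inv_mem (hST h3))) (S.inv_mem hκ)
  have e : u⁻¹ * (x * w * κ * b⁻¹) * (u⁻¹ * (w * a⁻¹))⁻¹ * κ⁻¹ = x * (a * b⁻¹) := by
    rw [mul_inv_eq_iff_eq_mul, mul_inv_eq_iff_eq_mul]
    calc u⁻¹ * (x * w * κ * b⁻¹) = u⁻¹ * (x * w * κ * b⁻¹) * (a * a⁻¹) := by
          rw [mul_inv_cancel, mul_one]
      _ = _ := by simp only [mul_comm, mul_left_comm, mul_assoc]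
  rwa [e] at h5

/-- a box whose opposite and doubles are far away -/
lemma pm_of_not_mem (hb : IsBox P u F b) (h1 : z ∉ K ⊔ jn P) (h2 : t ∉ K ⊔ jn P)
    (h3 : z * t ∉ K ⊔ jn P) : PM K z t b := by
  have key : ∀ x, x ∉ K ⊔ jn P → ∀ w, ∀ κ ∈ K, b w ≠ 0 → b (x * w * κ) = 0 := by
    intro x hx w κ hκ hw
    by_contra h0
    apply hx
    have h4 := hb.supp _ hw
    have h5 := hb.supp _ h0
    have h6 := ratio_mem (u := u) (w := w) (x := x) (a := 1) (b := 1) (κ := κ)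
      (S := K ⊔ jn P) (T := jn P) le_sup_right ((le_sup_left : K ≤ K ⊔ jn P) hκ)
      (by simpa using h4) (by simpa using h5)
    simpa using h6
  exact ⟨key z h1, key t h2, fun w κ hκ hw h0 => absurd (key _ h3 w κ hκ hw) h0⟩

/-- the conditions on a ratio -/
structure Rat (K : Subgroup G) (P : List (Subgroup G)) (z t a : G) : Prop where
  c1 : z * a ∉ K ⊔ jn P
  c2 : t * a ∉ K ⊔ jn P
  c3 : ∀ κ ∈ K, z * t * a * κ ∈ jn P → z * t * a * κ = 1

/-- **Selection of a box.** -/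
theorem exists_box_pm (hP : Ind (K0 :: P)) (Al : G → Prop)
    (hz : z ∉ K ⊔ jn P) (ht : t ∉ K ⊔ jn P) (hzt : z * t ∉ K ⊔ jn P)
    (hAl : ∀ a ∈ K0, Al a → Rat K P z t a ∧ Rat K P z t a⁻¹)
    (hgen : ∀ E : G → Prop, E 1 → (∀ a ∈ K0, Al a → E a) →
      (∀ a ∈ K0, ∀ b ∈ K0, E a → E b → E (a * b)) → ∀ r ∈ K0, E r)
    (h : ¬ LB (K0 :: P) (TT u F)) : ∃ b, IsBox (K0 :: P) u F b ∧ PM K z t b := by
  classical
  -- a good pair
  have h1 : ∃ κ ∈ K0, ∃ κ' ∈ K0, Al (κ * κ'⁻¹) ∧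
      ¬ LB P (fun v => TT u F (v * κ) - TT u F (v * κ')) := by
    by_contra hcon
    push Not at hcon
    apply h
    have hE := hgen (fun r => ∀ κ ∈ K0, LB P (fun v => TT u F (v * (κ * r)) - TT u F (v * κ)))
      (by
        intro κ _
        simp only [mul_one, sub_self]
        exact Pool.Agent.Q59.RL.LB_zero P) (by
        intro a ha hal κ hκ
        refine hcon (κ * a) (K0.mul_mem hκ ha) κ hκ ?_
        rwa [mul_comm κ a, mul_inv_cancel_right]) (by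
        intro a ha b hb h2 h3 κ hκ
        have h4 := h3 (κ * a) (K0.mul_mem hκ ha)
        have h5 := h2 κ hκ
        have h6 := LB_add h4 h5
        have e : (fun v => TT u F (v * (κ * (a * b))) - TT u F (v * κ)) = fun v =>
            (TT u F (v * (κ * a * b)) - TT u F (v * (κ * a))) +
              (TT u F (v * (κ * a)) - TT u F (v * κ)) := by
          funext v
          rw [mul_assoc κ a b]
          ring
        rw [e]
        exact h6)
    intro κ hκ κ' hκ'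
    have h2 := hE (κ'⁻¹ * κ) (K0.mul_mem (K0.inv_mem hκ') hκ) κ' hκ'
    rwa [mul_inv_cancel_left] at h2
  obtain ⟨κ, hκ, κ', hκ', hal, h2⟩ := h1
  rw [TT_slice] at h2
  obtain ⟨b, hb⟩ := exists_box hP.2 h2
  refine ⟨_, hb.cons hP.1 hκ hκ', ?_⟩
  obtain ⟨hr1, hr2⟩ := hAl _ (K0.mul_mem hκ (K0.inv_mem hκ')) hal
  have einv : (κ * κ'⁻¹)⁻¹ = κ' * κ⁻¹ := by rw [mul_inv, inv_inv, mul_comm]
  rw [einv] at hr2
  have hne : κ ≠ κ' := by
    rintro rfl
    apply hb.ne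
    simp
  -- the supports
  have hsup : ∀ w, b (w * κ⁻¹) - b (w * κ'⁻¹) ≠ 0 →
      (b (w * κ⁻¹) ≠ 0 ∧ b (w * κ'⁻¹) = 0) ∨ (b (w * κ⁻¹) = 0 ∧ b (w * κ'⁻¹) ≠ 0) := by
    intro w hw
    by_cases h3 : b (w * κ⁻¹) = 0
    · right
      refine ⟨h3, fun h4 => hw ?_⟩
      rw [h3, h4, sub_zero]
    · left
      refine ⟨h3, ?_⟩
      by_contra h4
      apply hne
      have h5 := hb.supp _ h3
      have h6 := hb.supp _ h4
      have h7 : κ' * κ⁻¹ ∈ K0 ⊓ jn P := by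
        refine ⟨K0.mul_mem hκ' (K0.inv_mem hκ), ?_⟩
        have h8 := (jn P).mul_mem h5 ((jn P).inv_mem h6)
        have e : u⁻¹ * (w * κ⁻¹) * (u⁻¹ * (w * κ'⁻¹))⁻¹ = κ' * κ⁻¹ := by
          rw [mul_inv_eq_iff_eq_mul]
          calc u⁻¹ * (w * κ⁻¹) = u⁻¹ * (w * κ⁻¹) * (κ' * κ'⁻¹) := by
                rw [mul_inv_cancel, mul_one]
            _ = _ := by simp only [mul_comm, mul_left_comm, mul_assoc]
        rwa [e] at h8
      rw [hP.1, Subgroup.mem_bot] at h7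
      exact (mul_inv_eq_one.mp h7).symm
  have hPS : jn P ≤ K ⊔ jn P := le_sup_right
  have hKS : K ≤ K ⊔ jn P := le_sup_left
  have key : ∀ x w k a c, k ∈ K → b (w * a⁻¹) ≠ 0 → b (x * w * k * c⁻¹) ≠ 0 →
      x * (a * c⁻¹) ∈ K ⊔ jn P := fun x w k a c hk h3 h4 =>
    ratio_mem hPS (hKS hk) (hb.supp _ h3) (hb.supp _ h4)
  have hself : ∀ x, x ∉ K ⊔ jn P → ∀ a : G, x * (a * a⁻¹) ∉ K ⊔ jn P := by
    intro x hx a
    rwa [mul_inv_cancel, mul_one]
  refine ⟨?_, ?_, ?_⟩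
  · intro w k hk hw
    by_contra hcon
    rcases hsup w hw with ⟨h3, -⟩ | ⟨-, h3⟩ <;> rcases hsup _ hcon with ⟨h4, -⟩ | ⟨-, h4⟩
    · exact hself z hz κ (key _ _ _ _ _ hk h3 h4)
    · exact hr1.c1 (key _ _ _ _ _ hk h3 h4)
    · exact hr2.c1 (key _ _ _ _ _ hk h3 h4)
    · exact hself z hz κ' (key _ _ _ _ _ hk h3 h4)
  · intro w k hk hw
    by_contra hcon
    rcases hsup w hw with ⟨h3, -⟩ | ⟨-, h3⟩ <;> rcases hsup _ hcon with ⟨h4, -⟩ | ⟨-, h4⟩
    · exact hself t ht κ (key _ _ _ _ _ hk h3 h4)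
    · exact hr1.c2 (key _ _ _ _ _ hk h3 h4)
    · exact hr2.c2 (key _ _ _ _ _ hk h3 h4)
    · exact hself t ht κ' (key _ _ _ _ _ hk h3 h4)
  · intro w k hk hw hcon
    -- the elements of `jn P`
    have key2 : ∀ a c : G, Rat K P z t (a * c⁻¹) → b (w * a⁻¹) ≠ 0 →
        b (z * t * w * k * c⁻¹) ≠ 0 → b (z * t * w * k * c⁻¹) = b (w * a⁻¹) := by
      intro a c hrat h3 h4
      have h5 := hb.supp _ h3
      have h6 := hb.supp _ h4
      have h7 := (jn P).mul_mem h6 ((jn P).inv_mem h5)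
      have e : u⁻¹ * (z * t * w * k * c⁻¹) * (u⁻¹ * (w * a⁻¹))⁻¹ = z * t * (a * c⁻¹) * k := by
        rw [mul_inv_eq_iff_eq_mul]
        calc u⁻¹ * (z * t * w * k * c⁻¹) = u⁻¹ * (z * t * w * k * c⁻¹) * (a * a⁻¹) := by
              rw [mul_inv_cancel, mul_one]
          _ = _ := by simp only [mul_comm, mul_left_comm, mul_assoc]
      rw [e] at h7
      have h8 := hrat.c3 k hk h7
      congr 1
      calc z * t * w * k * c⁻¹ = z * t * w * k * c⁻¹ * (a * a⁻¹) := by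
            rw [mul_inv_cancel, mul_one]
        _ = (z * t * (a * c⁻¹) * k) * (w * a⁻¹) := by
            simp only [mul_comm, mul_left_comm, mul_assoc]
        _ = w * a⁻¹ := by rw [h8, one_mul]
    rcases hsup w hw with ⟨h3, h3'⟩ | ⟨h3', h3⟩ <;>
      rcases hsup _ hcon with ⟨h4, h4'⟩ | ⟨h4', h4⟩
    · exact absurd (key _ _ _ _ _ hk h3 h4) (hself _ hzt κ)
    · rw [h3', h4', key2 _ _ hr1 h3 h4]; ring
    · rw [h3', h4', key2 _ _ hr2 h3 h4]; ring
    · exact absurd (key _ _ _ _ _ hk h3 h4) (hself _ hzt κ')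

end Select

end Pool.Agent.Q59.S6
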