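import Pool.Agent.Q59.S6.Exo4

/-!
# Peeling
-/

namespace Pool.Agent.Q59.S6

open Finset Pool.Agent.H916R2 Pool.Agent.Q59.FS Pool.Agent.Q59.PL Pool.Agent.Y2.Cv

section Dom

variable {m : ℕ} [NeZero m]

/-- no larger in the orders divisible by a prime which is at least five -/
def Dom5 (y x : ZMod m → ℤ) : Prop :=
  ∀ p : ℕ, p.Prime → 5 ≤ p → ∀ a, p ∣ addOrderOf a → |od y a| ≤ |od x a|

omit [NeZero m] in
lemma Dom5.trans {x y z : ZMod m → ℤ} (h : Dom5 z y) (h' : Dom5 y x) : Dom5 z x :=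
  fun p hp hp3 a ha => (h p hp hp3 a ha).trans (h' p hp hp3 a ha)

lemma Dom5.nd_le {x y : ZMod m → ℤ} (h : Dom5 y x) {q d : ℕ} (hq : q.Prime) (hq5 : 5 ≤ q)
    (hqd : q ∣ d) : nd d y ≤ nd d x := by
  unfold nd
  refine sum_le_sum fun a ha => ?_
  exact mul_le_mul_of_nonneg_left (h q hq hq5 a (hqd.trans (mem_filter.mp ha).2)) (wo_pos _).le

lemma Dom5.ud_le {x y : ZMod m → ℤ} (h : Dom5 y x) {q d : ℕ} (hq : q.Prime) (hq5 : 5 ≤ q)
    (hqd : q ∣ d) : ud d y ≤ ud d x := by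
  unfold ud
  exact sum_le_sum fun a ha => h q hq hq5 a (hqd.trans (mem_filter.mp ha).2)

lemma nd_congr {x y : ZMod m → ℤ} {d : ℕ} (h : ∀ a, d ∣ addOrderOf a → od y a = od x a) :
    nd d y = nd d x := by
  unfold nd
  exact sum_congr rfl fun a ha => by rw [h a (mem_filter.mp ha).2]

end Dom

section Peel

variable {m : ℕ} [NeZero m] {Q : Type} [AddCommGroup Q] {C : ZMod m → Q}

/-- the prime `q` -/
theorem peel_q (hm2 : 2 ∣ m) (hC : OddDist C)
    (hb : ∀ s, SurfaceOrCurveProduct m s → (s.map C).sum = 0) {q : ℕ} (hq : q.Prime) (hq5 : 5 ≤ q)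
    {x0 : ZMod m → ℤ} (hrel : Rel x0)
    (hstep : ∀ d : ℕ, 4 * q < d → ∀ [NeZero d], ∀ R x, Top q x0 R d x → ∃ y, St q x0 (d - 1) y)
    (h4 : nd (4 * q) x0 < (q : ℤ) - 1 ∨ (¬ 4 * q ∣ m ∨ q ∈ [11, 13]))
    (h3 : nd (3 * q) x0 < (q : ℤ) - 1 ∨ (¬ 3 * q ∣ m ∨ q ∈ [11, 13, 17, 19])) :
    ∃ y, Rel y ∧ ∑ a, x0 a • C a = ∑ a, y a • C a ∧
      (∀ a, q ∣ addOrderOf a → od y a = 0) ∧ Dom5 y x0 := by
  have hq2 : q ≠ 2 := by omega
  have hq0 : 0 < q := by omega
  obtain ⟨x, hx⟩ := down (D0 := 4 * q) (D1 := m) (fun d hd _ _ R x h => hstep d hd R x h)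
    hq hq2 hrel m le_rfl ⟨x0, St.init q x0⟩
  have hsub : ∀ (u T : ZMod m → ℤ) (v : ℤ), ∑ a, T a • C a = 0 →
      ∑ a, (u a - v * T a) • C a = ∑ a, u a • C a := by
    intro u T v hT
    simp only [sub_smul, sum_sub_distrib, mul_smul]
    rw [← smul_sum, hT, smul_zero, sub_zero]
  have hod : ∀ (u T : ZMod m → ℤ) (v : ℤ) (a : ZMod m),
      od (fun a => u a - v * T a) a = od u a - v * od T a := fun u T v a => by
    unfold od; ring
  -- the order `4 * q`
  obtain ⟨x1, hrel1, hs1, hod1, y1, hy1⟩ : ∃ x1, Rel x1 ∧ ∑ a, x1 a • C a = ∑ a, x0 a • C a ∧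
      (∀ a, ¬ addOrderOf a ∣ 4 * q → od x1 a = od x0 a) ∧ ∃ y, St q x1 (4 * q - 1) y := by
    rcases h4 with h4 | h4
    · refine ⟨x0, hrel, rfl, fun _ _ => rfl, ?_⟩
      exact down (D0 := 4 * q - 1) (D1 := 4 * q) (fun d hd1 hd2 _ R x h => by
        have hd : d = 4 * q := by omega
        subst hd
        exact step_simple' h h4) hq hq2 hrel (4 * q) le_rfl ⟨x, hx⟩
    · obtain ⟨T, hT, hTC⟩ := exists_ex4 h4 hC hb
      obtain ⟨v, y, hy⟩ := stage_four hq hq5 hrel hx hT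
      refine ⟨_, rel_sub hrel hT.rel v, hsub x0 T v hTC, fun a ha => ?_, y, hy⟩
      have h5 : od T a = 0 := by
        by_contra h0
        exact ha (hT.supp a h0)
      rw [hod, h5, mul_zero, sub_zero]
  -- the order `3 * q`
  obtain ⟨x2, hrel2, hs2, hod2, y2, hy2⟩ : ∃ x2, Rel x2 ∧ ∑ a, x2 a • C a = ∑ a, x1 a • C a ∧
      (∀ a, ¬ addOrderOf a ∣ 3 * q → od x2 a = od x1 a) ∧ ∃ y, St q x2 (3 * q - 1) y := by
    rcases h3 with h3 | h3
    · refine ⟨x1, hrel1, rfl, fun _ _ => rfl, ?_⟩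
      have h5 : nd (3 * q) x1 < (q : ℤ) - 1 := by
        rw [nd_congr (fun a ha => hod1 a fun h0 => ?_)]
        · exact h3
        · have h6 := (Nat.Prime.dvd_mul Nat.prime_three).mp ((Dvd.intro q rfl).trans (ha.trans h0))
          rcases h6 with h6 | h6
          · exact absurd h6 (by norm_num)
          · have := (Nat.prime_dvd_prime_iff_eq Nat.prime_three hq).mp h6
            omega
      exact down (D0 := 3 * q - 1) (D1 := 4 * q - 1) (fun d hd1 hd2 _ R x h => by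
        obtain ⟨e, he⟩ := h.hqd
        have he3 : e = 3 := by
          have h7 : e < 4 := by
            by_contra hcon
            push Not at hcon
            have : q * 4 ≤ q * e := Nat.mul_le_mul_left q hcon
            omega
          have h8 : 2 < e := by
            by_contra hcon
            push Not at hcon
            have : q * e ≤ q * 2 := Nat.mul_le_mul_left q hcon
            omega
          omega
        have hd : d = 3 * q := by rw [he, he3]; ring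
        subst hd
        exact step_simple' h h5) hq hq2 hrel1 (4 * q - 1) le_rfl ⟨y1, hy1⟩
    · obtain ⟨T, hT, hTC⟩ := exists_ex3 hm2 h3 hC hb
      obtain ⟨v, y, hy⟩ := stage_three hq hq5 hrel1 hy1 hT
      refine ⟨_, rel_sub hrel1 hT.rel v, hsub x1 T v hTC, fun a ha => ?_, y, hy⟩
      have h5 : od T a = 0 := by
        by_contra h0
        exact ha (hT.supp a h0)
      rw [hod, h5, mul_zero, sub_zero]
  obtain ⟨y, e1, e2, e3⟩ := fin_small hq hq2 hrel2 ⟨y2, hy2⟩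
  refine ⟨y, e1.rel hrel2, ?_, e3, ?_⟩
  · rw [sum_eqv hC e1, hs2, hs1]
  · intro p hp hp5 a ha
    by_cases hqa : q ∣ addOrderOf a
    · rw [e3 a hqa, abs_zero]; exact abs_nonneg _
    · have hno : ∀ c : ℕ, 0 < c → c < 5 → ¬ addOrderOf a ∣ c * q := by
        intro c hc0 hc5 h0
        rcases hp.dvd_mul.mp (ha.trans h0) with h1 | h1
        · have := Nat.le_of_dvd hc0 h1
          omega
        · rw [← (Nat.prime_dvd_prime_iff_eq hp hq).mp h1] at hqa
          exact hqa ha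
      rw [e2 a hqa, hod2 a (hno 3 (by norm_num) (by norm_num)),
        hod1 a (hno 4 (by norm_num) (by norm_num))]

end Peel

end Pool.Agent.Q59.S6
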