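import Pool.Agent.Q59.S6.Four
import Pool.Agent.Q59.PL.Core

/-!
# The exotic relations of the levels 44 and 52
-/

namespace Pool.Agent.Q59.S6

open Finset Pool.Agent.H916R2 Pool.Agent.Q59.FS Pool.Agent.Q59.PL Pool.Agent.Y2.Cv

/-- the conditions on a list of natural numbers -/
def ChL (n ℓ : ℕ) (L : List ℕ) : Prop :=
  (∀ a ∈ L, a % n ≠ 0) ∧ L.length % 2 = 0 ∧ L.sum % n = 0 ∧
    (∀ t ∈ List.range n, Nat.Coprime t n → 2 * (L.map fun a => (t * a) % n).sum = n * L.length) ∧
    (∀ κ ∈ List.range n, (ℓ * κ) % n = ℓ → Nat.Coprime κ n → κ ≠ 1 →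
      L.count κ = 0 ∧ L.count (n - κ) = 0) ∧
    L.count 1 = 1 ∧ L.count (n - 1) = 0 ∧ (∀ a ∈ L, a < n)

instance (n ℓ : ℕ) (L : List ℕ) : Decidable (ChL n ℓ L) := by unfold ChL; infer_instance

/-- as a multiset of residues -/
def LM (n : ℕ) (L : List ℕ) : Multiset (ZMod n) := (L.map (fun a : ℕ => (a : ZMod n)) : List (ZMod n))

section

variable {n ℓ : ℕ} {L : List ℕ}

lemma LM_hodge (hL : ChL n ℓ L) [NeZero n] : IsHodge n (LM n L) := by
  obtain ⟨h1, h2, h3, h4, -⟩ := hL
  refine ⟨?_, ?_, ?_, ?_⟩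
  · intro h0
    simp only [LM, Multiset.mem_coe, List.mem_map] at h0
    obtain ⟨a, ha, h0⟩ := h0
    rw [ZMod.natCast_eq_zero_iff] at h0
    exact h1 a ha (Nat.mod_eq_zero_of_dvd h0)
  · rw [LM, Multiset.coe_card, List.length_map]
    exact Nat.even_iff.mpr h2
  · rw [LM, Multiset.sum_coe]
    have h5 : (L.map (fun a : ℕ => (a : ZMod n))).sum = ((L.sum : ℕ) : ZMod n) := by
      rw [Nat.cast_list_sum]
    rw [h5, ZMod.natCast_eq_zero_iff]
    exact Nat.dvd_of_mod_eq_zero h3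
  · intro t
    have hco := ZMod.val_coe_unit_coprime t
    have hlt := ZMod.val_lt (t : ZMod n)
    have h5 := h4 (t : ZMod n).val (List.mem_range.mpr hlt) hco
    rw [LM, Multiset.map_coe, Multiset.sum_coe, List.map_map, Multiset.coe_card, List.length_map]
    rw [← h5]
    congr 2
    refine List.map_congr_left fun a _ => ?_
    simp only [Function.comp_apply]
    have e : (t : ZMod n) * (a : ZMod n) = (((t : ZMod n).val * a : ℕ) : ZMod n) := by
      push_cast
      rw [ZMod.natCast_zmod_val]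
    rw [e, ZMod.val_natCast]

lemma count_LM (hL : ChL n ℓ L) [NeZero n] (z : ZMod n) : (LM n L).count z = L.count z.val := by
  obtain ⟨-, -, -, -, -, -, -, h8⟩ := hL
  unfold LM
  rw [Multiset.coe_count]
  have h1 : ∀ L : List ℕ, (∀ a ∈ L, a < n) →
      (L.map (fun a : ℕ => (a : ZMod n))).count z = L.count z.val := by
    intro L
    induction L with
    | nil => intro _; rfl
    | cons a L ih =>
      intro hL
      rw [List.map_cons, List.count_cons, List.count_cons, ih fun b hb => hL b (List.mem_cons_of_mem _ hb)]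
      have ha := hL a (List.mem_cons_self ..)
      congr 1
      have : ((a : ZMod n) == z) = (a == z.val) := by
        rw [Bool.eq_iff_iff, beq_iff_eq, beq_iff_eq]
        constructor
        · rintro rfl
          rw [ZMod.val_natCast, Nat.mod_eq_of_lt ha]
        · intro h
          rw [h, ZMod.natCast_zmod_val]
      rw [this]
  exact h1 _ h8

end

section T

variable {m : ℕ} [NeZero m]

/-- the exotic relation as a function -/
noncomputable def TL (m n : ℕ) (L : List ℕ) (a : ZMod m) : ℤ :=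
  (((LM n L).map (iota (m / n) : ZMod n → ZMod m)).count a : ℕ)

variable {n ℓ : ℕ} [NeZero n] {L : List ℕ}

lemma TL_rel (hL : ChL n ℓ L) {R : ℕ} (hR : R * n = m) : Rel (TL m n L) := by
  have e : m / n = R := by rw [← hR]; exact Nat.mul_div_cancel _ (NeZero.pos n)
  have h1 : IsHodge m ((LM n L).map (iota (m / n) : ZMod n → ZMod m)) := by
    rw [e]
    exact (LM_hodge hL).iota hR
  exact h1.rel

omit [NeZero m] in
lemma TL_supp {R : ℕ} (hR : R * n = m) {a : ZMod m}
    (ha : od (TL m n L) a ≠ 0) : addOrderOf a ∣ n := by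
  have e : m / n = R := by rw [← hR]; exact Nat.mul_div_cancel _ (NeZero.pos n)
  have key : ∀ b : ZMod m, TL m n L b ≠ 0 → addOrderOf b ∣ n := by
    intro b hb
    have h1 : b ∈ (LM n L).map (iota (m / n) : ZMod n → ZMod m) := by
      rw [← Multiset.count_pos]
      unfold TL at hb
      exact Nat.pos_of_ne_zero (by exact_mod_cast hb)
    obtain ⟨z, _, rfl⟩ := Multiset.mem_map.mp h1
    rw [e, addOrderOf_dvd_iff_nsmul_eq_zero, nsmul_eq_mul]
    have h2 : ((n : ℕ) : ZMod m) * iota R z = ((n * (R * z.val) : ℕ) : ZMod m) := by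
      unfold iota
      push_cast; ring
    rw [h2, ZMod.natCast_eq_zero_iff]
    exact ⟨z.val, by rw [← hR]; ring⟩
  by_contra hcon
  apply ha
  have h1 : TL m n L a = 0 := by
    by_contra h
    exact hcon (key a h)
  have h2 : TL m n L (-a) = 0 := by
    by_contra h
    have := key _ h
    rw [addOrderOf_neg] at this
    exact hcon this
  unfold od
  rw [h1, h2, sub_zero]

lemma TL_iota (hL : ChL n ℓ L) {R : ℕ} (hR : R * n = m) (z : ZMod n) :
    TL m n L (iota R z) = L.count z.val := by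
  have e : m / n = R := by rw [← hR]; exact Nat.mul_div_cancel _ (NeZero.pos n)
  unfold TL
  rw [e, Multiset.count_map_eq_count' _ _ (fun _ _ hab => iota_inj hR hab), count_LM hL]

theorem TL_key (hL : ChL n ℓ L) (hℓn : ℓ < n) (hn : 3 ≤ n) (R : ℕ) (hR : R * n = m)
    (κ : (ZMod n)ˣ) (hκ : κ ∈ KL n ℓ) (hκ1 : κ ≠ 1) :
    FF R n (TL m n L) 1 - FF R n (TL m n L) κ = 1 := by
  obtain ⟨-, -, -, -, h5, h6, h7, -⟩ := id hL
  have : Fact (1 < n) := ⟨by omega⟩
  have hF : ∀ u : (ZMod n)ˣ, FF R n (TL m n L) u =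
      (L.count (u : ZMod n).val : ℤ) - L.count (n - (u : ZMod n).val) := by
    intro u
    have hu0 : (u : ZMod n) ≠ 0 := u.ne_zero
    unfold FF od
    rw [← iota_neg hR, TL_iota hL hR, TL_iota hL hR, ZMod.neg_val, if_neg hu0]
  have hκv := ZMod.val_lt (κ : ZMod n)
  have h8 := h5 (κ : ZMod n).val (List.mem_range.mpr hκv) (by
      rw [mem_KL] at hκ
      have h9 : ((ℓ * (κ : ZMod n).val : ℕ) : ZMod n) = ((ℓ : ℕ) : ZMod n) := by
        push_cast
        rw [ZMod.natCast_zmod_val]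
        exact_mod_cast hκ
      rw [ZMod.natCast_eq_natCast_iff'] at h9
      rw [h9]
      exact Nat.mod_eq_of_lt hℓn) (ZMod.val_coe_unit_coprime κ) (by
      intro h0
      apply hκ1
      apply Units.ext
      rw [Units.val_one, ← ZMod.natCast_zmod_val (κ : ZMod n), h0, Nat.cast_one])
  rw [hF, hF, h8.1, h8.2, Units.val_one, ZMod.val_one, h6, h7]
  norm_num

theorem TL_ex {q c : ℕ} (hn : c * q = n) (hL : ChL n ℓ L) (hℓn : ℓ < n) (hn3 : 3 ≤ n) {R : ℕ}
    (hR : R * n = m) : Ex m q c ℓ (TL m n L) := by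
  refine ⟨TL_rel hL hR, fun a ha => hn ▸ TL_supp hR ha, ?_⟩
  intro R' d _ hR' hd κ hκ hκ1
  have hdn : n = d := by rw [← hn, ← hd]; ring
  subst hdn
  exact TL_key hL hℓn hn3 R' hR' κ hκ hκ1

end T

/-- the exotic characters -/
def tau4 (q : ℕ) : List ℕ :=
  if q = 11 then [1, 13, 17, 25, 37, 28, 33, 22] else [1, 17, 21, 29, 41, 45, 28, 26]

lemma chk4 : ∀ q ∈ [11, 13], ChL (4 * q) 2 (tau4 q) := by decide +kernel

section Kill

variable {m : ℕ} [NeZero m] {q : ℕ}

/-- the relations of the order `4 * q` -/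
theorem exists_ex4 (hq : ¬ 4 * q ∣ m ∨ q ∈ [11, 13]) {Q : Type} [AddCommGroup Q] {C : ZMod m → Q}
    (hC : OddDist C) (hb : ∀ s, SurfaceOrCurveProduct m s → (s.map C).sum = 0) :
    ∃ T : ZMod m → ℤ, Ex m q 4 2 T ∧ ∑ a, T a • C a = 0 := by
  by_cases h4 : 4 * q ∣ m
  · have hq' := hq.resolve_left (not_not.mpr h4)
    have hq0 : 0 < 4 * q := by fin_cases hq' <;> norm_num
    have : NeZero (4 * q) := ⟨hq0.ne'⟩
    obtain ⟨R, hR⟩ := h4
    have hR' : R * (4 * q) = m := by rw [hR]; ring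
    have h1 := chk4 q hq'
    have hex := TL_ex (q := q) (c := 4) rfl h1 (by fin_cases hq' <;> norm_num)
      (by fin_cases hq' <;> norm_num) hR'
    refine ⟨_, hex, ?_⟩
    refine kill_good_od (M := 4 * q) hR' (Dvd.dvd.mul_right (by norm_num) q) ?_ hC hb
      hex.supp hex.rel
    have key : ∀ p : ℕ, p.Prime → p ∣ 4 * q → p = 2 ∨ p = 3 ∨ p = q := by
      intro p hp hpd
      have hqp : q.Prime := by fin_cases hq' <;> norm_num
      rcases hp.dvd_mul.mp hpd with h1 | h1
      · exact Or.inl ((Nat.prime_dvd_prime_iff_eq hp Nat.prime_two).mp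
          (hp.dvd_of_dvd_pow (show p ∣ 2 ^ 2 from h1)))
      · exact Or.inr (Or.inr ((Nat.prime_dvd_prime_iff_eq hp hqp).mp h1))
    fin_cases hq'
    · exact Or.inr (Or.inr (Or.inr (Or.inl key)))
    · exact Or.inr (Or.inr (Or.inr (Or.inr (Or.inl key))))
  · refine ⟨fun _ => 0, ⟨?_, ?_, ?_⟩, ?_⟩
    · intro t
      simp
    · intro a ha
      exact absurd (by unfold od; ring) ha
    · intro R d _ h1 h2
      exfalso
      apply h4
      rw [← h1, ← h2]
      exact ⟨R, by ring⟩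
    · simp

/-- the relations of the order `3 * q` -/
theorem exists_ex3 (hm2 : 2 ∣ m) (hq : ¬ 3 * q ∣ m ∨ q ∈ [11, 13, 17, 19]) {Q : Type}
    [AddCommGroup Q] {C : ZMod m → Q}
    (hC : OddDist C) (hb : ∀ s, SurfaceOrCurveProduct m s → (s.map C).sum = 0) :
    ∃ T : ZMod m → ℤ, Ex m q 3 3 T ∧ ∑ a, T a • C a = 0 := by
  by_cases h4 : 3 * q ∣ m
  · have hq' := hq.resolve_left (not_not.mpr h4)
    obtain ⟨R, hR⟩ := h4
    have hR' : R * (3 * q) = m := by rw [hR]; ring
    exact ⟨Tq m q, ⟨Tq_rel hq' hR', fun a ha => Tq_supp hq' hR' ha,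
      fun R d _ h1 h2 κ h4 h5 => Tq_key hq' R d h1 h2 κ h4 h5⟩, kill_Tq hm2 hq' hR' hC hb⟩
  · refine ⟨fun _ => 0, ⟨?_, ?_, ?_⟩, ?_⟩
    · intro t
      simp
    · intro a ha
      exact absurd (by unfold od; ring) ha
    · intro R d _ h1 h2
      exfalso
      apply h4
      rw [← h1, ← h2]
      exact ⟨R, by ring⟩
    · simp

end Kill

end Pool.Agent.Q59.S6
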