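import Pool.Agent.Q59.S6.Core

/-!
# The main theorems
-/

namespace Pool.Agent.Q59.S6

open Finset Pool.Agent.H916R2 Pool.Agent.Q59.FS Pool.Agent.Q59.PL Pool.Agent.Y2.Cv
open Pool.Agent.Q59.SX (exists_smooth Sm)

section Gen

variable {m : ℕ} [NeZero m] {Q : Type} [AddCommGroup Q] {C : ZMod m → Q}

/-- the condition on the weights for the prime `q` -/
def Cn (m q : ℕ) [NeZero m] (x : ZMod m → ℤ) : Prop :=
  nd q x < 2 * ((q : ℤ) - 1) ∧
    (nd (4 * q) x < (q : ℤ) - 1 ∨ (¬ 4 * q ∣ m ∨ q ∈ [11, 13])) ∧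
    (nd (3 * q) x < (q : ℤ) - 1 ∨ (¬ 3 * q ∣ m ∨ q ∈ [11, 13, 17, 19]))

lemma Cn.mono {q : ℕ} (hq : q.Prime) (hq5 : 5 ≤ q) {x y : ZMod m → ℤ} (h : Cn m q x)
    (hd : Dom5 y x) : Cn m q y := by
  obtain ⟨h1, h2, h3⟩ := h
  exact ⟨(hd.nd_le hq hq5 dvd_rfl).trans_lt h1,
    h2.imp_left fun h => (hd.nd_le hq hq5 (Dvd.intro_left _ rfl)).trans_lt h,
    h3.imp_left fun h => (hd.nd_le hq hq5 (Dvd.intro_left _ rfl)).trans_lt h⟩

/-- one prime -/
theorem peel_gen (hm2 : 2 ∣ m) (hC : OddDist C)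
    (hb : ∀ s, SurfaceOrCurveProduct m s → (s.map C).sum = 0) {q : ℕ} (hq : q.Prime) (hq5 : 5 ≤ q)
    {x0 : ZMod m → ℤ} (hrel : Rel x0) (hc : Cn m q x0) :
    ∃ y, Rel y ∧ ∑ a, x0 a • C a = ∑ a, y a • C a ∧
      (∀ a, q ∣ addOrderOf a → od y a = 0) ∧ Dom5 y x0 := by
  obtain ⟨h1, h4, h3⟩ := hc
  refine peel_q hm2 hC hb hq hq5 hrel (fun d hd _ R x h => ?_) h4 h3
  by_cases hd2 : d % 4 = 2
  · exact h.step_two hd2
  by_cases hd4 : 4 ∣ d
  · refine step_four_gen h hq5 hd4 (by omega) ?_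
    exact (nd_mono h.hqd x0).trans_lt h1
  · exact h.step_odd h1 (by omega) (by omega) (by omega)

/-- several primes -/
theorem peel_gen_list (hm2 : 2 ∣ m) (hC : OddDist C)
    (hb : ∀ s, SurfaceOrCurveProduct m s → (s.map C).sum = 0) :
    ∀ L : List ℕ, (∀ q ∈ L, q.Prime ∧ 5 ≤ q) → ∀ x : ZMod m → ℤ, Rel x →
      (∀ q ∈ L, Cn m q x) → ∃ y, Rel y ∧ ∑ a, x a • C a = ∑ a, y a • C a ∧
        (∀ q ∈ L, ∀ a, q ∣ addOrderOf a → od y a = 0) ∧ Dom5 y x := by
  intro L
  induction L with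
  | nil => exact fun _ x hx _ => ⟨x, hx, rfl, fun q hq => absurd hq List.not_mem_nil,
      fun _ _ _ _ _ => le_rfl⟩
  | cons q L ih =>
    intro hL x hx hc
    obtain ⟨hq, hq5⟩ := hL q (List.mem_cons_self ..)
    obtain ⟨y, hy, hxy, hy0, hd⟩ := peel_gen hm2 hC hb hq hq5 hx (hc q (List.mem_cons_self ..))
    obtain ⟨z, hz, hyz, hz0, hd'⟩ := ih (fun p hp => hL p (List.mem_cons_of_mem _ hp)) y hy
      (fun p hp => (hc p (List.mem_cons_of_mem _ hp)).mono
        (hL p (List.mem_cons_of_mem _ hp)).1 (hL p (List.mem_cons_of_mem _ hp)).2 hd)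
    refine ⟨z, hz, hxy.trans hyz, fun p hp a ha => ?_, hd'.trans hd⟩
    rcases List.mem_cons.mp hp with rfl | hp
    · have h1 := hd' p hq hq5 a ha
      rw [hy0 a ha, abs_zero] at h1
      exact abs_nonpos_iff.mp h1
    · exact hz0 p hp a ha

lemma order_dvd (a : ZMod m) : addOrderOf a ∣ m := by
  have := addOrderOf_dvd_card (x := a)
  rwa [ZMod.card] at this

/-- **Relations of even level.** -/
theorem kill_gen {m1 m2 : ℕ} (h12 : m1 * m2 = m) (hm2 : 2 ∣ m1) (hgood : GoodDegree2 m1)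
    (hC : OddDist C) (hb : ∀ s, SurfaceOrCurveProduct m s → (s.map C).sum = 0)
    {x : ZMod m → ℤ} (hx : Rel x)
    (hbig : ∀ q : ℕ, q.Prime → q ∣ m2 → 5 ≤ q ∧ Cn m q x) : ∑ a, x a • C a = 0 := by
  have hm0 := NeZero.ne m
  have hm20 : m2 ≠ 0 := by rintro rfl; rw [mul_zero] at h12; exact hm0 h12.symm
  have hm10 : m1 ≠ 0 := by rintro rfl; rw [zero_mul] at h12; exact hm0 h12.symm
  have : NeZero m1 := ⟨hm10⟩
  have hme : 2 ∣ m := hm2.trans (Dvd.intro _ h12)
  obtain ⟨y, hy, hxy, hy0, -⟩ := peel_gen_list hme hC hb m2.primeFactorsList (fun q hq => by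
      have h1 := (Nat.mem_primeFactorsList hm20).mp hq
      exact ⟨h1.1, (hbig q h1.1 h1.2).1⟩) x hx (fun q hq => by
      have h1 := (Nat.mem_primeFactorsList hm20).mp hq
      exact (hbig q h1.1 h1.2).2)
  rw [hxy]
  refine kill_good_od (M := m1) (k := m2) (by rw [mul_comm]; exact h12) hm2 hgood hC hb ?_ hy
  intro a ha
  have h1 : addOrderOf a ∣ m1 * m2 := by rw [h12]; exact order_dvd a
  refine Nat.Coprime.dvd_of_dvd_mul_right ?_ h1
  refine Nat.coprime_of_dvd fun p hp hpa hp2 => ?_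
  exact ha (hy0 p ((Nat.mem_primeFactorsList hm20).mpr ⟨hp, hp2⟩) a hpa)

end Gen

section Six

variable {m : ℕ} [NeZero m] {Q : Type} [AddCommGroup Q] {C : ZMod m → Q}

/-- the degrees allowed in the peeling -/
def Al (m : ℕ) : Prop :=
  ¬ 68 ∣ m ∧ ¬ 110 ∣ m ∧ ¬ 130 ∣ m ∧ ¬ 138 ∣ m ∧ ¬ 170 ∣ m ∧ ¬ 174 ∣ m ∧ ¬ 186 ∣ m

/-- one prime, at most sixteen letters -/
theorem peel_six (hm2 : 2 ∣ m) (hm : Al m) (hC : OddDist C)
    (hb : ∀ s, SurfaceOrCurveProduct m s → (s.map C).sum = 0) {q : ℕ} (hq : q.Prime) (hq11 : 11 ≤ q)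
    (hqm : q ∣ m) {x0 : ZMod m → ℤ} (hrel : Rel x0) (hU : ud q x0 ≤ 16) (hN : nd q x0 ≤ 32)
    (hbig : ∀ p : ℕ, p.Prime → q < p → ∀ a, p ∣ addOrderOf a → od x0 a = 0) :
    ∃ y, Rel y ∧ ∑ a, x0 a • C a = ∑ a, y a • C a ∧
      (∀ a, q ∣ addOrderOf a → od y a = 0) ∧ Dom5 y x0 := by
  obtain ⟨e68, e110, e130, e138, e170, e174, e186⟩ := hm
  have hq' : q = 11 ∨ q = 13 ∨ q = 17 ∨ q = 19 ∨ q = 23 ∨ q = 29 ∨ q = 31 ∨ 37 ≤ q := by
    by_cases h37 : 37 ≤ q
    · omega
    · push Not at h37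
      interval_cases q <;> first | omega | exact absurd hq (by norm_num)
  have hqZ : (11 : ℤ) ≤ q := by exact_mod_cast hq11
  have h4bd : ∀ d, 4 ∣ d → q ∣ d → nd d x0 ≤ 16 := by
    intro d h4 hqd
    rw [nd_eq_ud h4]
    exact (ud_mono hqd x0).trans hU
  refine peel_q hm2 hC hb hq (by omega) hrel (fun d hd _ R x h => ?_) ?_ ?_
  · by_cases hd2 : d % 4 = 2
    · exact h.step_two hd2
    by_cases hd4 : 4 ∣ d
    · refine step_four_gen h (by omega) hd4 (by omega) ?_
      have := h4bd d hd4 h.hqd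
      linarith
    have hodd : d % 2 = 1 := by omega
    by_cases h19 : 19 ≤ q
    · have : (19 : ℤ) ≤ q := by exact_mod_cast h19
      exact h.step_odd (by rw [nq_eq_nd]; linarith) hodd (by omega) (by omega)
    by_cases hex : ∃ p : ℕ, p.Prime ∧ q < p ∧ p ∣ d
    · obtain ⟨p, hp, hqp, hpd⟩ := hex
      refine step_simple' h ?_
      have h0 : nd d x0 = 0 := by
        unfold nd
        refine sum_eq_zero fun a ha => ?_
        rw [hbig p hp hqp a (hpd.trans (mem_filter.mp ha).2), abs_zero, mul_zero]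
      rw [h0]; linarith
    push Not at hex
    refine step_ref h (Nat.odd_iff.mpr hodd) ?_ (by omega) (by omega) ?_
    · have := (ud_mono h.hqd x0).trans hU
      linarith
    · intro r hr hrd
      have hrq : r ≤ q := by
        by_contra hcon
        exact hex r hr (by omega) hrd
      have hrm : r ∣ m := hrd.trans (Dvd.intro_left R h.hR)
      have h5 : r ≠ 5 := by
        rintro rfl
        have h1 : 2 * 5 ∣ m := (show Nat.Coprime 2 5 by norm_num).mul_dvd_of_dvd_of_dvd hm2 hrm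
        have h2 : 2 * 5 * q ∣ m := by
          refine Nat.Coprime.mul_dvd_of_dvd_of_dvd ?_ h1 hqm
          rcases hq' with rfl | rfl | rfl | h
          · norm_num
          · norm_num
          · norm_num
          · omega
        rcases hq' with rfl | rfl | rfl | h
        · exact e110 h2
        · exact e130 h2
        · exact e170 h2
        · omega
      have h2 : r ≠ 2 := by
        rintro rfl
        omega
      have h17 : q ≤ 17 := by omega
      have h1 := hr.two_le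
      have h4 : r ≤ 17 := by omega
      interval_cases r <;> first | omega | exact absurd hr (by norm_num)
  · rcases hq' with rfl | rfl | rfl | h
    · right; right; simp
    · right; right; simp
    · right; left
      exact fun h => e68 h
    · left
      have := h4bd (4 * q) (Dvd.intro _ rfl) (Dvd.intro_left _ rfl)
      have h19 : (19 : ℤ) ≤ q := by
        have : 19 ≤ q := by omega
        exact_mod_cast this
      linarith
  · have hsix : ∀ q, 2 ∣ m → 3 * q ∣ m → ¬ 2 ∣ 3 * q → 6 * q ∣ m := by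
      intro q h1 h2 h3
      have h4 := Nat.Coprime.mul_dvd_of_dvd_of_dvd
        ((Nat.Prime.coprime_iff_not_dvd Nat.prime_two).mpr h3) h1 h2
      rw [← mul_assoc] at h4
      exact h4
    rcases hq' with rfl | rfl | rfl | rfl | rfl | rfl | rfl | h
    · right; right; simp
    · right; right; simp
    · right; right; simp
    · right; right; simp
    · right; left
      exact fun h => e138 (hsix 23 hm2 h (by norm_num))
    · right; left
      exact fun h => e174 (hsix 29 hm2 h (by norm_num))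
    · right; left
      exact fun h => e186 (hsix 31 hm2 h (by norm_num))
    · left
      have h1 := (nd_mono (show q ∣ 3 * q from Dvd.intro_left _ rfl) x0).trans hN
      have h37 : (37 : ℤ) ≤ q := by exact_mod_cast h
      linarith

/-- all primes which are at least eleven -/
theorem peel_six_all (hm2 : 2 ∣ m) (hm : Al m) (hC : OddDist C)
    (hb : ∀ s, SurfaceOrCurveProduct m s → (s.map C).sum = 0)
    {x0 : ZMod m → ℤ} (hrel : Rel x0) (hU : ∀ q, ud q x0 ≤ 16) (hN : ∀ q, nd q x0 ≤ 32) (k : ℕ) :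
    ∃ y, Rel y ∧ ∑ a, x0 a • C a = ∑ a, y a • C a ∧
      (∀ p : ℕ, p.Prime → 11 ≤ p → m + 1 ≤ p + k → ∀ a, p ∣ addOrderOf a → od y a = 0) ∧
      Dom5 y x0 := by
  induction k with
  | zero =>
    refine ⟨x0, hrel, rfl, fun p hp _ hmp a ha => ?_, fun _ _ _ _ _ => le_rfl⟩
    have := Nat.le_of_dvd (NeZero.pos m) (ha.trans (order_dvd a))
    omega
  | succ k ih =>
    obtain ⟨y, hy, hxy, hy0, hd⟩ := ih
    by_cases hq : ∃ q : ℕ, q.Prime ∧ 11 ≤ q ∧ q ∣ m ∧ m + 1 = q + (k + 1)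
    · obtain ⟨q, hq, hq11, hqm, hqk⟩ := hq
      obtain ⟨z, hz, hyz, hz0, hd'⟩ := peel_six hm2 hm hC hb hq hq11 hqm hy
        ((hd.ud_le hq (by omega) dvd_rfl).trans (hU q))
        ((hd.nd_le hq (by omega) dvd_rfl).trans (hN q))
        (fun p hp hqp a ha => hy0 p hp (by omega) (by omega) a ha)
      refine ⟨z, hz, hxy.trans hyz, fun p hp hp11 hpk a ha => ?_, hd'.trans hd⟩
      by_cases hpq : p = q
      · exact hz0 a (hpq ▸ ha)
      · have h1 := hd' p hp (by omega) a ha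
        rw [hy0 p hp hp11 (by omega) a ha, abs_zero] at h1
        exact abs_nonpos_iff.mp h1
    · refine ⟨y, hy, hxy, fun p hp hp11 hpk a ha => ?_, hd⟩
      by_cases hpk' : m + 1 ≤ p + k
      · exact hy0 p hp hp11 hpk' a ha
      · exact absurd ⟨p, hp, hp11, ha.trans (order_dvd a), by omega⟩ hq

/-- the smooth even levels not divisible by 420 are good -/
lemma good_smooth {M : ℕ} (hM : ∀ p : ℕ, p.Prime → p ∣ M → p = 2 ∨ p = 3 ∨ p = 5 ∨ p = 7)
    (h420 : ¬ 420 ∣ M) : GoodDegree2 M := by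
  by_cases h4 : 4 ∣ M
  swap
  · exact Or.inr (Or.inr (Or.inr (Or.inr (Or.inr (Or.inl ⟨h4, Or.inl hM⟩)))))
  by_cases h3 : 3 ∣ M
  swap
  · refine Or.inr (Or.inr (Or.inl fun p hp hpM => ?_))
    rcases hM p hp hpM with h | h | h | h
    · exact Or.inl h
    · exact absurd (h ▸ hpM) h3
    · exact Or.inr (Or.inl h)
    · exact Or.inr (Or.inr h)
  by_cases h5 : 5 ∣ M
  swap
  · refine Or.inr (Or.inl fun p hp hpM => ?_)
    rcases hM p hp hpM with h | h | h | h
    · exact Or.inl h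
    · exact Or.inr (Or.inl h)
    · exact absurd (h ▸ hpM) h5
    · exact Or.inr (Or.inr h)
  by_cases h7 : 7 ∣ M
  swap
  · refine Or.inl fun p hp hpM => ?_
    rcases hM p hp hpM with h | h | h | h
    · exact Or.inl h
    · exact Or.inr (Or.inl h)
    · exact Or.inr (Or.inr h)
    · exact absurd (h ▸ hpM) h7
  exfalso
  apply h420
  have h12 : 4 * 3 ∣ M := (show Nat.Coprime 4 3 by norm_num).mul_dvd_of_dvd_of_dvd h4 h3
  have h60 : 4 * 3 * 5 ∣ M := (show Nat.Coprime (4 * 3) 5 by norm_num).mul_dvd_of_dvd_of_dvd h12 h5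
  exact (show Nat.Coprime (4 * 3 * 5) 7 by norm_num).mul_dvd_of_dvd_of_dvd h60 h7

/-- **At most sixteen letters.** -/
theorem kill_six (hm2 : 2 ∣ m) (hm : Al m) (h420 : ¬ 420 ∣ m) (hC : OddDist C)
    (hb : ∀ s, SurfaceOrCurveProduct m s → (s.map C).sum = 0)
    {x0 : ZMod m → ℤ} (hrel : Rel x0) (hU : ∀ q, ud q x0 ≤ 16) (hN : ∀ q, nd q x0 ≤ 32) :
    ∑ a, x0 a • C a = 0 := by
  have hm0 := NeZero.ne m
  obtain ⟨y, hy, hxy, hy0, -⟩ := peel_six_all hm2 hm hC hb hrel hU hN m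
  obtain ⟨a, u, hu, e1⟩ := Nat.exists_eq_pow_mul_and_not_dvd hm0 2 (by norm_num)
  have hu0 : u ≠ 0 := by rintro rfl; exact hu (dvd_zero _)
  obtain ⟨m1, m2, h12, hs1, h3, h5, h7⟩ := exists_smooth hu0
  have h2m2 : ¬ 2 ∣ m2 := fun h => hu (by rw [← h12]; exact Dvd.dvd.mul_left h m1)
  have hm' : 2 ^ a * m1 * m2 = m := by rw [e1, ← h12]; ring
  have hM0 : 2 ^ a * m1 ≠ 0 := by
    intro h0
    rw [h0, zero_mul] at hm'
    exact hm0 hm'.symm
  have : NeZero (2 ^ a * m1) := ⟨hM0⟩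
  have ha0 : a ≠ 0 := by
    rintro rfl
    rw [pow_zero, one_mul] at e1
    exact hu (e1 ▸ hm2)
  have hpr : ∀ p : ℕ, p.Prime → p ∣ 2 ^ a * m1 → p = 2 ∨ p = 3 ∨ p = 5 ∨ p = 7 := by
    intro p hp hpd
    rcases hp.dvd_mul.mp hpd with h | h
    · left
      exact (Nat.prime_dvd_prime_iff_eq hp Nat.prime_two).mp (hp.dvd_of_dvd_pow h)
    · right
      exact hs1 p hp h
  rw [hxy]
  refine kill_good_od (M := 2 ^ a * m1) (k := m2) (by rw [mul_comm]; exact hm')
    (Dvd.dvd.mul_right (dvd_pow_self 2 ha0) m1)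
    (good_smooth hpr fun h => h420 (h.trans (Dvd.intro _ hm'))) hC hb ?_ hy
  intro b hb0
  have h1 : addOrderOf b ∣ 2 ^ a * m1 * m2 := by rw [hm']; exact order_dvd b
  refine Nat.Coprime.dvd_of_dvd_mul_right ?_ h1
  refine Nat.coprime_of_dvd fun p hp hpa hp2 => ?_
  have hpm : p ∣ m := hp2.trans (Dvd.intro_left _ hm')
  refine hb0 (hy0 p hp ?_ ?_ b hpa)
  · have := hp.two_le
    by_contra hcon
    push Not at hcon
    interval_cases p
    · exact h2m2 hp2
    · exact h3 hp2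
    · exact absurd hp (by norm_num)
    · exact h5 hp2
    · exact absurd hp (by norm_num)
    · exact h7 hp2
    · exact absurd hp (by norm_num)
    · exact absurd hp (by norm_num)
    · exact absurd hp (by norm_num)
  · have := hp.one_lt
    omega

end Six

section Chars

variable {m : ℕ} [NeZero m]

/-- the weight of the entries of order divisible by `q` -/
lemma nd_count_le (q : ℕ) (s : Multiset (ZMod m)) :
    nd q (fun a : ZMod m => ((s.count a : ℕ) : ℤ)) ≤ 2 * wq q s := nq_count_le q s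

omit [NeZero m] in
lemma wq_le_two (q : ℕ) (s : Multiset (ZMod m)) : wq q s ≤ 2 * Multiset.card s := by
  unfold wq
  induction s using Multiset.induction_on with
  | empty => simp
  | cons a s ih =>
    rw [Multiset.map_cons, Multiset.sum_cons, Multiset.card_cons]
    have h1 : (if q ∣ addOrderOf a then wo (addOrderOf a) else 0) ≤ 2 := by
      unfold wo
      split_ifs <;> norm_num
    push_cast
    linarith

lemma ud_count_le (q : ℕ) (s : Multiset (ZMod m)) :
    ud q (fun a : ZMod m => ((s.count a : ℕ) : ℤ)) ≤ 2 * Multiset.card s := by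
  have h0 : ∑ a : ZMod m, ((s.count a : ℕ) : ℤ) = Multiset.card s := by
    have := sum_count s (fun _ : ZMod m => (1 : ℤ))
    simpa using this
  have h1 : ∑ a : ZMod m, ((s.count (-a) : ℕ) : ℤ) = Multiset.card s := by
    rw [← h0]
    exact Fintype.sum_equiv (Equiv.neg _) _ _ fun a => rfl
  have h2 : ud q (fun a : ZMod m => ((s.count a : ℕ) : ℤ)) ≤
      ∑ a : ZMod m, (((s.count a : ℕ) : ℤ) + ((s.count (-a) : ℕ) : ℤ)) := by
    unfold ud
    refine (sum_le_sum_of_subset_of_nonneg (filter_subset _ _) fun a _ _ => abs_nonneg _).trans ?_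
    refine sum_le_sum fun a _ => ?_
    unfold od
    have := abs_sub ((s.count a : ℕ) : ℤ) ((s.count (-a) : ℕ) : ℤ)
    rwa [abs_of_nonneg (by positivity : (0 : ℤ) ≤ ((s.count a : ℕ) : ℤ)),
      abs_of_nonneg (by positivity : (0 : ℤ) ≤ ((s.count (-a) : ℕ) : ℤ))] at this
  rw [sum_add_distrib, h0, h1] at h2
  linarith

/-- **Dimension at most six, even degrees.** -/
theorem main_six (hm2 : 2 ∣ m) (hm : Al m) (h420 : ¬ 420 ∣ m)
    {s : Multiset (ZMod m)} (hs : IsHodge m s) (hne : s ≠ 0) (hcard : Multiset.card s ≤ 8) :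
    Generated m (SurfaceOrCurveProduct m) s := by
  have hc : (Multiset.card s : ℤ) ≤ 8 := by exact_mod_cast hcard
  have h1 := kill_six (C := cQ m (SurfaceOrCurveProduct m)) hm2 hm h420 cQ_oddDist
    (fun u hu => cQ_sum_eq_zero (Generated.ofBase u hu)) hs.rel
    (fun q => (ud_count_le q s).trans (by linarith))
    (fun q => (nd_count_le q s).trans (by have := wq_le_two q s; linarith))
  rw [sum_count] at h1
  rw [cQ_sum, QuotientAddGroup.eq_zero_iff] at h1
  exact generated_of_mem_LL base_good base_neg hs.1 hs.2.1 hne h1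

end Chars

end Pool.Agent.Q59.S6
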