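import Pool.Agent.Q59.S6.Step4

/-!
# The orders `4 * q` and `3 * q`
-/

namespace Pool.Agent.Q59.S6

open Finset Pool.Agent.H916R2 Pool.Agent.Q59.FS Pool.Agent.Q59.PL

section Sign

variable {d q : ℕ} [NeZero d]

omit [NeZero d] in
lemma mem_or4 (h : q * 4 = d) (hq : 0 < q) (w : (ZMod d)ˣ) : w ∈ KL d q ∨ -1 * w ∈ KL d q := by
  rw [KL_eq_KK hq h, mem_KK, mem_KK, neg_one_mul]
  have h1 : ZMod.unitsMap (Dvd.intro_left q h) (-w) = - ZMod.unitsMap (Dvd.intro_left q h) w := by
    apply Units.ext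
    rw [unitsMap_coe, Units.val_neg, map_neg, ← unitsMap_coe, Units.val_neg]
  rw [h1]
  have h2 : ∀ t : (ZMod 4)ˣ, t = 1 ∨ -t = 1 := by decide
  exact h2 _

omit [NeZero d] in
lemma not_both4 (h : q * 4 = d) (hq : 0 < q) {w : (ZMod d)ˣ} (hw : w ∈ KL d q) :
    -1 * w ∉ KL d q := by
  intro h0
  have h1 := (KL d q).mul_mem h0 ((KL d q).inv_mem hw)
  rw [mul_inv_cancel_right, KL_eq_KK hq h, mem_KK] at h1
  have h2 : ZMod.unitsMap (Dvd.intro_left q h) (-1) = (-1 : (ZMod 4)ˣ) := by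
    apply Units.ext
    rw [unitsMap_coe, Units.val_neg, map_neg, Units.val_one, map_one, Units.val_neg, Units.val_one]
  rw [h2] at h1
  exact absurd h1 (by decide)

lemma sg_neg4 (h : q * 4 = d) (hq : 0 < q) (w : (ZMod d)ˣ) : sg d q (-1 * w) = - sg d q w := by
  unfold sg
  rcases mem_or4 h hq w with h1 | h1
  · rw [if_pos h1, if_neg (not_both4 h hq h1)]
  · have h2 : w ∉ KL d q := by
      intro h0
      exact not_both4 h hq h0 h1
    rw [if_pos h1, if_neg h2]
    norm_num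

end Sign

section Main

variable {m R d : ℕ} [NeZero m] [NeZero d] {q : ℕ} {x0 x : ZMod m → ℤ}

/-- the differences in the direction two -/
theorem diff_const4 (h : Top q x0 R d x) (hd : q * 4 = d) {κ : (ZMod d)ˣ} (hκ : κ ∈ KL d 2)
    (w : (ZMod d)ˣ) : FF R d x w - FF R d x (w * κ) =
      sg d q w * (FF R d x 1 - FF R d x κ) := by
  have hcov : ∀ r : ℕ, r.Prime → r ∣ d → r ∈ [2, q] := by
    intro r hr hrd
    rw [← hd] at hrd
    rcases hr.dvd_mul.mp hrd with h1 | h1
    · rw [(Nat.prime_dvd_prime_iff_eq hr h.hq).mp h1]; simp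
    · have h2 : r ∣ 2 * 2 := h1
      rcases hr.dvd_mul.mp h2 with h2 | h2 <;>
      · rw [(Nat.prime_dvd_prime_iff_eq hr Nat.prime_two).mp h2]; simp
  have hinv : ∀ u : (ZMod d)ˣ, ∀ κ' ∈ KL d q, FF R d x (u * κ') - FF R d x (u * κ' * κ) =
      FF R d x u - FF R d x (u * κ) := by
    intro u κ' hκ'
    have h1 := Pool.Agent.Q59.SX.top_LB' h.hR (h.st.eqv.rel h.rel) h.htop hcov u 1
      (Subgroup.one_mem _) κ hκ κ' hκ' 1 (Subgroup.one_mem _)
    have h2 : (TT u (FF R d x) (1 * κ' * 1) - TT u (FF R d x) (1 * κ' * κ)) -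
        (TT u (FF R d x) (1 * 1 * 1) - TT u (FF R d x) (1 * 1 * κ)) = 0 := h1
    simp only [TT_apply, one_mul, mul_one] at h2
    rw [mul_assoc]
    linarith
  have key : ∀ v ∈ KL d q, FF R d x v - FF R d x (v * κ) = FF R d x 1 - FF R d x κ := by
    intro v hv
    have := hinv 1 v hv
    rwa [one_mul, one_mul] at this
  rcases mem_or4 hd h.hq.pos w with h1 | h1
  · unfold sg
    rw [if_pos h1, one_mul]
    exact key w h1
  · have h2 := key _ h1
    rw [h.odd, mul_assoc, h.odd] at h2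
    have h3 := sg_neg4 hd h.hq.pos w
    have h4 : sg d q (-1 * w) = 1 := if_pos h1
    rw [h4] at h3
    have h5 : sg d q w = -1 := by linarith
    rw [h5]
    linarith

/-- if the difference is zero, the order `4 * q` can be removed -/
theorem step_zero4 (h : Top q x0 R d x) (hd : q * 4 = d) {κ : (ZMod d)ˣ}
    (hκ : κ ∈ KL d 2) (hall : ∀ κ' ∈ KL d 2, κ' = 1 ∨ κ' = κ)
    (h0 : FF R d x 1 = FF R d x κ) : ∃ y, St q x0 (d - 1) y := by
  refine h.finish (L := [2]) ?_ (List.nodup_singleton 2) ?_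
  · intro ℓ hℓ
    have : ℓ = 2 := by simpa using hℓ
    subst this
    exact ⟨Nat.prime_two, Ne.symm h.hq2, (show 2 ∣ 4 by norm_num).trans (Dvd.intro_left q hd)⟩
  · intro u
    have hz : ∀ w, FF R d x w = FF R d x (w * κ) := by
      intro w
      have := diff_const4 h hd hκ w
      rw [h0, sub_self, mul_zero] at this
      linarith
    intro κ1 hκ1 κ2 hκ2
    change TT u (FF R d x) (1 * κ1) - TT u (FF R d x) (1 * κ2) = 0
    simp only [TT_apply, one_mul]
    have e1 := hz u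
    rcases hall κ1 hκ1 with rfl | rfl <;> rcases hall κ2 hκ2 with rfl | rfl
    · rw [sub_self]
    · rw [mul_one, ← e1, sub_self]
    · rw [mul_one, ← e1, sub_self]
    · rw [sub_self]

/-- subtracting a multiple of a relation -/
theorem top_sub (h : Top q x0 R d x) {T : ZMod m → ℤ} (hT : Rel T)
    (hTs : ∀ a, od T a ≠ 0 → addOrderOf a ∣ d) (v : ℤ) :
    Top q (fun a => x0 a - v * T a) R d (fun a => x a - v * T a) := by
  have hod : ∀ y : ZMod m → ℤ, ∀ a, od (fun a => y a - v * T a) a = od y a - v * od T a :=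
    fun y a => by unfold od; ring
  refine ⟨h.hq, h.hq2, h.hR, h.hqd, ?_, ⟨?_, ?_, ?_⟩⟩
  · intro t
    have e : ∑ a, (x0 a - v * T a) * saw ((t : ZMod m) * a) =
        ∑ a, x0 a * saw ((t : ZMod m) * a) - v * ∑ a, T a * saw ((t : ZMod m) * a) := by
      rw [mul_sum, ← sum_sub_distrib]
      exact sum_congr rfl fun a _ => by ring
    change ∑ a, (x0 a - v * T a) * saw ((t : ZMod m) * a) = 0
    rw [e, h.rel t, hT t]; ring
  · intro Q _ c hc
    have h6 := h.st.eqv Q c hc
    simp only [sub_smul, sum_sub_distrib]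
    rw [h6]
  · intro a ha
    rw [hod, hod, h.st.off a ha]
  · intro a ha hne
    rw [hod] at hne
    by_cases h6 : od x a = 0
    · have h7 : od T a ≠ 0 := by
        intro h8
        apply hne
        rw [h6, h8]; ring
      exact Nat.le_of_dvd (NeZero.pos d) (hTs a h7)
    · exact h.st.top a ha h6

end Main

section Peel

variable {m : ℕ} [NeZero m] {q : ℕ} {x0 : ZMod m → ℤ}

lemma rel_of_st {D : ℕ} {x : ZMod m → ℤ} (h : St q x0 D x) (hrel : Rel x0) : Rel x :=
  h.eqv.rel hrel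

/-- the conditions on the exotic relation of the order `c * q` in the direction `ℓ` -/
structure Ex (m q c ℓ : ℕ) [NeZero m] (T : ZMod m → ℤ) : Prop where
  rel : Rel T
  supp : ∀ a, od T a ≠ 0 → addOrderOf a ∣ c * q
  key : ∀ (R d : ℕ) [NeZero d], R * d = m → q * c = d → ∀ κ ∈ KL d ℓ, κ ≠ 1 →
    FF R d T 1 - FF R d T κ = 1

lemma rel_sub {T : ZMod m → ℤ} (hrel : Rel x0) (hT : Rel T) (v : ℤ) :
    Rel (fun a => x0 a - v * T a) := by
  intro t
  have e : ∑ a, (x0 a - v * T a) * saw ((t : ZMod m) * a) =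
      ∑ a, x0 a * saw ((t : ZMod m) * a) - v * ∑ a, T a * saw ((t : ZMod m) * a) := by
    rw [mul_sum, ← sum_sub_distrib]
    exact sum_congr rfl fun a _ => by ring
  change ∑ a, (x0 a - v * T a) * saw ((t : ZMod m) * a) = 0
  rw [e, hrel t, hT t]; ring

/-- the order `4 * q` -/
theorem stage_four (hq : q.Prime) (hq5 : 5 ≤ q) (hrel : Rel x0) {x : ZMod m → ℤ}
    (hx : St q x0 (4 * q) x) {T : ZMod m → ℤ} (hT : Ex m q 4 2 T) :
    ∃ v : ℤ, ∃ y, St q (fun a => x0 a - v * T a) (4 * q - 1) y := by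
  have hq2 : q ≠ 2 := by omega
  by_cases h4q : q * 4 ∣ m
  swap
  · -- the order `4 * q` does not occur
    refine ⟨0, x, ?_⟩
    have e : (fun a => x0 a - 0 * T a) = x0 := by funext a; ring
    rw [e]
    refine ⟨hx.eqv, hx.off, fun a ha hne => ?_⟩
    have h1 := hx.top a ha hne
    have h2 : addOrderOf a ∣ m := by
      have := addOrderOf_dvd_card (x := a)
      rwa [ZMod.card] at this
    have h3 : addOrderOf a ≠ 4 * q := by
      intro h0
      apply h4q
      rw [mul_comm, ← h0]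
      exact h2
    omega
  obtain ⟨R, hR'⟩ := h4q
  obtain ⟨d, hd⟩ : ∃ d, q * 4 = d := ⟨_, rfl⟩
  rw [hd] at hR'
  have hR : R * d = m := by rw [hR', mul_comm]
  have hdpos : 0 < d := by rw [← hd]; have := hq.pos; positivity
  have : NeZero d := ⟨hdpos.ne'⟩
  have hd4 : 4 * q = d := by rw [← hd]; ring
  obtain ⟨κ, hκ, hκ1, -, hall⟩ := exists_kappa_card (card_KL_two (d := d) ⟨q, hd4.symm⟩)
  have htop : Top q x0 R d x := ⟨hq, hq2, hR, Dvd.intro _ hd, hrel, by rw [← hd4]; exact hx⟩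
  refine ⟨FF R d x 1 - FF R d x κ, ?_⟩
  have htop' := top_sub htop hT.rel (fun a ha => by rw [← hd4]; exact hT.supp a ha)
    (FF R d x 1 - FF R d x κ)
  have hFF : ∀ w, FF R d (fun a => x a - (FF R d x 1 - FF R d x κ) * T a) w =
      FF R d x w - (FF R d x 1 - FF R d x κ) * FF R d T w := fun w => by
    unfold FF od; ring
  rw [hd4]
  refine step_zero4 htop' hd hκ hall ?_
  rw [hFF, hFF]
  have h6 := hT.key R d hR hd κ hκ hκ1
  linear_combination (-(FF R d x 1 - FF R d x κ)) * h6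

/-- the orders below `3 * q` -/
theorem fin_small (hq : q.Prime) (hq2 : q ≠ 2) (hrel : Rel x0)
    (hx : ∃ x, St q x0 (3 * q - 1) x) :
    ∃ y, Eqv q y x0 ∧ (∀ a, ¬ q ∣ addOrderOf a → od y a = od x0 a) ∧
      ∀ a, q ∣ addOrderOf a → od y a = 0 := by
  obtain ⟨y, hy⟩ := down (D0 := 0) (D1 := 3 * q - 1) (fun d hd0 hd1 _ R x h => by
      obtain ⟨e, he⟩ := h.hqd
      have hq0 := hq.pos
      have he3 : e < 3 := by
        by_contra hcon
        push Not at hcon
        have : q * 3 ≤ q * e := Nat.mul_le_mul_left q hcon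
        omega
      interval_cases e
      · omega
      · exact h.step_self (by rw [he, mul_one])
      · refine h.step_two ?_
        have := hq.eq_two_or_odd
        omega) hq hq2 hrel (3 * q - 1) le_rfl hx
  refine ⟨y, hy.eqv, hy.off, fun a ha => ?_⟩
  by_contra hne
  have h1 := hy.top a ha hne
  have h2 := addOrderOf_pos a
  omega

/-- the order `3 * q` -/
theorem stage_three (hq : q.Prime) (hq5 : 5 ≤ q) (hrel : Rel x0) {x : ZMod m → ℤ}
    (hx : St q x0 (4 * q - 1) x) {T : ZMod m → ℤ} (hT : Ex m q 3 3 T) :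
    ∃ v : ℤ, ∃ y, St q (fun a => x0 a - v * T a) (3 * q - 1) y := by
  have hq2 : q ≠ 2 := by omega
  have hq3 : q ≠ 3 := by omega
  -- first go down to `3 * q`
  have hx3 : St q x0 (3 * q) x := ⟨hx.eqv, hx.off, fun a ha hne => by
    have h1 := hx.top a ha hne
    obtain ⟨e, he⟩ := ha
    have : e < 4 := by
      by_contra hcon
      push Not at hcon
      have h2 : q * 4 ≤ q * e := Nat.mul_le_mul_left q hcon
      have := hq.pos
      omega
    rw [he]
    have h3 : q * e ≤ q * 3 := Nat.mul_le_mul_left q (by omega)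
    linarith⟩
  by_cases h3q : q * 3 ∣ m
  swap
  · -- the order `3 * q` does not occur
    refine ⟨0, x, ?_⟩
    have e : (fun a => x0 a - 0 * T a) = x0 := by funext a; ring
    rw [e]
    refine ⟨hx3.eqv, hx3.off, fun a ha hne => ?_⟩
    have h1 := hx3.top a ha hne
    have h2 : addOrderOf a ∣ m := by
      have := addOrderOf_dvd_card (x := a)
      rwa [ZMod.card] at this
    have h3 : addOrderOf a ≠ 3 * q := by
      intro h0
      apply h3q
      rw [mul_comm, ← h0]
      exact h2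
    omega
  obtain ⟨R, hR'⟩ := h3q
  obtain ⟨d, hd⟩ : ∃ d, q * 3 = d := ⟨_, rfl⟩
  rw [hd] at hR'
  have hR : R * d = m := by rw [hR', mul_comm]
  have hdpos : 0 < d := by rw [← hd]; have := hq.pos; positivity
  have : NeZero d := ⟨hdpos.ne'⟩
  have h3d : 3 ∣ d := Dvd.intro_left q hd
  have h9 : ¬ 9 ∣ d := by
    rintro ⟨f, hf⟩
    have h6 : 3 ∣ q := ⟨f, by omega⟩
    exact hq3 ((Nat.prime_dvd_prime_iff_eq Nat.prime_three hq).mp h6).symm
  obtain ⟨κ, hκ, hκ1, hκκ, hall⟩ := exists_kappa_card (card_KL_three h3d h9)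
  have hd3 : 3 * q = d := by rw [← hd]; ring
  have htop : Top q x0 R d x := ⟨hq, hq2, hR, Dvd.intro _ hd, hrel, by rw [← hd3]; exact hx3⟩
  have htop' := top_sub htop hT.rel (fun a ha => by rw [← hd3]; exact hT.supp a ha)
    (FF R d x 1 - FF R d x κ)
  have hFF : ∀ w, FF R d (fun a => x a - (FF R d x 1 - FF R d x κ) * T a) w =
      FF R d x w - (FF R d x 1 - FF R d x κ) * FF R d T w := fun w => by
    unfold FF od; ring
  refine ⟨FF R d x 1 - FF R d x κ, ?_⟩
  rw [hd3]
  refine htop'.step_three hd hq3 hκ hκκ hall ?_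
  rw [hFF, hFF]
  have h6 := hT.key R d hR hd κ hκ hκ1
  linear_combination (-(FF R d x 1 - FF R d x κ)) * h6

end Peel

end Pool.Agent.Q59.S6
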