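import Pool.Agent.Q59.S6.Fin

/-!
# The general refined step
-/

namespace Pool.Agent.Q59.S6

open Finset Pool.Agent.H916R2 Pool.Agent.Q59.FS Pool.Agent.Q59.PL

section Res

variable {r : ℕ}

/-- the bad residues -/
def Bad [Fact r.Prime] (h2 : (2 : ZMod r) ≠ 0) : Finset (ZMod r)ˣ :=
  {-1, Units.mk0 2 h2, (Units.mk0 2 h2)⁻¹, -Units.mk0 2 h2, -(Units.mk0 2 h2)⁻¹}

lemma card_bad [Fact r.Prime] (h2 : (2 : ZMod r) ≠ 0) : (Bad h2).card ≤ 5 := by
  unfold Bad
  exact (card_insert_le _ _).trans (by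
    have h1 := card_insert_le (Units.mk0 2 h2) ({(Units.mk0 2 h2)⁻¹, -Units.mk0 2 h2, -(Units.mk0 2 h2)⁻¹} : Finset (ZMod r)ˣ)
    have h3 := card_le_three (a := (Units.mk0 2 h2)⁻¹) (b := -Units.mk0 2 h2) (c := -(Units.mk0 2 h2)⁻¹)
    omega)

lemma bad_inv [Fact r.Prime] (h2 : (2 : ZMod r) ≠ 0) {v : (ZMod r)ˣ} (hv : v ∉ Bad h2) :
    v⁻¹ ∉ Bad h2 := by
  intro h
  apply hv
  unfold Bad at h ⊢
  simp only [mem_insert, mem_singleton] at h ⊢
  rcases h with h | h | h | h | h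
  · left
    rw [← inv_inv v, h, inv_neg, inv_one]
  · right; right; left
    rw [← inv_inv v, h]
  · right; left
    rw [← inv_inv v, h, inv_inv]
  · right; right; right; right
    rw [← inv_inv v, h, inv_neg]
  · right; right; right; left
    rw [← inv_inv v, h, inv_neg, inv_inv]

lemma bad_res [Fact r.Prime] (h2 : (2 : ZMod r) ≠ 0) {v : (ZMod r)ˣ} (hv : v ∉ Bad h2) :
    - (v : ZMod r) ≠ 1 ∧ 2 * (v : ZMod r) ≠ 1 ∧ - 2 * (v : ZMod r) ≠ 1 := by
  refine ⟨fun h => hv ?_, fun h => hv ?_, fun h => hv ?_⟩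
  · have : v = -1 := by
      apply Units.ext
      rw [Units.val_neg, Units.val_one]
      linear_combination -h
    rw [this]
    unfold Bad
    simp
  · have : v = (Units.mk0 2 h2)⁻¹ := by
      apply eq_inv_of_mul_eq_one_right
      apply Units.ext
      rw [Units.val_mul, Units.val_mk0, Units.val_one]
      exact h
    rw [this]
    unfold Bad
    simp
  · have : v = -(Units.mk0 2 h2)⁻¹ := by
      have h3 : -v = (Units.mk0 2 h2)⁻¹ := by
        apply eq_inv_of_mul_eq_one_right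
        apply Units.ext
        rw [Units.val_mul, Units.val_mk0, Units.val_one, Units.val_neg]
        linear_combination h
      rw [← h3, neg_neg]
    rw [this]
    unfold Bad
    simp

lemma bad_gen [Fact r.Prime] (hr : 13 ≤ r) (h2 : (2 : ZMod r) ≠ 0) (E : (ZMod r)ˣ → Prop)
    (hE : ∀ v, v ∉ Bad h2 → E v) (hmul : ∀ v w, E v → E w → E (v * w)) : ∀ v, E v := by
  classical
  intro v
  have hcard : ((Bad h2) ∪ (Bad h2).image (fun w => v * w)).card ≤ 10 := by
    refine (card_union_le _ _).trans ?_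
    have h3 := card_bad h2
    have h4 : ((Bad h2).image (fun w => v * w)).card ≤ (Bad h2).card := card_image_le
    omega
  have huniv : (univ : Finset (ZMod r)ˣ).card = r - 1 := by
    rw [card_univ, ZMod.card_units_eq_totient, Nat.totient_prime (Fact.out)]
  obtain ⟨w, hw⟩ : ∃ w, w ∉ (Bad h2) ∪ (Bad h2).image (fun w => v * w) := by
    by_contra hcon
    push Not at hcon
    have h5 : (Bad h2) ∪ (Bad h2).image (fun w => v * w) = univ := eq_univ_iff_forall.mpr hcon
    rw [h5, huniv] at hcard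
    omega
  rw [mem_union, not_or] at hw
  have h3 : v * w⁻¹ ∉ Bad h2 := by
    intro h4
    have h5 := bad_inv h2 (v := (v * w⁻¹)⁻¹) (fun h6 => by
      apply hw.2
      rw [mem_image]
      refine ⟨(v * w⁻¹)⁻¹, h6, ?_⟩
      rw [mul_inv, inv_inv, mul_inv_cancel_left])
    rw [inv_inv] at h5
    exact h5 h4
  have h4 := hmul _ _ (hE _ h3) (hE _ hw.1)
  rwa [inv_mul_cancel_right] at h4

end Res

section Step

variable {m R d : ℕ} [NeZero m] [NeZero d] {q : ℕ} {x0 x : ZMod m → ℤ}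

/-- the step in the direction of a prime which is at least eleven -/
theorem step_r (h : Top q x0 R d x) (hd : Odd d) (hn : ud d x0 < 2 * ((q : ℤ) - 1))
    {r : ℕ} (hr : r.Prime) (hr11 : 11 ≤ r) (hrq : r ≠ q) (hrd : r ∣ d) :
    ∃ y, St q x0 (d - 1) y := by
  by_cases h11 : r = 11
  · subst h11
    exact step_11 h hd hn (Ne.symm hrq) hrd
  have hr13 : 13 ≤ r := by
    have : r ≠ 12 := by rintro rfl; exact absurd hr (by norm_num)
    omega
  have : Fact r.Prime := ⟨hr⟩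
  have h2 : (2 : ZMod r) ≠ 0 := by
    intro h0
    have h1 : ((2 : ℕ) : ZMod r) = 0 := by exact_mod_cast h0
    rw [ZMod.natCast_eq_zero_iff] at h1
    have := Nat.le_of_dvd (by norm_num) h1
    omega
  exact step_res h hd hn hr (by omega) hrq hrd (fun v => v ∉ Bad h2)
    (fun E h1 h3 h4 => bad_gen hr13 h2 E h3 h4) (fun v hv => bad_inv h2 hv) fun a _ hSa => by
      obtain ⟨h3, h4, h5⟩ := bad_res h2 hSa
      exact rat_of_res hr h.hq hrq _ hd h3 h4 h5

/-- **The refined step**, the order is prime to five. -/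
theorem step_ref' (h : Top q x0 R d x) (hd : Odd d) (hn : ud d x0 < 2 * ((q : ℤ) - 1))
    (hq11 : 11 ≤ q) (hd3 : d ≠ 3 * q) (h5 : ¬ 5 ∣ d) :
    ∃ y, St q x0 (d - 1) y := by
  have hq3 : q ≠ 3 := by omega
  have hq7 : q ≠ 7 := by omega
  by_cases hex : ∃ r : ℕ, r.Prime ∧ 11 ≤ r ∧ r ≠ q ∧ r ∣ d
  · obtain ⟨r, hr, hr11, hrq, hrd⟩ := hex
    exact step_r h hd hn hr hr11 hrq hrd
  push Not at hex
  have hpr' : ∀ r : ℕ, r.Prime → r ∣ d → r = 3 ∨ r = 7 ∨ r = q := by
    intro r hr hrd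
    by_cases hrq : r = q
    · exact Or.inr (Or.inr hrq)
    have h1 := hr.two_le
    have h2 : r < 11 := by
      by_contra hcon
      exact hex r hr (by omega) hrq hrd
    have h3 : r ≠ 2 := by
      rintro rfl
      exact absurd (even_iff_two_dvd.mpr hrd) (Nat.not_even_iff_odd.mpr hd)
    have h4 : r ≠ 5 := by rintro rfl; exact h5 hrd
    interval_cases r <;> first | omega | exact absurd hr (by norm_num)
  by_cases h7 : 7 ∣ d
  · by_cases h9 : 9 ∣ d
    · exact step_7a h hd hn hq7 hq3 h7 h9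
    · exact step_7b h hd hn hq7 hq3 h7 h9 hpr'
  have hpr2 : ∀ r : ℕ, r.Prime → r ∣ d → r = 3 ∨ r = q := by
    intro r hr hrd
    rcases hpr' r hr hrd with h1 | h1 | h1
    · exact Or.inl h1
    · exact absurd (h1 ▸ hrd) h7
    · exact Or.inr h1
  by_cases h9 : 9 ∣ d
  · exact step_9 h hd hn hq3 h9 hpr2
  by_cases hdq : d = q
  · exact h.step_self hdq
  -- now the order is `q` times a power of `q`
  refine step_auto h hd hn fun h0 => ?_
  have hqq : ¬ q * q ∣ d := fun h1 => not_sq_dvd h.hq h.hq hq3 (h1.trans h0)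
  obtain ⟨e, he⟩ := h.hqd
  have hqe : ¬ q ∣ e := by
    rintro ⟨f, hf⟩
    exact hqq ⟨f, by rw [he, hf]; ring⟩
  have he1 : e ≠ 1 := by
    rintro rfl
    exact hdq (by rw [he, mul_one])
  obtain ⟨r, hr, hre⟩ := Nat.exists_prime_and_dvd he1
  have hr3 : r = 3 := by
    rcases hpr2 r hr (by rw [he]; exact Dvd.dvd.mul_left hre q) with h1 | h1
    · exact h1
    · exact absurd (h1 ▸ hre) hqe
  subst hr3
  obtain ⟨f, hf⟩ := hre
  have hf1 : f ≠ 1 := by
    rintro rfl
    exact hd3 (by rw [he, hf]; ring)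
  obtain ⟨r', hr', hr'f⟩ := Nat.exists_prime_and_dvd hf1
  rcases hpr2 r' hr' (by rw [he, hf]; exact Dvd.dvd.mul_left (Dvd.dvd.mul_left hr'f 3) q) with h1 | h1
  · subst h1
    obtain ⟨g, hg⟩ := hr'f
    exact h9 ⟨q * g, by rw [he, hf, hg]; ring⟩
  · subst h1
    exact hqe (by rw [hf]; exact Dvd.dvd.mul_left hr'f 3)

end Step

end Pool.Agent.Q59.S6
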