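import Pool.Agent.Q59.S6.Box2

/-!
# The reduction modulo a prime
-/

namespace Pool.Agent.Q59.S6

open Finset Pool.Agent.H916R2 Pool.Agent.Q59.FS Pool.Agent.Q59.PL

variable {d p : ℕ}

/-- the reduction -/
noncomputable abbrev rd (h : p ∣ d) : (ZMod d)ˣ →* (ZMod p)ˣ := ZMod.unitsMap h

lemma rd_coe (h : p ∣ d) (u : (ZMod d)ˣ) :
    ((rd h u : (ZMod p)ˣ) : ZMod p) = (ZMod.castHom h (ZMod p)) (u : ZMod d) := unitsMap_coe h u

lemma rd_neg_one (h : p ∣ d) : rd h (-1) = -1 := by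
  apply Units.ext
  rw [rd_coe, Units.val_neg, Units.val_one, map_neg, map_one, Units.val_neg, Units.val_one]

lemma rd_two (h : p ∣ d) (hd : Odd d) : ((rd h (u2 hd) : (ZMod p)ˣ) : ZMod p) = 2 := by
  rw [rd_coe, u2_coe, map_ofNat]

lemma cast_KL (h : p ∣ d) {n : ℕ} {u : (ZMod d)ˣ} (hu : u ∈ KL d n) :
    (n : ZMod p) * ((rd h u : (ZMod p)ˣ) : ZMod p) = n := by
  rw [mem_KL] at hu
  have h1 := congrArg (ZMod.castHom h (ZMod p)) hu
  rw [map_mul, map_natCast] at h1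
  rw [rd_coe]
  exact h1

/-- elements of `KL d n` are one modulo the primes which do not divide `n` -/
lemma rd_one (hp : p.Prime) (h : p ∣ d) {n : ℕ} (hn : ¬ p ∣ n) {u : (ZMod d)ˣ}
    (hu : u ∈ KL d n) : rd h u = 1 := by
  have : Fact p.Prime := ⟨hp⟩
  have h1 := cast_KL h hu
  have h2 : (n : ZMod p) ≠ 0 := by
    intro h0
    exact hn ((ZMod.natCast_eq_zero_iff _ _).mp h0)
  apply Units.ext
  rw [Units.val_one]
  have h3 : (n : ZMod p) * ((rd h u : (ZMod p)ˣ) : ZMod p) = n * 1 := by rw [h1, mul_one]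
  exact mul_left_cancel₀ h2 h3

lemma dec9 : ∀ n u : ZMod 9, n ≠ 0 → n * u = n → (ZMod.castHom (show 3 ∣ 9 by norm_num) (ZMod 3)) u = 1 := by
  decide

/-- elements of `KL d n` are one modulo three if `9` divides `d` but not `n` -/
lemma rd3_one (h9 : 9 ∣ d) (h3 : 3 ∣ d) {n : ℕ} (hn : ¬ 9 ∣ n) {u : (ZMod d)ˣ} (hu : u ∈ KL d n) :
    rd h3 u = 1 := by
  have h1 := cast_KL h9 hu
  have h2 : (n : ZMod 9) ≠ 0 := by
    intro h0
    exact hn ((ZMod.natCast_eq_zero_iff _ _).mp h0)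
  have h4 := dec9 _ _ h2 h1
  apply Units.ext
  rw [Units.val_one, rd_coe, ← h4, rd_coe]
  have h5 : (ZMod.castHom (show 3 ∣ 9 by norm_num) (ZMod 3)).comp (ZMod.castHom h9 (ZMod 9)) =
      ZMod.castHom h3 (ZMod 3) := Subsingleton.elim _ _
  rw [← h5]
  rfl

section Iso

variable [NeZero d] {ℓ d' : ℕ}

/-- the elements of `K_ℓ` are determined by their residues modulo `ℓ` if `ℓ ^ 2` does not divide `d` -/
lemma rd_inj (hℓ : ℓ.Prime) (h : ℓ * d' = d) (hd' : ¬ ℓ ∣ d') {a : (ZMod d)ˣ} (ha : a ∈ KL d ℓ)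
    (h1 : rd (Dvd.intro d' h) a = 1) : a = 1 := by
  have hcop : ℓ.Coprime d' := (Nat.Prime.coprime_iff_not_dvd hℓ).mpr hd'
  have h2 : a ∈ KL d d' := by
    rw [mem_KL]
    have h3 : (ZMod.castHom (Dvd.intro d' h) (ZMod ℓ)) (a : ZMod d) = 1 := by
      rw [← rd_coe, h1, Units.val_one]
    have h4 : (ZMod.castHom (Dvd.intro d' h) (ZMod ℓ)) ((a : ZMod d) - 1) = 0 := by
      rw [map_sub, h3, map_one, sub_self]
    have h5 : ((((a : ZMod d) - 1).val : ℕ) : ZMod ℓ) = 0 := by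
      have h6 : (((((a : ZMod d) - 1).val : ℕ) : ZMod d)) = (a : ZMod d) - 1 :=
        ZMod.natCast_zmod_val _
      rw [← h6, map_natCast] at h4
      exact h4
    rw [ZMod.natCast_eq_zero_iff] at h5
    obtain ⟨k, hk⟩ := h5
    have h7 : (d' : ZMod d) * ((a : ZMod d) - 1) = 0 := by
      have h6 : (((((a : ZMod d) - 1).val : ℕ) : ZMod d)) = (a : ZMod d) - 1 :=
        ZMod.natCast_zmod_val _
      rw [← h6, hk]
      have h8 : ((ℓ * d' : ℕ) : ZMod d) = 0 := by rw [h]; exact ZMod.natCast_self d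
      push_cast at h8 ⊢
      linear_combination (k : ZMod d) * h8
    linear_combination h7
  have h3 : a ∈ KL d ℓ ⊓ KL d d' := ⟨ha, h2⟩
  rw [KL_inf hcop] at h3
  exact Subgroup.mem_bot.mp h3

lemma rd_surj (hℓ : ℓ.Prime) (h : ℓ * d' = d) (hd' : ¬ ℓ ∣ d') (v : (ZMod ℓ)ˣ) :
    ∃ a ∈ KL d ℓ, rd (Dvd.intro d' h) a = v := by
  classical
  have : Fact ℓ.Prime := ⟨hℓ⟩
  have hinj : Function.Injective (fun a : KL d ℓ => rd (Dvd.intro d' h) (a : (ZMod d)ˣ)) := by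
    intro a b hab
    have h1 : rd (Dvd.intro d' h) ((a : (ZMod d)ˣ) * (b : (ZMod d)ˣ)⁻¹) = 1 := by
      rw [map_mul, map_inv]
      exact mul_inv_eq_one.mpr hab
    have h2 := rd_inj hℓ h hd' ((KL d ℓ).mul_mem a.2 ((KL d ℓ).inv_mem b.2)) h1
    exact Subtype.ext (mul_inv_eq_one.mp h2)
  have hcard : Nat.card (KL d ℓ) = Nat.card (ZMod ℓ)ˣ := by
    rw [KL_eq_KK hℓ.pos h, card_KK_not_dvd hℓ h hd', Nat.card_eq_fintype_card,
      ZMod.card_units_eq_totient, Nat.totient_prime hℓ]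
  have hbij := (Nat.bijective_iff_injective_and_card _).mpr ⟨hinj, hcard⟩
  obtain ⟨a, ha⟩ := hbij.2 v
  exact ⟨a, a.2, ha⟩

/-- generation of `K_ℓ` -/
lemma gen_KL (hℓ : ℓ.Prime) (h : ℓ * d' = d) (hd' : ¬ ℓ ∣ d') (S : (ZMod ℓ)ˣ → Prop)
    (hS : ∀ E : (ZMod ℓ)ˣ → Prop, E 1 → (∀ v, S v → E v) → (∀ v w, E v → E w → E (v * w)) → ∀ v, E v)
    (E : (ZMod d)ˣ → Prop) (h1 : E 1)
    (h2 : ∀ a ∈ KL d ℓ, S (rd (Dvd.intro d' h) a) → E a)
    (h3 : ∀ a ∈ KL d ℓ, ∀ b ∈ KL d ℓ, E a → E b → E (a * b)) : ∀ r ∈ KL d ℓ, E r := by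
  have key := hS (fun v => ∀ r ∈ KL d ℓ, rd (Dvd.intro d' h) r = v → E r)
    (fun r hr hv => by rw [rd_inj hℓ h hd' hr hv]; exact h1)
    (fun v hv r hr hrv => h2 r hr (by rw [hrv]; exact hv))
    (fun v w hv hw r hr hrv => by
      obtain ⟨a, ha, hav⟩ := rd_surj hℓ h hd' v
      obtain ⟨b, hb, hbw⟩ := rd_surj hℓ h hd' w
      have h4 : r * (a * b)⁻¹ = 1 := by
        refine rd_inj hℓ h hd' ((KL d ℓ).mul_mem hr ((KL d ℓ).inv_mem ((KL d ℓ).mul_mem ha hb))) ?_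
        rw [map_mul, map_inv, map_mul, hrv, hav, hbw, mul_inv_cancel]
      rw [mul_inv_eq_one.mp h4]
      exact h3 a ha b hb (hv a ha hav) (hw b hb hbw))
  exact fun r hr => key _ r hr rfl

end Iso

/-- powers of generators -/
lemma gen_of_pow {n : ℕ} {H : Type*} [Group H] {S : H → Prop} (g1 g2 : H) (hg1 : S g1) (hg2 : S g2)
    (hall : ∀ v : H, ∃ i < n, ∃ j < n, v = g1 ^ i * g2 ^ j)
    (E : H → Prop) (h1 : E 1) (h2 : ∀ v, S v → E v) (h3 : ∀ v w, E v → E w → E (v * w)) :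
    ∀ v, E v := by
  have hp : ∀ g, S g → ∀ i : ℕ, E (g ^ i) := by
    intro g hg i
    induction i with
    | zero => rw [pow_zero]; exact h1
    | succ i ih => rw [pow_succ]; exact h3 _ _ ih (h2 g hg)
  intro v
  obtain ⟨i, -, j, -, rfl⟩ := hall v
  exact h3 _ _ (hp _ hg1 i) (hp _ hg2 j)

end Pool.Agent.Q59.S6
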