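import Pool.Agent.Q59.S6.Red

/-!
# The refined steps for odd orders
-/

namespace Pool.Agent.Q59.S6

open Finset Pool.Agent.H916R2 Pool.Agent.Q59.FS Pool.Agent.Q59.PL

section Step

variable {m R d : ℕ} [NeZero m] [NeZero d] {q : ℕ} {x0 x : ZMod m → ℤ}

lemma hcov_Lq : ∀ r : ℕ, r.Prime → r ∣ d → r = q ∨ r ∈ Lq d q q := by
  intro r hr hrd
  by_cases h1 : r = q
  · exact Or.inl h1
  · exact Or.inr (mem_Lq.mpr ⟨hr, hrd, h1, h1⟩)

lemma hcov_cons {ℓ : ℕ} : ∀ r : ℕ, r.Prime → r ∣ d → r = q ∨ r ∈ ℓ :: Lq d q ℓ := by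
  intro r hr hrd
  by_cases h1 : r = q
  · exact Or.inl h1
  · right
    by_cases h2 : r = ℓ
    · rw [h2]; exact List.mem_cons_self ..
    · exact List.mem_cons_of_mem _ (mem_Lq.mpr ⟨hr, hrd, h1, h2⟩)

lemma hL_Lq : ∀ ℓ ∈ Lq d q q, ℓ.Prime ∧ ℓ ≠ q ∧ ℓ ∣ d := by
  intro r hr
  obtain ⟨k1, k2, k3, _⟩ := mem_Lq.mp hr
  exact ⟨k1, k3, k2⟩

lemma hL_cons {ℓ : ℕ} (hℓ : ℓ.Prime) (hℓq : ℓ ≠ q) (hℓd : ℓ ∣ d) :
    ∀ r ∈ ℓ :: Lq d q ℓ, r.Prime ∧ r ≠ q ∧ r ∣ d := by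
  intro r hr
  rcases List.mem_cons.mp hr with rfl | h1
  · exact ⟨hℓ, hℓq, hℓd⟩
  · obtain ⟨k1, k2, k3, _⟩ := mem_Lq.mp h1
    exact ⟨k1, k3, k2⟩

lemma nodup_cons {ℓ : ℕ} : (ℓ :: Lq d q ℓ).Nodup :=
  List.nodup_cons.mpr ⟨fun h1 => (mem_Lq.mp h1).2.2.2 rfl, nodup_Lq⟩

lemma ind_of (hq : q.Prime) {L : List ℕ} (hL : ∀ ℓ ∈ L, ℓ.Prime ∧ ℓ ≠ q ∧ ℓ ∣ d) (hnd : L.Nodup) :
    Ind ((q :: L).map (KL d)) := by
  refine ind_KL d ?_ (List.nodup_cons.mpr ⟨fun h1 => (hL q h1).2.1 rfl, hnd⟩)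
  intro p hp
  rcases List.mem_cons.mp hp with rfl | hp
  · exact hq
  · exact (hL p hp).1

/-- the simple step, with the orders divisible by `d` only -/
theorem step_simple' (h : Top q x0 R d x) (hn : nd d x0 < (q : ℤ) - 1) :
    ∃ y, St q x0 (d - 1) y := by
  refine h.finish hL_Lq nodup_Lq ?_
  intro u
  refine key_simple (ind_of h.hq hL_Lq nodup_Lq) (z := -1) (by rw [neg_mul_neg, one_mul]) h.odd
    (fun b hb => h.hrel hcov_Lq b hb)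
    (fun b h1 h2 h3 => hp_nd h _ hcov_Lq b h1 h2 h3) ?_ u
  have := card_KL_ge' h.hq h.hqd
  linarith

/-- the step with a box -/
theorem step_box (h : Top q x0 R d x) (hd : Odd d) (hn : ud d x0 < 2 * ((q : ℤ) - 1))
    {L : List ℕ} (hL : ∀ ℓ ∈ L, ℓ.Prime ∧ ℓ ≠ q ∧ ℓ ∣ d) (hnd : L.Nodup)
    (hcov : ∀ r : ℕ, r.Prime → r ∣ d → r = q ∨ r ∈ L)
    (hbox : ∀ u, ¬ LB (L.map (KL d)) (TT u (FF R d x)) →
      ∃ b, IsBox (L.map (KL d)) u (FF R d x) b ∧ PM (KL d q) (-1) (u2 hd) b) :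
    ∃ y, St q x0 (d - 1) y := by
  refine h.finish hL hnd fun u => ?_
  by_contra hcon
  obtain ⟨b, hb, hpm⟩ := hbox u hcon
  have h1 := key_two (ind_of h.hq hL hnd) (z := -1) (t := u2 hd) (by rw [neg_mul_neg, one_mul])
    h.odd (fun b hb => h.hrel hcov b hb)
    (fun b h1 h2 h3 h4 => hp_ud h hd L hcov b h1 h2 h3 h4) hb hpm
  have h2 := card_KL_ge' h.hq h.hqd
  linarith

lemma sup_le_KL {L : List ℕ} : KL d q ⊔ jn (L.map (KL d)) ≤ KL d (q * L.prod) := by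
  have := jn_KL_le d (q :: L)
  rwa [List.prod_cons] at this

/-- the automatic case -/
theorem step_auto (h : Top q x0 R d x) (hd : Odd d) (hn : ud d x0 < 2 * ((q : ℤ) - 1))
    (ha : ¬ d ∣ 3 * (q * (Lq d q q).prod)) : ∃ y, St q x0 (d - 1) y := by
  refine step_box h hd hn hL_Lq nodup_Lq hcov_Lq fun u hu => ?_
  obtain ⟨b, hb⟩ := exists_box (ind_of h.hq hL_Lq nodup_Lq).2 hu
  refine ⟨b, hb, pm_of_not_mem hb ?_ ?_ ?_⟩
  · intro h0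
    apply ha
    have h1 := sup_le_KL h0
    rw [mem_KL, Units.val_neg, Units.val_one] at h1
    have h2 : ((2 * (q * (Lq d q q).prod) : ℕ) : ZMod d) = 0 := by
      push_cast at h1 ⊢
      linear_combination -h1
    rw [ZMod.natCast_eq_zero_iff] at h2
    exact ((Nat.coprime_two_right.mpr hd).dvd_of_dvd_mul_left h2).trans (dvd_mul_left _ _)
  · intro h0
    apply ha
    have h1 := sup_le_KL h0
    rw [mem_KL, u2_coe] at h1
    have h2 : ((q * (Lq d q q).prod : ℕ) : ZMod d) = 0 := by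
      push_cast at h1 ⊢
      linear_combination h1
    rw [ZMod.natCast_eq_zero_iff] at h2
    exact h2.trans (dvd_mul_left _ _)
  · intro h0
    apply ha
    have h1 := sup_le_KL h0
    rw [mem_KL, Units.val_mul, u2_coe, Units.val_neg, Units.val_one] at h1
    have h2 : ((3 * (q * (Lq d q q).prod) : ℕ) : ZMod d) = 0 := by
      push_cast at h1 ⊢
      linear_combination -h1
    rwa [ZMod.natCast_eq_zero_iff] at h2

lemma not_dvd_prod_Lq {ℓ : ℕ} (hℓ : ℓ.Prime) (hq : q.Prime) (hℓq : ℓ ≠ q) :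
    ¬ ℓ ∣ q * (Lq d q ℓ).prod := by
  intro h0
  rcases hℓ.dvd_mul.mp h0 with h1 | h1
  · exact hℓq ((Nat.prime_dvd_prime_iff_eq hℓ hq).mp h1)
  · obtain ⟨p, hp, hrp⟩ := (Nat.Prime.prime hℓ).dvd_prod_iff.mp h1
    have := (Nat.prime_dvd_prime_iff_eq hℓ (mem_Lq.mp hp).1).mp hrp
    exact (mem_Lq.mp hp).2.2.2 this.symm

/-- the elements of the other subgroups are one modulo `ℓ` -/
lemma rd_sup {ℓ : ℕ} (hℓ : ℓ.Prime) (hq : q.Prime) (hℓq : ℓ ≠ q) (hℓd : ℓ ∣ d) {w : (ZMod d)ˣ}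
    (hw : w ∈ KL d q ⊔ jn ((Lq d q ℓ).map (KL d))) : rd hℓd w = 1 :=
  rd_one hℓ hℓd (not_dvd_prod_Lq hℓ hq hℓq) (sup_le_KL hw)

/-- the step in a direction -/
theorem step_dir (h : Top q x0 R d x) (hd : Odd d) (hn : ud d x0 < 2 * ((q : ℤ) - 1)) {ℓ d' : ℕ}
    (hℓ : ℓ.Prime) (hℓ5 : 5 ≤ ℓ) (hℓq : ℓ ≠ q) (hd' : ℓ * d' = d) (hℓd' : ¬ ℓ ∣ d')
    (S : (ZMod ℓ)ˣ → Prop)
    (hS : ∀ E : (ZMod ℓ)ˣ → Prop, E 1 → (∀ v, S v → E v) → (∀ v w, E v → E w → E (v * w)) → ∀ v, E v)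
    (hSi : ∀ v, S v → S v⁻¹)
    (hrat : ∀ a ∈ KL d ℓ, S (rd (Dvd.intro d' hd') a) →
      Rat (KL d q) ((Lq d q ℓ).map (KL d)) (-1) (u2 hd) a) :
    ∃ y, St q x0 (d - 1) y := by
  have hℓd : ℓ ∣ d := Dvd.intro d' hd'
  have : Fact ℓ.Prime := ⟨hℓ⟩
  have hnat : ∀ n : ℕ, 0 < n → n < 5 → (n : ZMod ℓ) ≠ 0 := by
    intro n hn0 hn5 h0
    rw [ZMod.natCast_eq_zero_iff] at h0
    have := Nat.le_of_dvd hn0 h0
    omega
  refine step_box h hd hn (hL_cons hℓ hℓq hℓd) nodup_cons hcov_cons fun u hu => ?_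
  refine exists_box_pm (ind_of h.hq (hL_cons hℓ hℓq hℓd) nodup_cons).2
    (fun a => S (rd hℓd a)) ?_ ?_ ?_ (fun a ha hSa => ⟨hrat a ha hSa, hrat a⁻¹ ((KL d ℓ).inv_mem ha)
      (by rw [map_inv]; exact hSi _ hSa)⟩) (fun E h1 h2 h3 => gen_KL hℓ hd' hℓd' S hS E h1 h2 h3) hu
  · intro h0
    have h1 := rd_sup hℓ h.hq hℓq hℓd h0
    rw [rd_neg_one] at h1
    have h2 := congrArg (fun u : (ZMod ℓ)ˣ => (u : ZMod ℓ)) h1
    simp only [Units.val_neg, Units.val_one] at h2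
    apply hnat 2 (by norm_num) (by norm_num)
    push_cast
    linear_combination -h2
  · intro h0
    have h1 := rd_sup hℓ h.hq hℓq hℓd h0
    have h2 := rd_two hℓd hd
    rw [h1, Units.val_one] at h2
    apply hnat 1 (by norm_num) (by norm_num)
    push_cast
    linear_combination -h2
  · intro h0
    have h1 := rd_sup hℓ h.hq hℓq hℓd h0
    rw [map_mul, rd_neg_one] at h1
    have h2 := rd_two hℓd hd
    have h3 := congrArg (fun u : (ZMod ℓ)ˣ => (u : ZMod ℓ)) h1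
    simp only [Units.val_mul, Units.val_neg, Units.val_one, h2] at h3
    apply hnat 3 (by norm_num) (by norm_num)
    push_cast
    linear_combination -h3

/-- ratios with good residues -/
lemma rat_of_res {ℓ : ℕ} (hℓ : ℓ.Prime) (hq : q.Prime) (hℓq : ℓ ≠ q) (hℓd : ℓ ∣ d) (hd : Odd d)
    {a : (ZMod d)ˣ} (h1 : - ((rd hℓd a : (ZMod ℓ)ˣ) : ZMod ℓ) ≠ 1)
    (h2 : 2 * ((rd hℓd a : (ZMod ℓ)ˣ) : ZMod ℓ) ≠ 1)
    (h3 : - 2 * ((rd hℓd a : (ZMod ℓ)ˣ) : ZMod ℓ) ≠ 1) :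
    Rat (KL d q) ((Lq d q ℓ).map (KL d)) (-1) (u2 hd) a := by
  have ht := rd_two hℓd hd
  refine ⟨?_, ?_, ?_⟩
  · intro h0
    have h4 := rd_sup hℓ hq hℓq hℓd h0
    apply h1
    have h5 := congrArg (fun u : (ZMod ℓ)ˣ => (u : ZMod ℓ)) h4
    simp only [map_mul, rd_neg_one, Units.val_mul, Units.val_neg, Units.val_one] at h5
    linear_combination h5
  · intro h0
    have h4 := rd_sup hℓ hq hℓq hℓd h0
    apply h2
    have h5 := congrArg (fun u : (ZMod ℓ)ˣ => (u : ZMod ℓ)) h4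
    simp only [map_mul, Units.val_mul, Units.val_one, ht] at h5
    exact h5
  · intro κ hκ h0
    exfalso
    apply h3
    have hκ' : rd hℓd κ = 1 := rd_sup hℓ hq hℓq hℓd (Subgroup.mem_sup_left hκ)
    have h4 : rd hℓd (-1 * u2 hd * a * κ) = 1 :=
      rd_sup hℓ hq hℓq hℓd (Subgroup.mem_sup_right h0)
    have h5 := congrArg (fun u : (ZMod ℓ)ˣ => (u : ZMod ℓ)) h4
    simp only [map_mul, rd_neg_one, Units.val_mul, Units.val_neg, Units.val_one, ht, hκ'] at h5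
    linear_combination h5

end Step

section Eleven

/-- the good residues -/
def S11 (v : (ZMod 11)ˣ) : Prop := (v : ZMod 11) = 8 ∨ (v : ZMod 11) = 7

def S13 (v : (ZMod 13)ˣ) : Prop := (v : ZMod 13) = 3 ∨ (v : ZMod 13) = 9 ∨ (v : ZMod 13) = 5 ∨
  (v : ZMod 13) = 8

def S7a (v : (ZMod 7)ˣ) : Prop := (v : ZMod 7) = 2 ∨ (v : ZMod 7) = 4 ∨ (v : ZMod 7) = 6

def S7b (v : (ZMod 7)ˣ) : Prop := (v : ZMod 7) = 3 ∨ (v : ZMod 7) = 5

instance : DecidablePred S11 := fun v => by unfold S11; infer_instance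
instance : DecidablePred S13 := fun v => by unfold S13; infer_instance
instance : DecidablePred S7a := fun v => by unfold S7a; infer_instance
instance : DecidablePred S7b := fun v => by unfold S7b; infer_instance

lemma S11_inv : ∀ v, S11 v → S11 v⁻¹ := by decide
lemma S13_inv : ∀ v, S13 v → S13 v⁻¹ := by decide
lemma S7a_inv : ∀ v, S7a v → S7a v⁻¹ := by decide
lemma S7b_inv : ∀ v, S7b v → S7b v⁻¹ := by decide

lemma S11_res : ∀ v : (ZMod 11)ˣ, S11 v → - (v : ZMod 11) ≠ 1 ∧ 2 * (v : ZMod 11) ≠ 1 ∧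
    - 2 * (v : ZMod 11) ≠ 1 := by decide
lemma S13_res : ∀ v : (ZMod 13)ˣ, S13 v → - (v : ZMod 13) ≠ 1 ∧ 2 * (v : ZMod 13) ≠ 1 ∧
    - 2 * (v : ZMod 13) ≠ 1 := by decide
lemma S7a_res : ∀ v : (ZMod 7)ˣ, S7a v → - 2 * (v : ZMod 7) ≠ 1 := by decide
lemma S7b_res : ∀ v : (ZMod 7)ˣ, S7b v → - (v : ZMod 7) ≠ 1 ∧ 2 * (v : ZMod 7) ≠ 1 := by decide

lemma S11_gen (E : (ZMod 11)ˣ → Prop) (h1 : E 1) (h2 : ∀ v, S11 v → E v)
    (h3 : ∀ v w, E v → E w → E (v * w)) : ∀ v, E v :=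
  gen_of_pow (n := 10) (S := S11) (ZMod.unitOfCoprime 8 (by norm_num))
    (ZMod.unitOfCoprime 8 (by norm_num)) (by decide) (by decide) (by decide +kernel) E h1 h2 h3

lemma S13_gen (E : (ZMod 13)ˣ → Prop) (h1 : E 1) (h2 : ∀ v, S13 v → E v)
    (h3 : ∀ v w, E v → E w → E (v * w)) : ∀ v, E v :=
  gen_of_pow (n := 4) (S := S13) (ZMod.unitOfCoprime 3 (by norm_num))
    (ZMod.unitOfCoprime 5 (by norm_num)) (by decide) (by decide) (by decide +kernel) E h1 h2 h3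

lemma S7a_gen (E : (ZMod 7)ˣ → Prop) (h1 : E 1) (h2 : ∀ v, S7a v → E v)
    (h3 : ∀ v w, E v → E w → E (v * w)) : ∀ v, E v :=
  gen_of_pow (n := 3) (S := S7a) (ZMod.unitOfCoprime 2 (by norm_num))
    (ZMod.unitOfCoprime 6 (by norm_num)) (by decide) (by decide) (by decide +kernel) E h1 h2 h3

lemma S7b_gen (E : (ZMod 7)ˣ → Prop) (h1 : E 1) (h2 : ∀ v, S7b v → E v)
    (h3 : ∀ v w, E v → E w → E (v * w)) : ∀ v, E v :=
  gen_of_pow (n := 6) (S := S7b) (ZMod.unitOfCoprime 3 (by norm_num))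
    (ZMod.unitOfCoprime 3 (by norm_num)) (by decide) (by decide) (by decide +kernel) E h1 h2 h3

end Eleven

end Pool.Agent.Q59.S6
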