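import Pool.Agent.Q59.S6.Ref

/-!
# The odd orders for the primes 11, 13, 17
-/

namespace Pool.Agent.Q59.S6

open Finset Pool.Agent.H916R2 Pool.Agent.Q59.FS Pool.Agent.Q59.PL

lemma squarefree_list : ∀ L : List ℕ, (∀ p ∈ L, p.Prime) → L.Nodup → Squarefree L.prod := by
  intro L
  induction L with
  | nil => intro _ _; simp
  | cons p L ih =>
    intro hp hnd
    rw [List.prod_cons, Nat.squarefree_mul_iff]
    obtain ⟨h1, h2⟩ := List.nodup_cons.mp hnd
    refine ⟨?_, (Nat.Prime.prime (hp p (List.mem_cons_self ..))).squarefree,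
      ih (fun r hr => hp r (List.mem_cons_of_mem _ hr)) h2⟩
    rw [Nat.Prime.coprime_iff_not_dvd (hp p (List.mem_cons_self ..))]
    intro h3
    obtain ⟨r, hr, hpr⟩ := (Nat.Prime.prime (hp p (List.mem_cons_self ..))).dvd_prod_iff.mp h3
    have := (Nat.prime_dvd_prime_iff_eq (hp p (List.mem_cons_self ..))
      (hp r (List.mem_cons_of_mem _ hr))).mp hpr
    exact h1 (this ▸ hr)

lemma squarefree_Lq {d q : ℕ} [NeZero d] (hq : q.Prime) : Squarefree (q * (Lq d q q).prod) := by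
  have := squarefree_list (q :: Lq d q q) (by
    intro p hp
    rcases List.mem_cons.mp hp with rfl | hp
    · exact hq
    · exact (mem_Lq.mp hp).1) (List.nodup_cons.mpr ⟨fun h1 => (mem_Lq.mp h1).2.2.1 rfl, nodup_Lq⟩)
  rwa [List.prod_cons] at this

lemma not_sq_dvd {d q ℓ : ℕ} [NeZero d] (hq : q.Prime) (hℓ : ℓ.Prime) (hℓ3 : ℓ ≠ 3) :
    ¬ ℓ * ℓ ∣ 3 * (q * (Lq d q q).prod) := by
  intro h0
  have hcop : ℓ.Coprime 3 := (Nat.coprime_primes hℓ Nat.prime_three).mpr hℓ3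
  have h1 : ℓ * ℓ ∣ q * (Lq d q q).prod := (hcop.mul_left hcop).dvd_of_dvd_mul_left h0
  exact hℓ.one_lt.ne' (Nat.isUnit_iff.mp (squarefree_Lq hq ℓ h1))

lemma not_cube_dvd {d q : ℕ} [NeZero d] (hq : q.Prime) :
    ¬ 3 * (3 * 3) ∣ 3 * (q * (Lq d q q).prod) := by
  intro h0
  have h1 : 3 * 3 ∣ q * (Lq d q q).prod := Nat.dvd_of_mul_dvd_mul_left (by norm_num) h0
  exact absurd (Nat.isUnit_iff.mp (squarefree_Lq hq 3 h1)) (by norm_num)

section Step

variable {m R d : ℕ} [NeZero m] [NeZero d] {q : ℕ} {x0 x : ZMod m → ℤ}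

/-- a direction with good residues -/
theorem step_res (h : Top q x0 R d x) (hd : Odd d) (hn : ud d x0 < 2 * ((q : ℤ) - 1)) {ℓ : ℕ}
    (hℓ : ℓ.Prime) (hℓ5 : 5 ≤ ℓ) (hℓq : ℓ ≠ q) (hℓd : ℓ ∣ d)
    (S : (ZMod ℓ)ˣ → Prop)
    (hS : ∀ E : (ZMod ℓ)ˣ → Prop, E 1 → (∀ v, S v → E v) → (∀ v w, E v → E w → E (v * w)) → ∀ v, E v)
    (hSi : ∀ v, S v → S v⁻¹)
    (hres : ∀ a ∈ KL d ℓ, S (rd hℓd a) → Rat (KL d q) ((Lq d q ℓ).map (KL d)) (-1) (u2 hd) a) :
    ∃ y, St q x0 (d - 1) y := by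
  obtain ⟨d', hd'⟩ := id hℓd
  by_cases hℓd' : ℓ ∣ d'
  · -- the square of `ℓ` divides `d`
    refine step_auto h hd hn fun h0 => ?_
    have h1 : ℓ * ℓ ∣ d := by rw [hd']; exact Nat.mul_dvd_mul_left ℓ hℓd'
    exact not_sq_dvd h.hq hℓ (by omega) (h1.trans h0)
  · exact step_dir h hd hn hℓ hℓ5 hℓq hd'.symm hℓd' S hS hSi hres

theorem step_13 (h : Top q x0 R d x) (hd : Odd d) (hn : ud d x0 < 2 * ((q : ℤ) - 1))
    (hq : q ≠ 13) (h13 : 13 ∣ d) : ∃ y, St q x0 (d - 1) y :=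
  step_res h hd hn (by norm_num) (by norm_num) hq.symm h13 S13 S13_gen S13_inv fun a _ hSa => by
    obtain ⟨h1, h2, h3⟩ := S13_res _ hSa
    exact rat_of_res (by norm_num) h.hq hq.symm _ hd h1 h2 h3

theorem step_11 (h : Top q x0 R d x) (hd : Odd d) (hn : ud d x0 < 2 * ((q : ℤ) - 1))
    (hq : q ≠ 11) (h11 : 11 ∣ d) : ∃ y, St q x0 (d - 1) y :=
  step_res h hd hn (by norm_num) (by norm_num) hq.symm h11 S11 S11_gen S11_inv fun a _ hSa => by
    obtain ⟨h1, h2, h3⟩ := S11_res _ hSa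
    exact rat_of_res (by norm_num) h.hq hq.symm _ hd h1 h2 h3

/-- elements of the other subgroups are one modulo three -/
lemma rd3_sup {ℓ : ℕ} (hq : q.Prime) (h9 : 9 ∣ d) (h3 : 3 ∣ d)
    {w : (ZMod d)ˣ} (hw : w ∈ KL d q ⊔ jn ((Lq d q ℓ).map (KL d))) (hq3 : q ≠ 3)
    : rd h3 w = 1 := by
  refine rd3_one h9 h3 ?_ (sup_le_KL hw)
  intro h0
  have h1 := squarefree_list (q :: Lq d q ℓ) (by
    intro p hp
    rcases List.mem_cons.mp hp with rfl | hp
    · exact hq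
    · exact (mem_Lq.mp hp).1) (List.nodup_cons.mpr ⟨fun h1 => (mem_Lq.mp h1).2.2.1 rfl, nodup_Lq⟩)
  rw [List.prod_cons] at h1
  exact absurd (Nat.isUnit_iff.mp (h1 3 (by exact h0))) (by norm_num)

theorem step_7a (h : Top q x0 R d x) (hd : Odd d) (hn : ud d x0 < 2 * ((q : ℤ) - 1))
    (hq : q ≠ 7) (hq3 : q ≠ 3) (h7 : 7 ∣ d) (h9 : 9 ∣ d) : ∃ y, St q x0 (d - 1) y := by
  have h3 : 3 ∣ d := (show 3 ∣ 9 by norm_num).trans h9
  refine step_res h hd hn (by norm_num) (by norm_num) hq.symm h7 S7a S7a_gen S7a_inv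
    fun a ha hSa => ?_
  have ha3 : rd h3 a = 1 := rd_one Nat.prime_three h3 (by norm_num) ha
  refine ⟨?_, ?_, ?_⟩
  · intro h0
    have h1 := rd3_sup h.hq h9 h3 h0 hq3
    rw [map_mul, rd_neg_one, ha3] at h1
    exact absurd h1 (by decide)
  · intro h0
    have h1 := rd3_sup h.hq h9 h3 h0 hq3
    rw [map_mul, ha3, mul_one] at h1
    have h2 := rd_two h3 hd
    rw [h1] at h2
    exact absurd h2 (by decide)
  · intro κ hκ h0
    exfalso
    refine S7a_res _ hSa ?_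
    have hκ' : rd h7 κ = 1 := rd_sup (by norm_num) h.hq hq.symm h7 (Subgroup.mem_sup_left hκ)
    have h4 : rd h7 (-1 * u2 hd * a * κ) = 1 :=
      rd_sup (by norm_num) h.hq hq.symm h7 (Subgroup.mem_sup_right h0)
    have h5 := congrArg (fun u : (ZMod 7)ˣ => (u : ZMod 7)) h4
    simp only [map_mul, rd_neg_one, Units.val_mul, Units.val_neg, Units.val_one, rd_two h7 hd,
      hκ'] at h5
    linear_combination h5

lemma Lq_of {r s : ℕ} (h : ∀ p ∈ Lq d q r, p = s) : Lq d q r = [] ∨ Lq d q r = [s] := by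
  have h1 : Lq d q r = List.replicate (Lq d q r).length s := List.eq_replicate_iff.mpr ⟨rfl, h⟩
  have h2 : (Lq d q r).Nodup := nodup_Lq
  rw [h1, List.nodup_replicate] at h2
  rcases Nat.le_one_iff_eq_zero_or_eq_one.mp h2 with h3 | h3
  · left; rw [h1, h3]; rfl
  · right; rw [h1, h3]; rfl

theorem step_7b (h : Top q x0 R d x) (hd : Odd d) (hn : ud d x0 < 2 * ((q : ℤ) - 1))
    (hq : q ≠ 7) (hq3 : q ≠ 3) (h7 : 7 ∣ d) (h9 : ¬ 9 ∣ d)
    (hpr : ∀ r : ℕ, r.Prime → r ∣ d → r = 3 ∨ r = 7 ∨ r = q) : ∃ y, St q x0 (d - 1) y := by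
  refine step_res h hd hn (by norm_num) (by norm_num) hq.symm h7 S7b S7b_gen S7b_inv
    fun a ha hSa => ?_
  obtain ⟨h1, h2⟩ := S7b_res _ hSa
  have ht := rd_two h7 hd
  refine ⟨?_, ?_, ?_⟩
  · intro h0
    have h4 := rd_sup (by norm_num) h.hq hq.symm h7 h0
    apply h1
    have h5 := congrArg (fun u : (ZMod 7)ˣ => (u : ZMod 7)) h4
    simp only [map_mul, rd_neg_one, Units.val_mul, Units.val_neg, Units.val_one] at h5
    linear_combination h5
  · intro h0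
    have h4 := rd_sup (by norm_num) h.hq hq.symm h7 h0
    apply h2
    have h5 := congrArg (fun u : (ZMod 7)ˣ => (u : ZMod 7)) h4
    simp only [map_mul, Units.val_mul, Units.val_one, ht] at h5
    exact h5
  · intro κ hκ h0
    rcases Lq_of (d := d) (q := q) (r := 7) (s := 3) (fun p hp => by
      obtain ⟨k1, k2, k3, k4⟩ := mem_Lq.mp hp
      rcases hpr p k1 k2 with h5 | h5 | h5
      · exact h5
      · exact absurd h5 k4
      · exact absurd h5 k3) with hL | hL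
    · rw [hL] at h0
      exact Subgroup.mem_bot.mp h0
    · rw [hL] at h0
      have h5 : -1 * u2 hd * a * κ ∈ KL d 3 := by
        have := jn_KL_le d [3] h0
        simpa using this
      have h3 : 3 ∣ d := by
        have h6 : 3 ∈ Lq d q 7 := by rw [hL]; exact List.mem_cons_self ..
        exact (mem_Lq.mp h6).2.1
      obtain ⟨d', hd'⟩ := id h3
      have hd3 : ¬ 3 ∣ d' := by
        rintro ⟨e, he⟩
        exact h9 ⟨e, by rw [hd', he]; ring⟩
      refine rd_inj Nat.prime_three hd'.symm hd3 h5 ?_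
      have ha3 : rd h3 a = 1 := rd_one Nat.prime_three h3 (by norm_num) ha
      have hκ3 : rd h3 κ = 1 := rd_one Nat.prime_three h3 (fun h6 => hq3
        ((Nat.prime_dvd_prime_iff_eq Nat.prime_three h.hq).mp h6).symm) hκ
      rw [map_mul, map_mul, map_mul, rd_neg_one, ha3, hκ3, mul_one, mul_one]
      apply Units.ext
      rw [Units.val_mul, rd_two h3 hd]
      decide

theorem step_9 (h : Top q x0 R d x) (hd : Odd d) (hn : ud d x0 < 2 * ((q : ℤ) - 1))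
    (hq3 : q ≠ 3) (h9 : 9 ∣ d) (hpr : ∀ r : ℕ, r.Prime → r ∣ d → r = 3 ∨ r = q) :
    ∃ y, St q x0 (d - 1) y := by
  have h3 : 3 ∣ d := (show 3 ∣ 9 by norm_num).trans h9
  have hL : ∀ p ∈ Lq d q 3, False := by
    intro p hp
    obtain ⟨k1, k2, k3, k4⟩ := mem_Lq.mp hp
    rcases hpr p k1 k2 with h5 | h5
    · exact k4 h5
    · exact k3 h5
  have hL0 : Lq d q 3 = [] := List.eq_nil_iff_forall_not_mem.mpr fun p hp => hL p hp
  have hthree : ∀ a ∈ KL d 3, rd h3 a = 1 := fun a ha => rd3_one h9 h3 (by norm_num) ha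
  have hno : ∀ w ∈ KL d q ⊔ jn ((Lq d q 3).map (KL d)), rd h3 w = 1 := fun w hw =>
    rd3_sup h.hq h9 h3 hw hq3
  have h2 := rd_two h3 hd
  have e1 : ∀ a ∈ KL d 3, -1 * a ∉ KL d q ⊔ jn ((Lq d q 3).map (KL d)) := by
    intro a ha h0
    have h1 := hno _ h0
    rw [map_mul, rd_neg_one, hthree a ha] at h1
    exact absurd h1 (by decide)
  have e2 : ∀ a ∈ KL d 3, u2 hd * a ∉ KL d q ⊔ jn ((Lq d q 3).map (KL d)) := by
    intro a ha h0
    have h1 := hno _ h0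
    rw [map_mul, hthree a ha, mul_one] at h1
    rw [h1] at h2
    exact absurd h2 (by decide)
  refine step_box h hd hn (hL_cons Nat.prime_three hq3.symm h3) nodup_cons hcov_cons
    fun u hu => ?_
  refine exists_box_pm (ind_of h.hq (hL_cons Nat.prime_three hq3.symm h3) nodup_cons).2
    (fun _ => True) ?_ ?_ ?_ ?_ (fun E h1 h2 _ r hr => h2 r hr trivial) hu
  · simpa using e1 1 (Subgroup.one_mem _)
  · simpa using e2 1 (Subgroup.one_mem _)
  · intro h0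
    rw [hL0] at h0
    have h1 : -1 * u2 hd ∈ KL d q := by
      have h4 : (KL d q ⊔ jn (([] : List ℕ).map (KL d))) = KL d q := by
        change KL d q ⊔ ⊥ = _
        rw [sup_bot_eq]
      rwa [h4] at h0
    have h4 := cast_KL h9 h1
    rw [map_mul, rd_neg_one, Units.val_mul, Units.val_neg, Units.val_one, rd_two h9 hd] at h4
    have h5 : ∀ n : ZMod 9, n * (-1 * 2) = n → 3 * n = 0 := by decide
    have h6 := h5 _ h4
    have h7 : ((3 * q : ℕ) : ZMod 9) = 0 := by push_cast; exact h6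
    rw [ZMod.natCast_eq_zero_iff] at h7
    have h8 : 3 ∣ q := by
      obtain ⟨e, he⟩ := h7
      exact ⟨e, by omega⟩
    exact hq3 ((Nat.prime_dvd_prime_iff_eq Nat.prime_three h.hq).mp h8).symm
  · have key : ∀ a ∈ KL d 3, Rat (KL d q) ((Lq d q 3).map (KL d)) (-1) (u2 hd) a := by
      intro a ha
      refine ⟨e1 a ha, e2 a ha, fun κ _ h0 => ?_⟩
      rw [hL0] at h0
      exact Subgroup.mem_bot.mp h0
    exact fun a ha _ => ⟨key a ha, key a⁻¹ ((KL d 3).inv_mem ha)⟩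

/-- **The refined step.** -/
theorem step_ref (h : Top q x0 R d x) (hd : Odd d) (hn : ud d x0 < 2 * ((q : ℤ) - 1))
    (hq : q = 11 ∨ q = 13 ∨ q = 17) (hd3 : d ≠ 3 * q)
    (hpr : ∀ r : ℕ, r.Prime → r ∣ d → r = 3 ∨ r = 7 ∨ r = 11 ∨ r = 13 ∨ r = q) :
    ∃ y, St q x0 (d - 1) y := by
  have hq3 : q ≠ 3 := by omega
  have hq7 : q ≠ 7 := by omega
  by_cases h13 : q ≠ 13 ∧ 13 ∣ d
  · exact step_13 h hd hn h13.1 h13.2
  by_cases h11 : q ≠ 11 ∧ 11 ∣ d
  · exact step_11 h hd hn h11.1 h11.2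
  have hpr' : ∀ r : ℕ, r.Prime → r ∣ d → r = 3 ∨ r = 7 ∨ r = q := by
    intro r hr hrd
    rcases hpr r hr hrd with h1 | h1 | h1 | h1 | h1
    · exact Or.inl h1
    · exact Or.inr (Or.inl h1)
    · right; right
      by_contra h2
      exact h11 ⟨fun h3 => h2 (h1.trans h3.symm), h1 ▸ hrd⟩
    · right; right
      by_contra h2
      exact h13 ⟨fun h3 => h2 (h1.trans h3.symm), h1 ▸ hrd⟩
    · exact Or.inr (Or.inr h1)
  by_cases h7 : 7 ∣ d
  · by_cases h9 : 9 ∣ d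
    · exact step_7a h hd hn hq7 hq3 h7 h9
    · exact step_7b h hd hn hq7 hq3 h7 h9 hpr'
  have hpr2 : ∀ r : ℕ, r.Prime → r ∣ d → r = 3 ∨ r = q := by
    intro r hr hrd
    rcases hpr' r hr hrd with h1 | h1 | h1
    · exact Or.inl h1
    · exact absurd (h1 ▸ hrd) h7
    · exact Or.inr h1
  by_cases h9 : 9 ∣ d
  · exact step_9 h hd hn hq3 h9 hpr2
  by_cases hdq : d = q
  · exact h.step_self hdq
  -- now the order is `q` times a power of `q`
  refine step_auto h hd hn fun h0 => ?_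
  have hqq : ¬ q * q ∣ d := fun h1 => not_sq_dvd h.hq h.hq hq3 (h1.trans h0)
  obtain ⟨e, he⟩ := h.hqd
  have hqe : ¬ q ∣ e := by
    rintro ⟨f, hf⟩
    exact hqq ⟨f, by rw [he, hf]; ring⟩
  have he1 : e ≠ 1 := by
    rintro rfl
    exact hdq (by rw [he, mul_one])
  obtain ⟨r, hr, hre⟩ := Nat.exists_prime_and_dvd he1
  have hr3 : r = 3 := by
    rcases hpr2 r hr (by rw [he]; exact Dvd.dvd.mul_left hre q) with h1 | h1
    · exact h1
    · exact absurd (h1 ▸ hre) hqe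
  subst hr3
  obtain ⟨f, hf⟩ := hre
  have hf1 : f ≠ 1 := by
    rintro rfl
    exact hd3 (by rw [he, hf]; ring)
  obtain ⟨r', hr', hr'f⟩ := Nat.exists_prime_and_dvd hf1
  rcases hpr2 r' hr' (by rw [he, hf]; exact Dvd.dvd.mul_left (Dvd.dvd.mul_left hr'f 3) q) with h1 | h1
  · subst h1
    obtain ⟨g, hg⟩ := hr'f
    exact h9 ⟨q * g, by rw [he, hf, hg]; ring⟩
  · subst h1
    exact hqe (by rw [hf]; exact Dvd.dvd.mul_left hr'f 3)

end Step

end Pool.Agent.Q59.S6
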