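import Pool.Agent.Q59.S6.Ref2
import Pool.Agent.Q59.PL.Three

/-!
# The orders divisible by four
-/

namespace Pool.Agent.Q59.S6

open Finset Pool.Agent.H916R2 Pool.Agent.Q59.FS Pool.Agent.Q59.PL

section Step

variable {m R d : ℕ} [NeZero m] [NeZero d] {q : ℕ} {x0 x : ZMod m → ℤ}

/-- the orders for which the opposite of a box is automatically far away -/
theorem step_free (h : Top q x0 R d x) (hn : nd d x0 < 2 * ((q : ℤ) - 1))
    (ha : ¬ d ∣ 2 * (q * (Lq d q q).prod)) : ∃ y, St q x0 (d - 1) y := by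
  have hind := ind_of h.hq (hL_Lq (d := d) (q := q)) nodup_Lq
  refine h.finish hL_Lq nodup_Lq fun u => ?_
  by_contra hcon
  obtain ⟨b, hb⟩ := exists_box hind.2 hcon
  have hdis : ∀ w, ∀ κ ∈ KL d q, b w ≠ 0 → b (-1 * w * κ) = 0 := by
    intro w κ hκ hw
    by_contra h0
    have h1 := hb.supp _ hw
    have h2 := hb.supp _ h0
    have h3 : (-1 : (ZMod d)ˣ) ∈ KL d q ⊔ jn ((Lq d q q).map (KL d)) := by
      have h4 := (jn ((Lq d q q).map (KL d))).mul_mem h2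
        ((jn ((Lq d q q).map (KL d))).inv_mem h1)
      have h5 := Subgroup.mul_mem_sup ((KL d q).inv_mem hκ) h4
      have e : κ⁻¹ * (u⁻¹ * (-1 * w * κ) * (u⁻¹ * w)⁻¹) = -1 := by
        rw [← mul_assoc, mul_inv_eq_iff_eq_mul]
        calc κ⁻¹ * (u⁻¹ * (-1 * w * κ)) = (κ⁻¹ * κ) * (-1 * (u⁻¹ * w)) := by
              simp only [mul_comm, mul_left_comm, mul_assoc]
          _ = _ := by rw [inv_mul_cancel, one_mul]
      rwa [e] at h5
    have h4 : (-1 : (ZMod d)ˣ) ∈ jn ((q :: Lq d q q).map (KL d)) := h3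
    have h5 := dvd_of_neg_one h4
    rw [List.prod_cons] at h5
    exact ha h5
  have h1 := key_disj (K := KL d q) (P := (Lq d q q).map (KL d)) hind
    (z := -1) (by rw [neg_mul_neg, one_mul]) h.odd
    (fun b hb => h.hrel hcov_Lq b hb) (fun b h1 h2 h3 => hp_nd h _ hcov_Lq b h1 h2 h3) hb hdis
  have h2 := card_KL_ge' h.hq h.hqd
  linarith

/-- an order with a direction with at least three elements -/
theorem step_big' (h : Top q x0 R d x) (hn : nd d x0 < 2 * ((q : ℤ) - 1)) {ℓ : ℕ}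
    (hℓ : ℓ.Prime) (hℓ2 : ℓ ≠ 2) (hℓd : ℓ ∣ d) (hℓq : ℓ ≠ q) (hcard : 3 ≤ Nat.card (KL d ℓ)) :
    ∃ y, St q x0 (d - 1) y := by
  have hprime : ∀ p ∈ Lq d q ℓ, p.Prime := fun p hp => (mem_Lq.mp hp).1
  have hqn : q ∉ Lq d q ℓ := fun h1 => (mem_Lq.mp h1).2.2.1 rfl
  have hℓn : ℓ ∉ Lq d q ℓ := fun h1 => (mem_Lq.mp h1).2.2.2 rfl
  have hind1 : Ind ((ℓ :: q :: Lq d q ℓ).map (KL d)) := by
    refine ind_KL d ?_ ?_
    · intro p hp
      rcases List.mem_cons.mp hp with rfl | hp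
      · exact hℓ
      · rcases List.mem_cons.mp hp with rfl | hp
        · exact h.hq
        · exact hprime p hp
    · refine List.nodup_cons.mpr ⟨fun h1 => ?_, List.nodup_cons.mpr ⟨hqn, nodup_Lq⟩⟩
      rcases List.mem_cons.mp h1 with h2 | h2
      · exact hℓq h2
      · exact hℓn h2
  have hind2 : Ind ((q :: ℓ :: Lq d q ℓ).map (KL d)) := ind_of h.hq (hL_cons hℓ hℓq hℓd) nodup_cons
  refine h.finish (hL_cons hℓ hℓq hℓd) nodup_cons ?_
  intro u
  by_contra hcon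
  have hzn : (-1 : (ZMod d)ˣ) ∉ KL d q ⊔ jn ((Lq d q ℓ).map (KL d)) := by
    intro h0
    have h1 : (-1 : (ZMod d)ˣ) ∈ jn ((q :: Lq d q ℓ).map (KL d)) := h0
    have h2 := dvd_of_neg_one h1
    refine not_dvd_two_prod (L := q :: Lq d q ℓ) ?_ hℓ hℓ2 ?_ (hℓd.trans h2)
    · intro p hp
      rcases List.mem_cons.mp hp with rfl | hp
      · exact h.hq
      · exact hprime p hp
    · intro h3
      rcases List.mem_cons.mp h3 with h4 | h4
      · exact hℓq h4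
      · exact hℓn h4
  obtain ⟨b, hb, hdis⟩ := exists_box_disj (K := KL d q) (K0 := KL d ℓ)
    (P := (Lq d q ℓ).map (KL d)) hind2.2 hind1.1 hcard (z := -1)
    (by rw [neg_mul_neg, one_mul]) hzn hcon
  have h1 := key_disj (K := KL d q) (P := (ℓ :: Lq d q ℓ).map (KL d)) hind2
    (z := -1) (by rw [neg_mul_neg, one_mul]) h.odd
    (fun b hb => h.hrel hcov_cons b hb) (fun b h1 h2 h3 => hp_nd h _ hcov_cons b h1 h2 h3) hb hdis
  have h2 := card_KL_ge' h.hq h.hqd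
  linarith

/-- the nontrivial element of a subgroup with two elements -/
lemma exists_kappa_card {G : Type*} [Group G] {K : Subgroup G} (hK : Nat.card K = 2) :
    ∃ κ ∈ K, κ ≠ 1 ∧ κ * κ = 1 ∧ ∀ κ' ∈ K, κ' = 1 ∨ κ' = κ := by
  have : Finite K := Nat.finite_of_card_ne_zero (by omega)
  obtain ⟨a, b, hab, huniv⟩ := Nat.card_eq_two_iff.mp hK
  have hmem : ∀ c : K, c = a ∨ c = b := fun c => by
    have : c ∈ ({a, b} : Set K) := by rw [huniv]; trivial
    simpa using this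
  have key : ∀ κ : K, κ ≠ 1 → (∀ κ' : K, κ' = 1 ∨ κ' = κ) →
      ∃ κ ∈ K, κ ≠ 1 ∧ κ * κ = 1 ∧ ∀ κ' ∈ K, κ' = 1 ∨ κ' = κ := by
    intro κ h1 h2
    refine ⟨κ, κ.2, fun h => h1 (Subtype.ext h), ?_, fun κ' hκ' => ?_⟩
    · rcases h2 (κ * κ) with h3 | h3
      · exact congrArg Subtype.val h3
      · exfalso
        exact h1 (mul_eq_left.mp h3)
    · rcases h2 ⟨κ', hκ'⟩ with h3 | h3
      · left; exact congrArg Subtype.val h3
      · right; exact congrArg Subtype.val h3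
  rcases hmem 1 with h1 | h1
  · refine key b (fun h => hab (h1.symm.trans h.symm)) fun κ' => ?_
    rw [h1]; exact hmem κ'
  · refine key a (fun h => hab (h.trans h1)) fun κ' => ?_
    rw [h1]; exact (hmem κ').symm

lemma card_KL_two (h4 : 4 ∣ d) : Nat.card (KL d 2) = 2 := by
  obtain ⟨e, he⟩ := h4
  have h2 : 2 * (2 * e) = d := by omega
  rw [KL_eq_KK (by norm_num) h2, card_KK_dvd Nat.prime_two h2 (Dvd.intro _ rfl)]

lemma card_KL_three (h3 : 3 ∣ d) (h9 : ¬ 9 ∣ d) : Nat.card (KL d 3) = 2 := by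
  obtain ⟨e, he⟩ := h3
  have h2 : 3 * e = d := by omega
  rw [KL_eq_KK (by norm_num) h2, card_KK_not_dvd Nat.prime_three h2]
  rintro ⟨f, hf⟩
  exact h9 ⟨f, by omega⟩

lemma bb_mul {G : Type*} [CommGroup G] [Fintype G] {K : Subgroup G} {b : G → ℤ} {κ : G}
    (hκ : κ ∈ K) (w : G) : bb K b (w * κ) = bb K b w := by
  unfold bb
  have h1 := sum_KF_mul hκ (fun y => b (w * y))
  rw [← h1]
  exact sum_congr rfl fun y _ => by simp only [mul_comm, mul_left_comm]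

lemma bb_pair {G : Type*} [CommGroup G] [Fintype G] {K K' : Subgroup G} {P : List (Subgroup G)}
    {b : G → ℤ} (hb : Z0 P b) (hK' : K' ∈ P) {κ : G} (hκ : κ ∈ K') (hκ1 : κ ≠ 1)
    (hall : ∀ κ' ∈ K', κ' = 1 ∨ κ' = κ) (w : G) : bb K b (w * κ) = - bb K b w := by
  classical
  have h1 := bb_zero (K := K) hb K' hK' w
  have hset : KF K' = {1, κ} := by
    ext z
    rw [mem_KF, mem_insert, mem_singleton]
    constructor
    · exact hall z
    · rintro (rfl | rfl)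
      · exact Subgroup.one_mem _
      · exact hκ
  rw [hset, sum_pair (Ne.symm hκ1), mul_one] at h1
  linarith

lemma dec12 : ∀ a b : (ZMod 12)ˣ, 2 * (a : ZMod 12) = 2 → a ≠ 1 → 3 * (b : ZMod 12) = 3 → b ≠ 1 →
    -1 * a * b = 1 := by decide

/-- the order `12 * q` -/
theorem step_twelve (h : Top q x0 R d x) (hd : q * 12 = d) (hq5 : 5 ≤ q) :
    ∃ y, St q x0 (d - 1) y := by
  have h12 : 12 ∣ d := Dvd.intro_left q hd
  have h4 : 4 ∣ d := (show 4 ∣ 12 by norm_num).trans h12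
  have h3 : 3 ∣ d := (show 3 ∣ 12 by norm_num).trans h12
  have h9 : ¬ 9 ∣ d := by
    rintro ⟨e, he⟩
    have h1 : 3 ∣ q := by
      have : 3 ∣ 4 * q := ⟨e, by omega⟩
      exact (show Nat.Coprime 3 4 by norm_num).dvd_of_dvd_mul_left this
    have := (Nat.prime_dvd_prime_iff_eq Nat.prime_three h.hq).mp h1
    omega
  have hL : ∀ ℓ ∈ [2, 3], ℓ.Prime ∧ ℓ ≠ q ∧ ℓ ∣ d := by
    intro ℓ hℓ
    simp only [List.mem_cons, List.not_mem_nil, or_false] at hℓ
    rcases hℓ with rfl | rfl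
    · exact ⟨Nat.prime_two, by omega, (show 2 ∣ 4 by norm_num).trans h4⟩
    · exact ⟨Nat.prime_three, by omega, h3⟩
  have hcov : ∀ r : ℕ, r.Prime → r ∣ d → r = q ∨ r ∈ [2, 3] := by
    intro r hr hrd
    rw [← hd] at hrd
    rcases hr.dvd_mul.mp hrd with h1 | h1
    · exact Or.inl ((Nat.prime_dvd_prime_iff_eq hr h.hq).mp h1)
    · right
      have h2 : r ∣ 2 * 2 * 3 := h1
      rcases hr.dvd_mul.mp h2 with h2 | h2
      · rcases hr.dvd_mul.mp h2 with h2 | h2 <;>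
        · rw [(Nat.prime_dvd_prime_iff_eq hr Nat.prime_two).mp h2]; simp
      · rw [(Nat.prime_dvd_prime_iff_eq hr Nat.prime_three).mp h2]; simp
  have hnd : ([2, 3] : List ℕ).Nodup := by decide
  have hind := ind_of h.hq hL hnd
  refine h.finish hL hnd fun u => ?_
  by_contra hcon
  obtain ⟨b, hb⟩ := exists_box hind.2 hcon
  obtain ⟨κ2, m2, n2, -, a2⟩ := exists_kappa_card (card_KL_two h4)
  obtain ⟨κ3, m3, n3, -, a3⟩ := exists_kappa_card (card_KL_three h3 h9)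
  have hco : ∀ ℓ : ℕ, ℓ.Prime → ℓ ≠ q → ∀ κ ∈ KL d ℓ, κ ≠ 1 → rd h12 κ ≠ 1 := by
    intro ℓ hℓ hℓq κ hκ hκ1 h0
    have h1 : κ ∈ KL d q := by
      rw [KL_eq_KK h.hq.pos hd, mem_KK]
      exact h0
    have h2 : κ ∈ KL d ℓ ⊓ KL d q := ⟨hκ, h1⟩
    rw [KL_inf ((Nat.coprime_primes hℓ h.hq).mpr hℓq)] at h2
    exact hκ1 (Subgroup.mem_bot.mp h2)
  have hκq : -1 * κ2 * κ3 ∈ KL d q := by
    rw [KL_eq_KK h.hq.pos hd, mem_KK]
    have e2 := cast_KL h12 m2
    have e3 := cast_KL h12 m3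
    have h1 := dec12 (rd h12 κ2) (rd h12 κ3) (by exact_mod_cast e2)
      (hco 2 Nat.prime_two (by omega) κ2 m2 n2) (by exact_mod_cast e3)
      (hco 3 Nat.prime_three (by omega) κ3 m3 n3)
    change rd h12 (-1 * κ2 * κ3) = 1
    rw [map_mul, map_mul, rd_neg_one]
    exact h1
  have heven : ∀ w, bb (KL d q) b (-1 * w) = bb (KL d q) b w := by
    intro w
    have e1 := bb_mul (b := b) hκq w
    have e2 := bb_pair (K := KL d q) hb.zero (K' := KL d 2) (List.mem_cons_self ..) m2 n2 a2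
      (-1 * w)
    have e3 := bb_pair (K := KL d q) hb.zero (K' := KL d 3)
      (List.mem_cons_of_mem _ (List.mem_cons_self ..)) m3 n3 a3 (-1 * w * κ2)
    rw [← e1]
    have e : w * (-1 * κ2 * κ3) = -1 * w * κ2 * κ3 := by
      simp only [mul_comm, mul_left_comm]
    rw [e, e3, e2, neg_neg]
  have h1 := bb_sum hb.zero (fun b hb => h.hrel hcov b hb)
  have h2 := bb_odd h.odd (bb (KL d q) b)
  have h5 : ∑ w, FF R d x w * bb (KL d q) b w = 0 := by
    have h6 : ∑ w, FF R d x w * (bb (KL d q) b w - bb (KL d q) b (-1 * w)) = 0 :=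
      sum_eq_zero fun w _ => by rw [heven, sub_self, mul_zero]
    linarith
  rw [h5] at h1
  have h7 := card_KL_ge' h.hq h.hqd
  have h8 : (Nat.card (KL d q) : ℤ) ≠ 0 := by
    have : (5 : ℤ) ≤ q := by exact_mod_cast hq5
    omega
  exact hb.ne ((mul_eq_zero.mp h1.symm).resolve_left h8)

lemma not_sq_dvd2 {r : ℕ} (hq : q.Prime) (hr : r.Prime) (hr2 : r ≠ 2) :
    ¬ r * r ∣ 2 * (q * (Lq d q q).prod) := by
  intro h0
  have hcop : r.Coprime 2 := (Nat.coprime_primes hr Nat.prime_two).mpr hr2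
  have h1 : r * r ∣ q * (Lq d q q).prod := (hcop.mul_left hcop).dvd_of_dvd_mul_left h0
  exact hr.one_lt.ne' (Nat.isUnit_iff.mp (squarefree_Lq hq r h1))

/-- **The step for the orders divisible by four.** -/
theorem step_four_gen (h : Top q x0 R d x) (hq5 : 5 ≤ q) (h4 : 4 ∣ d) (hd4 : d ≠ 4 * q)
    (hn : nd d x0 < 2 * ((q : ℤ) - 1)) : ∃ y, St q x0 (d - 1) y := by
  by_cases ha : d ∣ 2 * (q * (Lq d q q).prod)
  swap
  · exact step_free h hn ha
  by_cases hex : ∃ ℓ : ℕ, ℓ.Prime ∧ 5 ≤ ℓ ∧ ℓ ≠ q ∧ ℓ ∣ d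
  · obtain ⟨ℓ, hℓ, hℓ5, hℓq, hℓd⟩ := hex
    refine step_big' h hn hℓ (by omega) hℓd hℓq ?_
    have h1 := card_KL_ge' hℓ hℓd
    omega
  push Not at hex
  have h8 : ¬ 8 ∣ d := by
    intro h8
    have h1 : 2 * (2 * 2) ∣ 2 * (q * (Lq d q q).prod) := (show 2 * (2 * 2) = 8 by norm_num) ▸
      (h8.trans ha)
    have h2 := Nat.dvd_of_mul_dvd_mul_left (by norm_num) h1
    exact absurd (Nat.isUnit_iff.mp (squarefree_Lq h.hq 2 h2)) (by norm_num)
  have h9 : ¬ 9 ∣ d := fun h9 => not_sq_dvd2 h.hq Nat.prime_three (by norm_num) (h9.trans ha)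
  have hqq : ¬ q * q ∣ d := fun h1 => not_sq_dvd2 h.hq h.hq h.hq2 (h1.trans ha)
  obtain ⟨e', he'⟩ := id h4
  have hqe' : q ∣ e' := by
    have h1 : q ∣ 2 * 2 * e' := by
      have := h.hqd
      rw [he'] at this
      exact this
    have hcop : q.Coprime 2 := (Nat.coprime_primes h.hq Nat.prime_two).mpr h.hq2
    exact (hcop.mul_right hcop).dvd_of_dvd_mul_left h1
  obtain ⟨e, he⟩ := hqe'
  have hde : d = 4 * q * e := by rw [he', he]; ring
  have he2 : ¬ 2 ∣ e := by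
    rintro ⟨f, hf⟩
    exact h8 ⟨q * f, by rw [hde, hf]; ring⟩
  have hqe : ¬ q ∣ e := by
    rintro ⟨f, hf⟩
    exact hqq ⟨4 * f, by rw [hde, hf]; ring⟩
  have hpe : ∀ r : ℕ, r.Prime → r ∣ e → r = 3 := by
    intro r hr hre
    have h2 := hr.two_le
    by_contra h3
    have hr2 : r ≠ 2 := by rintro rfl; exact he2 hre
    have hr4 : r ≠ 4 := by rintro rfl; exact absurd hr (by norm_num)
    have hrq : r ≠ q := by rintro rfl; exact hqe hre
    exact hex r hr (by omega) hrq (by rw [hde]; exact Dvd.dvd.mul_left hre _)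
  have he1 : e ≠ 1 := by
    rintro rfl
    exact hd4 (by rw [hde, mul_one])
  obtain ⟨r, hr, hre⟩ := Nat.exists_prime_and_dvd he1
  obtain rfl := hpe r hr hre
  obtain ⟨f, hf⟩ := hre
  by_cases hf1 : f = 1
  · exact step_twelve h (by rw [hde, hf, hf1]; ring) hq5
  · exfalso
    obtain ⟨r', hr', hr'f⟩ := Nat.exists_prime_and_dvd hf1
    obtain rfl := hpe r' hr' (by rw [hf]; exact Dvd.dvd.mul_left hr'f 3)
    obtain ⟨g, hg⟩ := hr'f
    exact h9 ⟨4 * q * g, by rw [hde, hf, hg]; ring⟩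

end Step

end Pool.Agent.Q59.S6
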